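import Pool.Agent.H94_rl.Disc

/-! The algebraic part over the complex numbers. -/

open Module MvPolynomial

namespace Pool.Agent.H94rl

variable {d n : ℕ}

theorem full_point {A : Type} [CommRing A] [Algebra ℂ A] {V : Type} [AddCommGroup V] [Module ℂ V]
    {b : Fin (n + 1) → V} {ww : Fin (n + 1) → A} (hf : Full ℂ b ww) (hb : b 0 ≠ 0)
    (F : A →ₐ[ℂ] ℂ) (w' : Fin (n + 1) → ℂ) (h : ∀ i : Fin n, F (ww i.succ) = w' i.succ)
    (hf' : Full ℂ b w') : ∀ i, F (ww i) = w' i := by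
  intro i
  refine Fin.cases ?_ h i
  obtain ⟨ζ, hζ, -⟩ := exists_dual_one (k := ℂ) (Z := ⊥) (v := b 0) (by simpa using hb)
  have h3 := hf' ζ
  have h4 := congrArg F (hf ζ)
  rw [Fin.sum_univ_succ, hζ, one_smul] at h3
  rw [Fin.sum_univ_succ, hζ, one_smul, map_add, map_sum, map_zero] at h4
  have h5 : ∀ i : Fin n, F (ζ (b i.succ) • ww i.succ) = ζ (b i.succ) • w' i.succ := by
    intro i; rw [map_smul, h]
  rw [Finset.sum_congr rfl fun i _ => h5 i] at h4
  exact add_right_cancel (h4.trans h3.symm)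

theorem exists_Delta (ℓ : Fin (n + 1) → Dual ℂ (Fin (d + 1) → ℂ))
    (hspan : Submodule.span ℂ (Set.range ℓ) = ⊤) (hb : ∀ i, ℓ i ≠ 0) (hconn : Conn ℂ ℓ) :
    ∃ (D : ℕ) (Δ : MvPolynomial (Fin (n + 1)) ℂ), (D : ℤ) = 2 ^ d * beta ℂ ℓ ∧ Irreducible Δ ∧
      Δ.IsHomogeneous D ∧
      (∀ (w : Fin (n + 1) → ℂ) (t : Fin (d + 1) → ℂ), ℓ 0 t = 1 → (∑ i, w i • ℓ i = 0) →
        eval (fun i => w i * (ℓ i t) ^ 2) Δ = 0) ∧
      (∀ F : MvPolynomial (Fin (n + 1)) ℂ,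
        (∀ (w : Fin (n + 1) → ℂ) (t : Fin (d + 1) → ℂ), (∀ i, ℓ i t ≠ 0) →
          (∑ i, w i • ℓ i = 0) → eval (fun i => w i * (ℓ i t) ^ 2) F = 0) → Δ ∣ F) := by
  classical
  obtain ⟨ζ, hζ, -⟩ := exists_dual_one (k := ℂ) (Z := ⊥) (v := ℓ 0) (by simpa using hb 0)
  have hM := model_isUniv ℂ (ℓ 0) (fun i : Fin n => ℓ i.succ) hζ
  set w := mw ℂ (ℓ 0) (fun i : Fin n => ℓ i.succ) with hw
  set x := mx ℂ (ℓ 0) (fun i : Fin n => ℓ i.succ) ζ with hx
  obtain ⟨w0, hw0⟩ := hM.rel.exists_full (hb 0)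
  set ww : Fin (n + 1) → MvPolynomial (Idx ℂ (ℓ 0) (fun i : Fin n => ℓ i.succ)) ℂ :=
    Fin.cons w0 w with hww
  have hf : Full ℂ ℓ ww := by
    intro φ
    rw [Fin.sum_univ_succ]
    exact hw0 φ
  have hspan' : Submodule.span ℂ (insert (ℓ 0) (Set.range fun i : Fin n => ℓ i.succ)) = ⊤ := by
    rw [eq_top_iff, ← hspan]
    refine Submodule.span_mono ?_
    rintro _ ⟨i, rfl⟩
    refine Fin.cases (Or.inl rfl) (fun j => Or.inr ⟨j, rfl⟩) i
  obtain ⟨D, hD1, hD2⟩ := count n _ (ℓ 0) (fun i => ℓ i.succ) _ w x hM (hb 0) hspan'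
  have hcons : (Fin.cons (ℓ 0) (fun i : Fin n => ℓ i.succ) :
      Fin (n + 1) → Dual ℂ (Fin (d + 1) → ℂ)) = ℓ := Fin.cons_self_tail ℓ
  have hfr : finrank ℂ (Dual ℂ (Fin (d + 1) → ℂ)) = d + 1 := by
    rw [Subspace.dual_finrank_eq, Module.finrank_fin_fun]
  rw [hcons, hfr, Nat.add_sub_cancel] at hD2
  have hDpos : 0 < D := by
    have h1 : 0 < beta ℂ ℓ := beta_pos n _ ℓ (hb 0) hconn
    have h2 : (0 : ℤ) < D := by rw [hD2]; positivity
    exact_mod_cast h2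
  obtain ⟨Δ, hirr, hhom, hdvd⟩ := exists_disc (ww := ww) hM hf hb hspan D hDpos hD1
  refine ⟨D, Δ, hD2, hirr, hhom, ?_, ?_⟩
  · intro w' t ht hw'
    have hfull : Full ℂ ℓ w' := by
      intro φ
      have h1 := congrArg φ hw'
      rw [map_sum, map_zero] at h1
      rw [← h1]
      refine Finset.sum_congr rfl fun i _ => ?_
      rw [map_smul, smul_eq_mul, smul_eq_mul, mul_comm]
    obtain ⟨F, hF1, hF2⟩ := hM.lift ℂ (fun i : Fin n => w' i.succ)
      (Dual.eval ℂ (Fin (d + 1) → ℂ) t) ht (by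
        intro φ hφ
        have h1 := hfull φ
        rw [Fin.sum_univ_succ, hφ, zero_smul, zero_add] at h1
        exact h1)
    have hF3 := full_point hf (hb 0) F w' hF1 hfull
    have h1 : (F.comp (aeval (fun i => ww i * x (ℓ i) ^ 2)) : MvPolynomial (Fin (n + 1)) ℂ →ₐ[ℂ] ℂ)
        = aeval (fun i => w' i * (ℓ i t) ^ 2) := by
      ext i
      rw [AlgHom.comp_apply, aeval_X, aeval_X, map_mul, map_pow, hF3, hF2]
      rfl
    have h2 := DFunLike.congr_fun h1 Δ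
    rw [AlgHom.comp_apply, (hdvd Δ).2 dvd_rfl, map_zero] at h2
    rw [← coe_aeval_eq_eval]
    exact h2.symm
  · intro F hF
    rw [← hdvd]
    have hprod : (∏ i, x (ℓ i)) ≠ 0 :=
      Finset.prod_ne_zero_iff.2 fun i _ => hM.x_ne_zero (hb 0) (hb i)
    refine (mul_eq_zero.1 ?_).resolve_right hprod
    apply MvPolynomial.funext
    intro p
    rw [map_zero, map_mul, map_prod]
    by_cases h0 : ∀ i, eval p (x (ℓ i)) ≠ 0
    · let G : MvPolynomial (Idx ℂ (ℓ 0) (fun i : Fin n => ℓ i.succ)) ℂ →ₐ[ℂ] ℂ := aeval p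
      have hG : ∀ y, G y = eval p y := fun y => by
        change aeval p y = _
        rw [← coe_aeval_eq_eval]; rfl
      set t := (Module.evalEquiv ℂ (Fin (d + 1) → ℂ)).symm (G.toLinearMap ∘ₗ x) with ht
      have ht' : ∀ v : Dual ℂ (Fin (d + 1) → ℂ), v t = G (x v) := by
        intro v
        have h1 : Module.evalEquiv ℂ (Fin (d + 1) → ℂ) t = G.toLinearMap ∘ₗ x := by
          rw [ht, LinearEquiv.apply_symm_apply]
        exact LinearMap.congr_fun h1 v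
      have h1 := hF (fun i => G (ww i)) t (fun i => by rw [ht', hG]; exact h0 i) (by
        have h2 : ∀ φ : Dual ℂ (Dual ℂ (Fin (d + 1) → ℂ)), φ (∑ i, G (ww i) • ℓ i) = 0 := by
          intro φ
          have h3 := congrArg G (hf φ)
          rw [map_sum, map_zero] at h3
          rw [map_sum, ← h3]
          refine Finset.sum_congr rfl fun i _ => ?_
          rw [map_smul, map_smul, smul_eq_mul, smul_eq_mul, mul_comm]
        exact (Module.forall_dual_apply_eq_zero_iff ℂ _).1 h2)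
      have h2 : (G.comp (aeval (fun i => ww i * x (ℓ i) ^ 2)) :
          MvPolynomial (Fin (n + 1)) ℂ →ₐ[ℂ] ℂ) = aeval (fun i => G (ww i) * (ℓ i t) ^ 2) := by
        ext i
        rw [AlgHom.comp_apply, aeval_X, aeval_X, map_mul, map_pow, ht']
      have h3 := DFunLike.congr_fun h2 F
      rw [AlgHom.comp_apply, hG] at h3
      have h4 : aeval (fun i => G (ww i) * (ℓ i t) ^ 2) F =
          eval (fun i => G (ww i) * (ℓ i t) ^ 2) F := by
        rw [← coe_aeval_eq_eval]; rfl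
      rw [h3, h4, h1, zero_mul]
    · push Not at h0
      obtain ⟨i, hi⟩ := h0
      rw [Finset.prod_eq_zero (Finset.mem_univ i) hi, mul_zero]

end Pool.Agent.H94rl
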