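import Mathlib

/-! The beta invariant of a family of vectors. -/

open Module Finset

namespace Pool.Agent.H94rl

variable {k : Type} [Field k] {V : Type} [AddCommGroup V] [Module k V] [FiniteDimensional k V]

/-- rank of a set of vectors of a family -/
noncomputable def rkS (k : Type) [Field k] {V : Type} [AddCommGroup V] [Module k V] {κ : Type}
    (b : κ → V) (S : Finset κ) : ℕ :=
  finrank k (Submodule.span k (b '' (S : Set κ)))

/-- beta invariant of a family -/
noncomputable def beta (k : Type) [Field k] {V : Type} [AddCommGroup V] [Module k V] {κ : Type}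
    [Fintype κ] (b : κ → V) : ℤ :=
  (-1) ^ rkS k b univ * ∑ S : Finset κ, (-1) ^ S.card * (rkS k b S : ℤ)

variable {m : ℕ}

theorem univ_eq (e : Fin (m + 1)) :
    (univ : Finset (Fin (m + 1))) = insert e (univ.map (Fin.succAboveEmb e)) := by
  ext i
  simp only [mem_univ, mem_insert, mem_map, true_and, Fin.succAboveEmb_apply, true_iff]
  exact (Fin.eq_self_or_eq_succAbove e i).imp id fun ⟨j, hj⟩ => ⟨j, hj.symm⟩

theorem not_mem_map (e : Fin (m + 1)) (S : Finset (Fin m)) :
    e ∉ S.map (Fin.succAboveEmb e) := by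
  simp [Fin.succAbove_ne]

theorem sum_split (e : Fin (m + 1)) (g : Finset (Fin (m + 1)) → ℤ) :
    ∑ S : Finset (Fin (m + 1)), g S =
      ∑ S : Finset (Fin m), (g (S.map (Fin.succAboveEmb e)) +
        g (insert e (S.map (Fin.succAboveEmb e)))) := by
  rw [← Finset.powerset_univ, univ_eq e, Finset.sum_powerset_insert (not_mem_map e _),
    ← Finset.sum_add_distrib]
  have h1 : (univ.map (Fin.succAboveEmb e)).powerset =
      (univ : Finset (Finset (Fin m))).map
        ⟨fun S => S.map (Fin.succAboveEmb e), fun S S' h => Finset.map_injective _ h⟩ := by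
    ext S
    simp only [mem_powerset, mem_map, mem_univ, true_and, Function.Embedding.coeFn_mk]
    constructor
    · intro h
      refine ⟨univ.filter fun j => e.succAbove j ∈ S, ?_⟩
      ext i
      change i ∈ (univ.filter fun j => e.succAbove j ∈ S).map (Fin.succAboveEmb e) ↔ i ∈ S
      simp only [mem_map, mem_filter, mem_univ, true_and, Fin.succAboveEmb_apply]
      constructor
      · rintro ⟨j, hj, rfl⟩; exact hj
      · intro hi
        obtain ⟨j, -, rfl⟩ := Finset.mem_map.1 (h hi)
        exact ⟨j, hi, rfl⟩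
    · rintro ⟨T, rfl⟩
      exact Finset.map_subset_map.2 (subset_univ _)
  rw [h1, Finset.sum_map]
  rfl

theorem rkS_map (e : Fin (m + 1)) (b : Fin (m + 1) → V) (S : Finset (Fin m)) :
    rkS k b (S.map (Fin.succAboveEmb e)) = rkS k (fun i => b (e.succAbove i)) S := by
  unfold rkS
  rw [coe_map, ← Set.image_comp]
  rfl

theorem span_insert' (e : Fin (m + 1)) (b : Fin (m + 1) → V) (S : Finset (Fin m)) :
    Submodule.span k (b '' ((insert e (S.map (Fin.succAboveEmb e)) : Finset (Fin (m + 1))) :
      Set (Fin (m + 1)))) =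
      Submodule.span k ((fun i => b (e.succAbove i)) '' (S : Set (Fin m))) ⊔ (k ∙ b e) := by
  rw [coe_insert, Set.image_insert_eq, coe_map, ← Set.image_comp, Submodule.span_insert, sup_comm]
  rfl

/-- loops -/
theorem beta_loop (e : Fin (m + 1)) (b : Fin (m + 1) → V) (he : b e = 0) : beta k b = 0 := by
  unfold beta
  rw [sum_split e]
  rw [Finset.sum_eq_zero, mul_zero]
  intro S _
  have h1 : rkS k b (insert e (S.map (Fin.succAboveEmb e))) =
      rkS k b (S.map (Fin.succAboveEmb e)) := by
    rw [rkS_map]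
    unfold rkS
    rw [span_insert', he, Submodule.span_zero_singleton, sup_bot_eq]
  rw [h1, card_insert_of_notMem (not_mem_map e S), pow_succ]
  ring

/-- coloops -/
theorem beta_coloop (e : Fin (m + 2)) (b : Fin (m + 2) → V)
    (he : b e ∉ Submodule.span k (Set.range fun i => b (e.succAbove i))) : beta k b = 0 := by
  unfold beta
  rw [sum_split e]
  have h1 : ∀ S : Finset (Fin (m + 1)), rkS k b (insert e (S.map (Fin.succAboveEmb e))) =
      rkS k b (S.map (Fin.succAboveEmb e)) + 1 := by
    intro S
    rw [rkS_map]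
    unfold rkS
    rw [span_insert', Submodule.finrank_sup_span_singleton]
    intro h
    refine he (Submodule.span_mono ?_ h)
    exact Set.image_subset_range _ _
  have h2 : ∀ S : Finset (Fin (m + 1)),
      ((-1 : ℤ) ^ (S.map (Fin.succAboveEmb e)).card * (rkS k b (S.map (Fin.succAboveEmb e)) : ℤ) +
      (-1) ^ (insert e (S.map (Fin.succAboveEmb e))).card *
        (rkS k b (insert e (S.map (Fin.succAboveEmb e))) : ℤ)) = -(-1) ^ S.card := by
    intro S
    rw [h1, card_insert_of_notMem (not_mem_map e S), card_map, pow_succ]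
    push_cast
    ring
  simp only [h2, Finset.sum_neg_distrib]
  have h3 : ∑ S : Finset (Fin (m + 1)), (-1 : ℤ) ^ S.card = 0 := by
    rw [← Finset.powerset_univ, Finset.sum_powerset_neg_one_pow_card_of_nonempty]
    exact univ_nonempty
  rw [h3, neg_zero, mul_zero]

/-- contraction and ranks -/
theorem finrank_map_mkQ (U : Submodule k V) {v : V} (hv : v ≠ 0) :
    finrank k (U ⊔ (k ∙ v) : Submodule k V) = finrank k (U.map (Submodule.mkQ (k ∙ v))) + 1 := by
  set W := U ⊔ (k ∙ v) with hW
  have h1 : W.map (Submodule.mkQ (k ∙ v)) = U.map (Submodule.mkQ (k ∙ v)) := by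
    rw [hW, Submodule.map_sup]
    have : (k ∙ v).map (Submodule.mkQ (k ∙ v)) = ⊥ := by
      rw [Submodule.mkQ_map_self]
    rw [this, sup_bot_eq]
  have h2 := LinearMap.finrank_range_add_finrank_ker ((Submodule.mkQ (k ∙ v)).domRestrict W)
  rw [LinearMap.range_domRestrict, h1, LinearMap.ker_domRestrict, Submodule.ker_mkQ] at h2
  have h3 : finrank k ((k ∙ v).comap W.subtype) = 1 := by
    rw [← finrank_span_singleton (K := k) hv]
    exact (Submodule.comapSubtypeEquivOfLe (le_sup_right : (k ∙ v) ≤ W)).finrank_eq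
  rw [h3] at h2
  exact h2.symm

/-- deletion and contraction -/
theorem beta_rec (e : Fin (m + 2)) (b : Fin (m + 2) → V) (h0 : b e ≠ 0)
    (he : b e ∈ Submodule.span k (Set.range fun i => b (e.succAbove i))) :
    beta k b = beta k (fun i => b (e.succAbove i)) +
      beta k (fun i => (Submodule.Quotient.mk (b (e.succAbove i)) : V ⧸ (k ∙ b e))) := by
  set b' : Fin (m + 1) → V := fun i => b (e.succAbove i) with hb'
  have h1 : ∀ S : Finset (Fin (m + 1)), rkS k b (insert e (S.map (Fin.succAboveEmb e))) =
      rkS k (fun i => (Submodule.Quotient.mk (b' i) : V ⧸ (k ∙ b e))) S + 1 := by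
    intro S
    unfold rkS
    rw [span_insert', finrank_map_mkQ _ h0, Submodule.map_span, ← Set.image_comp]
    rfl
  have hu : rkS k b univ = rkS k b' univ := by
    rw [univ_eq e]
    unfold rkS
    rw [span_insert']
    rw [sup_eq_left.2]
    rw [Submodule.span_singleton_le_iff_mem, Finset.coe_univ, Set.image_univ]
    exact he
  have hu2 : rkS k b univ =
      rkS k (fun i => (Submodule.Quotient.mk (b' i) : V ⧸ (k ∙ b e))) univ + 1 := by
    rw [← h1, ← univ_eq]
  unfold beta
  rw [sum_split e, Finset.sum_add_distrib]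
  have h2 : ∑ S : Finset (Fin (m + 1)), ((-1 : ℤ) ^ (S.map (Fin.succAboveEmb e)).card *
      (rkS k b (S.map (Fin.succAboveEmb e)) : ℤ)) =
      ∑ S : Finset (Fin (m + 1)), (-1) ^ S.card * (rkS k b' S : ℤ) := by
    refine Finset.sum_congr rfl fun S _ => ?_
    rw [card_map, rkS_map]
  have h3 : ∑ S : Finset (Fin (m + 1)), (-1 : ℤ) ^ S.card = 0 := by
    rw [← Finset.powerset_univ, Finset.sum_powerset_neg_one_pow_card_of_nonempty]
    exact univ_nonempty
  have h4 : ∑ S : Finset (Fin (m + 1)), ((-1 : ℤ) ^ (insert e (S.map (Fin.succAboveEmb e))).card *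
      (rkS k b (insert e (S.map (Fin.succAboveEmb e))) : ℤ)) =
      - ∑ S : Finset (Fin (m + 1)), (-1) ^ S.card *
        (rkS k (fun i => (Submodule.Quotient.mk (b' i) : V ⧸ (k ∙ b e))) S : ℤ) := by
    have : ∀ S : Finset (Fin (m + 1)),
        ((-1 : ℤ) ^ (insert e (S.map (Fin.succAboveEmb e))).card *
      (rkS k b (insert e (S.map (Fin.succAboveEmb e))) : ℤ)) = - ((-1) ^ S.card *
        (rkS k (fun i => (Submodule.Quotient.mk (b' i) : V ⧸ (k ∙ b e))) S : ℤ)) -
          (-1) ^ S.card := by
      intro S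
      rw [h1, card_insert_of_notMem (not_mem_map e S), card_map, pow_succ]
      push_cast
      ring
    rw [Finset.sum_congr rfl fun S _ => this S, Finset.sum_sub_distrib, h3, sub_zero,
      Finset.sum_neg_distrib]
  rw [h2, h4]
  have h5 : ((-1 : ℤ)) ^ rkS k b univ = -(-1) ^
      rkS k (fun i => (Submodule.Quotient.mk (b' i) : V ⧸ (k ∙ b e))) univ := by
    rw [hu2, pow_succ]; ring
  rw [mul_add]
  congr 1
  · rw [hu]
  · rw [h5]; ring

end Pool.Agent.H94rl
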