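import Pool.Agent.H94_rl.Count

/-! Connected families have positive beta invariant. -/

open Module Finset

namespace Pool.Agent.H94rl

variable {k : Type} [Field k]

/-- connectivity of the matroid of a family of vectors -/
def Conn (k : Type) [Field k] {V : Type} [AddCommGroup V] [Module k V] {κ : Type} [Fintype κ]
    [DecidableEq κ] (b : κ → V) : Prop :=
  ∀ S : Finset κ, S.Nonempty → Sᶜ.Nonempty → rkS k b univ < rkS k b S + rkS k b Sᶜ

variable {V : Type} [AddCommGroup V] [Module k V] [FiniteDimensional k V]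

theorem rkS_mono {κ : Type} (b : κ → V) {S T : Finset κ} (h : S ⊆ T) : rkS k b S ≤ rkS k b T := by
  unfold rkS
  exact Submodule.finrank_mono (Submodule.span_mono (Set.image_mono (Finset.coe_subset.2 h)))

theorem rkS_submod {κ : Type} [DecidableEq κ] (b : κ → V) (S T : Finset κ) :
    rkS k b (S ∪ T) + rkS k b (S ∩ T) ≤ rkS k b S + rkS k b T := by
  unfold rkS
  rw [coe_union, Set.image_union, Submodule.span_union]
  rw [← Submodule.finrank_sup_add_finrank_inf_eq (Submodule.span k (b '' (S : Set κ)))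
    (Submodule.span k (b '' (T : Set κ)))]
  refine Nat.add_le_add_left ?_ _
  refine Submodule.finrank_mono (le_inf ?_ ?_)
  · exact Submodule.span_mono (Set.image_mono (Finset.coe_subset.2 inter_subset_left))
  · exact Submodule.span_mono (Set.image_mono (Finset.coe_subset.2 inter_subset_right))

variable {m : ℕ}

theorem compl_map (e : Fin (m + 1)) (S : Finset (Fin m)) :
    (S.map (Fin.succAboveEmb e))ᶜ = insert e (Sᶜ.map (Fin.succAboveEmb e)) := by
  ext i
  rcases Fin.eq_self_or_eq_succAbove e i with rfl | ⟨j, rfl⟩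
  · simp [Fin.succAbove_ne]
  · simp [Fin.succAbove_ne]

theorem Conn.ne_zero {b : Fin (m + 2) → V} (h : Conn k b) (e : Fin (m + 2)) : b e ≠ 0 := by
  intro he
  have h1 := h {e} (singleton_nonempty e) (by
    rw [← card_pos, card_compl, card_singleton, Fintype.card_fin]; omega)
  have h2 : rkS k b {e} = 0 := by
    unfold rkS
    rw [coe_singleton, Set.image_singleton, he, Submodule.span_zero_singleton, finrank_bot]
  have h3 := rkS_mono (k := k) b (subset_univ ({e}ᶜ : Finset (Fin (m + 2))))
  omega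

theorem Conn.mem_span {b : Fin (m + 2) → V} (h : Conn k b) (e : Fin (m + 2)) :
    b e ∈ Submodule.span k (Set.range fun i => b (e.succAbove i)) := by
  by_contra he
  have h1 := h (univ.map (Fin.succAboveEmb e)) (by simp) (by
    rw [compl_map]; exact insert_nonempty _ _)
  have h2 : rkS k b (univ.map (Fin.succAboveEmb e))ᶜ = 1 := by
    rw [compl_map, compl_univ, map_empty]
    unfold rkS
    rw [coe_insert, coe_empty, insert_empty_eq, Set.image_singleton,
      finrank_span_singleton (h.ne_zero e)]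
  have h3 : rkS k b univ = rkS k b (univ.map (Fin.succAboveEmb e)) + 1 := by
    conv_lhs => rw [univ_eq e]
    rw [rkS_map]
    unfold rkS
    rw [span_insert', Submodule.finrank_sup_span_singleton]
    rw [coe_univ, Set.image_univ]
    exact he
  omega

/-- Tutte: deletion or contraction preserves connectivity. -/
theorem Conn.minor {b : Fin (m + 2) → V} (h : Conn k b) (e : Fin (m + 2)) :
    Conn k (fun i => b (e.succAbove i)) ∨
      Conn k (fun i => (Submodule.Quotient.mk (b (e.succAbove i)) : V ⧸ (k ∙ b e))) := by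
  by_contra hcon
  rw [not_or] at hcon
  obtain ⟨h1, h2⟩ := hcon
  unfold Conn at h1 h2
  push Not at h1 h2
  obtain ⟨A, hA, hA', hA2⟩ := h1
  obtain ⟨B, hB, hB', hB2⟩ := h2
  have he := h.ne_zero e
  have hc : ∀ S : Finset (Fin (m + 1)), rkS k b (insert e (S.map (Fin.succAboveEmb e))) =
      rkS k (fun i => (Submodule.Quotient.mk (b (e.succAbove i)) : V ⧸ (k ∙ b e))) S + 1 := by
    intro S
    unfold rkS
    rw [span_insert', finrank_map_mkQ _ he, Submodule.map_span, ← Set.image_comp]
    rfl
  have hu : rkS k b univ = rkS k (fun i => b (e.succAbove i)) univ := by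
    conv_lhs => rw [univ_eq e]
    unfold rkS
    rw [span_insert', sup_eq_left.2]
    rw [Submodule.span_singleton_le_iff_mem, Finset.coe_univ, Set.image_univ]
    exact h.mem_span e
  have hu2 := hc univ
  rw [← univ_eq] at hu2
  have hc1 := hc B
  have hc2 := hc Bᶜ
  rw [← rkS_map, ← rkS_map, ← hu] at hA2
  -- four pieces
  have key : ∀ X Y : Finset (Fin (m + 1)), (X ∩ Y).Nonempty → (Xᶜ ∩ Yᶜ).Nonempty →
      2 * rkS k b univ + 2 ≤ rkS k b (X.map (Fin.succAboveEmb e)) +
        rkS k b (insert e (Y.map (Fin.succAboveEmb e))) +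
        (rkS k b (Xᶜ.map (Fin.succAboveEmb e)) +
        rkS k b (insert e (Yᶜ.map (Fin.succAboveEmb e)))) := by
    intro X Y h3 h4
    have s1 := rkS_submod (k := k) b (X.map (Fin.succAboveEmb e))
      (insert e (Y.map (Fin.succAboveEmb e)))
    have s2 := rkS_submod (k := k) b (Xᶜ.map (Fin.succAboveEmb e))
      (insert e (Yᶜ.map (Fin.succAboveEmb e)))
    have i1 : X.map (Fin.succAboveEmb e) ∩ insert e (Y.map (Fin.succAboveEmb e)) =
        (X ∩ Y).map (Fin.succAboveEmb e) := by
      rw [inter_insert_of_notMem (not_mem_map e X), map_inter]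
    have i2 : Xᶜ.map (Fin.succAboveEmb e) ∩ insert e (Yᶜ.map (Fin.succAboveEmb e)) =
        (Xᶜ ∩ Yᶜ).map (Fin.succAboveEmb e) := by
      rw [inter_insert_of_notMem (not_mem_map e Xᶜ), map_inter]
    have u1 : X.map (Fin.succAboveEmb e) ∪ insert e (Y.map (Fin.succAboveEmb e)) =
        ((Xᶜ ∩ Yᶜ).map (Fin.succAboveEmb e))ᶜ := by
      rw [compl_map, union_insert, ← map_union, compl_inter, compl_compl, compl_compl]
    have u2 : Xᶜ.map (Fin.succAboveEmb e) ∪ insert e (Yᶜ.map (Fin.succAboveEmb e)) =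
        ((X ∩ Y).map (Fin.succAboveEmb e))ᶜ := by
      rw [compl_map, union_insert, ← map_union, compl_inter]
    rw [i1, u1] at s1
    rw [i2, u2] at s2
    have c1 := h ((X ∩ Y).map (Fin.succAboveEmb e)) (h3.map) (by
      rw [compl_map]; exact insert_nonempty _ _)
    have c2 := h ((Xᶜ ∩ Yᶜ).map (Fin.succAboveEmb e)) (h4.map) (by
      rw [compl_map]; exact insert_nonempty _ _)
    omega
  have key1 := key A B
  have key2 := key A Bᶜ
  rw [compl_compl] at key2
  have d1 : ¬ (A ∩ B).Nonempty ∨ ¬ (Aᶜ ∩ Bᶜ).Nonempty := by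
    by_contra hd
    push Not at hd
    have := key1 (by simpa [nonempty_iff_ne_empty] using hd.1)
      (by simpa [nonempty_iff_ne_empty] using hd.2)
    omega
  have d2 : ¬ (A ∩ Bᶜ).Nonempty ∨ ¬ (Aᶜ ∩ B).Nonempty := by
    by_contra hd
    push Not at hd
    have := key2 (by simpa [nonempty_iff_ne_empty] using hd.1)
      (by simpa [nonempty_iff_ne_empty] using hd.2)
    omega
  obtain ⟨x, hx⟩ := hA
  obtain ⟨y, hy⟩ := hA'
  obtain ⟨z, hz⟩ := hB
  obtain ⟨t, ht⟩ := hB'
  have mm : ∀ {s1 s2 : Finset (Fin (m + 1))} {u : Fin (m + 1)}, ¬ (s1 ∩ s2).Nonempty → u ∈ s1 →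
      u ∉ s2 := fun h3 h4 h5 => h3 ⟨_, mem_inter.2 ⟨h4, h5⟩⟩
  simp only [mem_compl] at hy ht
  rcases d1 with d1 | d1 <;> rcases d2 with d2 | d2
  · have a1 := mm d1 hx
    have a2 := mm d2 hx
    simp only [mem_compl, not_not] at a2
    exact a1 a2
  · by_cases h5 : z ∈ A
    · exact mm d1 h5 hz
    · exact mm d2 (mem_compl.2 h5) hz
  · by_cases h5 : t ∈ A
    · exact mm d2 h5 (mem_compl.2 ht)
    · exact mm d1 (mem_compl.2 h5) (mem_compl.2 ht)
  · have a1 := mm d1 (mem_compl.2 hy)
    have a2 := mm d2 (mem_compl.2 hy)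
    simp only [mem_compl, not_not] at a1
    exact a2 a1

theorem beta_one (b : Fin 1 → V) (h0 : b 0 ≠ 0) : beta k b = 1 := by
  have : b = Fin.cons (b 0) (fun i : Fin 0 => i.elim0) := by
    funext i
    rw [Subsingleton.elim i 0]; rfl
  rw [this]
  exact beta_base _ h0

theorem beta_nonneg (m : ℕ) : ∀ (V : Type) [AddCommGroup V] [Module k V] [FiniteDimensional k V]
    (b : Fin (m + 1) → V), 0 ≤ beta k b := by
  induction m with
  | zero =>
    intro V _ _ _ b
    by_cases h : b 0 = 0
    · rw [beta_loop 0 b h]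
    · rw [beta_one b h]; norm_num
  | succ m ih =>
    intro V _ _ _ b
    by_cases h : b 0 = 0
    · rw [beta_loop 0 b h]
    by_cases h2 : b 0 ∈ Submodule.span k (Set.range fun i => b ((0 : Fin (m + 2)).succAbove i))
    · rw [beta_rec 0 b h h2]
      exact add_nonneg (ih _ _) (ih _ _)
    · rw [beta_coloop 0 b h2]

theorem beta_pos (m : ℕ) : ∀ (V : Type) [AddCommGroup V] [Module k V] [FiniteDimensional k V]
    (b : Fin (m + 1) → V), b 0 ≠ 0 → Conn k b → 0 < beta k b := by
  induction m with
  | zero =>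
    intro V _ _ _ b h0 _
    rw [beta_one b h0]; norm_num
  | succ m ih =>
    intro V _ _ _ b h0 hc
    rw [beta_rec 1 b (hc.ne_zero 1) (hc.mem_span 1)]
    have hs0 : (1 : Fin (m + 2)).succAbove 0 = 0 := by simp
    rcases hc.minor 1 with h1 | h1
    · exact add_pos_of_pos_of_nonneg (ih _ _ (by
        change b ((1 : Fin (m + 2)).succAbove 0) ≠ 0
        rw [hs0]; exact h0) h1) (beta_nonneg m _ _)
    · cases m with
      | zero =>
        refine add_pos_of_pos_of_nonneg ?_ (beta_nonneg 0 _ _)
        rw [beta_one _ (by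
          change b ((1 : Fin 2).succAbove 0) ≠ 0
          rw [hs0]; exact h0)]
        norm_num
      | succ m =>
        exact add_pos_of_nonneg_of_pos (beta_nonneg _ _ _) (ih _ _ (h1.ne_zero 0) h1)

end Pool.Agent.H94rl
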