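import Pool.Agent.H94_rl.Step
import Pool.Agent.H94_rl.Beta

/-! The generic rank is `2 ^ (r - 1)` times the beta invariant. -/

open MvPolynomial Module

namespace Pool.Agent.H94rl

variable {k : Type} [Field k]

theorem cons_succAbove {W : Type} {n : ℕ} (a0 : W) (a : Fin (n + 1) → W) :
    (fun i => (Fin.cons a0 a : Fin (n + 2) → W) ((1 : Fin (n + 2)).succAbove i)) =
      Fin.cons a0 (fun i => a i.succ) := by
  funext i
  refine Fin.cases ?_ (fun j => ?_) i
  · simp
  · rw [Fin.one_succAbove_succ]
    simp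

theorem base_rank {V : Type} [AddCommGroup V] [Module k V] [FiniteDimensional k V] {a0 : V}
    {a : Fin 0 → V} {A : Type} [CommRing A] [Algebra k A] {w : Fin 0 → A} {x : V →ₗ[k] A}
    (h : IsUniv k a0 a A w x) (h0 : a0 ≠ 0)
    (hspan : Submodule.span k (insert a0 (Set.range a)) = ⊤) :
    rkH (aeval (fun i => w i * x (a i) ^ 2) : MvPolynomial (Fin 0) k →ₐ[k] A).toRingHom = 1 := by
  have hdom : IsDomain A := h.isDomain h0
  set f : MvPolynomial (Fin 0) k →ₐ[k] A := aeval (fun i => w i * x (a i) ^ 2) with hf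
  let _ : Algebra (MvPolynomial (Fin 0) k) A := f.toRingHom.toAlgebra
  have e3 : rkH f.toRingHom = Module.rank (MvPolynomial (Fin 0) k) A :=
    rkH_eq _ (AddEquiv.refl A) fun c a => rfl
  rw [e3]
  have hxk : ∀ v, ∃ c : k, x v = algebraMap k A c := by
    intro v
    have hv : v ∈ Submodule.span k (insert a0 (Set.range a)) := by rw [hspan]; trivial
    rw [Set.range_eq_empty, insert_empty_eq] at hv
    obtain ⟨c, rfl⟩ := Submodule.mem_span_singleton.1 hv
    exact ⟨c, by rw [map_smul, h.x0, Algebra.smul_def, mul_one]⟩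
  have hall : ∀ y : A, ∃ c : k, y = algebraMap k A c := by
    intro y
    have hy : y ∈ Algebra.adjoin k (Set.range w ∪ Set.range x) := by rw [h.gen]; trivial
    have hle : Algebra.adjoin k (Set.range w ∪ Set.range x) ≤ ⊥ := by
      rw [Algebra.adjoin_le_iff]
      rintro _ (⟨i, -⟩ | ⟨v, rfl⟩)
      · exact i.elim0
      · obtain ⟨c, hc⟩ := hxk v
        exact Algebra.mem_bot.2 ⟨c, hc.symm⟩
    obtain ⟨c, hc⟩ := Algebra.mem_bot.1 (hle hy)
    exact ⟨c, hc.symm⟩
  have h1 := rank_eq_of_family (P := MvPolynomial (Fin 0) k) (M := A) (D := 1) (fun _ => 1) ?_ ?_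
  · rw [h1, Nat.cast_one]
  · rw [Fintype.linearIndependent_iff]
    intro g hg i
    rw [Fin.sum_univ_one] at hg
    have h2 : f (g 0) = 0 := by
      have h3 : f (g 0) * 1 = 0 := hg
      rwa [mul_one] at h3
    obtain ⟨c, hc⟩ := C_surjective (Fin 0) (R := k) (g 0)
    rw [← hc, ← MvPolynomial.algebraMap_eq, f.commutes] at h2
    have h3 : c = 0 := by
      by_contra hc0
      exact ((IsUnit.mk0 c hc0).map (algebraMap k A)).ne_zero h2
    rw [Subsingleton.elim i 0, ← hc, h3, map_zero]
  · intro y
    obtain ⟨c, rfl⟩ := hall y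
    refine ⟨1, one_ne_zero, ?_⟩
    rw [one_smul]
    have h2 : algebraMap k A c = (C c : MvPolynomial (Fin 0) k) • (1 : A) := by
      change _ = f (C c) * 1
      rw [mul_one, ← MvPolynomial.algebraMap_eq, f.commutes]
    rw [h2]
    exact Submodule.smul_mem _ _ (Submodule.subset_span ⟨0, rfl⟩)

theorem beta_base {V : Type} [AddCommGroup V] [Module k V] [FiniteDimensional k V] {a0 : V}
    (a : Fin 0 → V) (h0 : a0 ≠ 0) : beta k (Fin.cons a0 a : Fin 1 → V) = 1 := by
  have h1 : rkS k (Fin.cons a0 a : Fin 1 → V) Finset.univ = 1 := by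
    unfold rkS
    rw [Finset.coe_univ, Set.image_univ, Fin.range_cons, Set.range_eq_empty, insert_empty_eq,
      finrank_span_singleton h0]
  have h2 : rkS k (Fin.cons a0 a : Fin 1 → V) ∅ = 0 := by
    unfold rkS; simp
  unfold beta
  rw [sum_split 0, Fintype.sum_unique]
  have hd : (default : Finset (Fin 0)) = ∅ := Subsingleton.elim _ _
  have h3 : (insert (0 : Fin 1) (∅ : Finset (Fin 1))) = Finset.univ := by decide
  rw [hd, Finset.map_empty, h3, h1, h2]
  simp

/-- **The generic rank.** -/
theorem count (n : ℕ) : ∀ (V : Type) [AddCommGroup V] [Module k V] [FiniteDimensional k V]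
    (a0 : V) (a : Fin n → V) (A : Type) [CommRing A] [Algebra k A] (w : Fin n → A)
    (x : V →ₗ[k] A), IsUniv k a0 a A w x → a0 ≠ 0 →
    Submodule.span k (insert a0 (Set.range a)) = ⊤ →
    ∃ D : ℕ, rkH (aeval (fun i => w i * x (a i) ^ 2) : MvPolynomial (Fin n) k →ₐ[k] A).toRingHom =
      D ∧ (D : ℤ) = 2 ^ (finrank k V - 1) * beta k (Fin.cons a0 a : Fin (n + 1) → V) := by
  induction n with
  | zero =>
    intro V _ _ _ a0 a A _ _ w x h h0 hspan
    refine ⟨1, by rw [base_rank h h0 hspan, Nat.cast_one], ?_⟩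
    have h1 : finrank k V = 1 := by
      rw [← finrank_top, ← hspan, Set.range_eq_empty, insert_empty_eq, finrank_span_singleton h0]
    rw [beta_base a h0, h1]
    norm_num
  | succ n ih =>
    intro V _ _ _ a0 a A _ _ w x h h0 hspan
    have hb1 : (Fin.cons a0 a : Fin (n + 2) → V) 1 = a 0 := by
      rw [← Fin.succ_zero_eq_one, Fin.cons_succ]
    have hrange : Set.range (fun i => (Fin.cons a0 a : Fin (n + 2) → V)
        ((1 : Fin (n + 2)).succAbove i)) = insert a0 (Set.range fun i : Fin n => a i.succ) := by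
      rw [cons_succAbove, Fin.range_cons]
    by_cases ha : a 0 = 0
    · -- loop
      refine ⟨0, ?_, ?_⟩
      · rw [Nat.cast_zero]
        refine rkH_eq_zero _ (X 0) (X_ne_zero _) ?_
        change aeval (fun i => w i * x (a i) ^ 2) (X 0) = 0
        rw [aeval_X, ha, map_zero]
        ring
      · rw [beta_loop 1 _ (by rw [hb1, ha])]
        simp
    by_cases hcl : a 0 ∈ Submodule.span k (insert a0 (Set.range fun i : Fin n => a i.succ))
    swap
    · -- coloop
      refine ⟨0, ?_, ?_⟩
      · rw [Nat.cast_zero]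
        refine rkH_eq_zero _ (X 0) (X_ne_zero _) ?_
        change aeval (fun i => w i * x (a i) ^ 2) (X 0) = 0
        rw [aeval_X, h.w_eq_zero hcl, zero_mul]
      · rw [beta_coloop 1 _ (by rw [hb1, hrange]; exact hcl)]
        simp
    have hw : w 0 ≠ 0 := h.w_ne_zero h0 hcl
    have hstep := step h hspan h0 ha hw
    have hspan' : Submodule.span k (insert a0 (Set.range fun i : Fin n => a i.succ)) = ⊤ := by
      rw [eq_top_iff, ← hspan, Submodule.span_le]
      rintro z (rfl | ⟨i, rfl⟩)
      · exact Submodule.subset_span (Or.inl rfl)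
      · refine Fin.cases hcl (fun j => ?_) i
        exact Submodule.subset_span (Or.inr ⟨j, rfl⟩)
    obtain ⟨D1, hD1, hD1'⟩ := ih V a0 (fun i => a i.succ) _ _ _ h.del h0 hspan'
    have hrec := beta_rec (k := k) (1 : Fin (n + 2)) (Fin.cons a0 a : Fin (n + 2) → V)
      (by rw [hb1]; exact ha) (by rw [hb1, hrange]; exact hcl)
    rw [cons_succAbove, hb1] at hrec
    have hq : (fun i => (Submodule.Quotient.mk ((Fin.cons a0 a : Fin (n + 2) → V)
        ((1 : Fin (n + 2)).succAbove i)) : V ⧸ (k ∙ a 0))) =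
        Fin.cons (Submodule.Quotient.mk a0) (fun i : Fin n => Submodule.Quotient.mk (a i.succ)) := by
      have h1 := congrArg (fun g : Fin (n + 1) → V => fun i => (Submodule.Quotient.mk (g i) :
        V ⧸ (k ∙ a 0))) (cons_succAbove a0 a)
      refine h1.trans ?_
      funext i
      refine Fin.cases ?_ (fun j => ?_) i <;> simp
    rw [hq] at hrec
    have hdel : rkH (aeval (fun i : Fin n => Ideal.Quotient.mkₐ k (Ideal.span {w 0})
        (w i.succ * x (a i.succ) ^ 2)) : MvPolynomial (Fin n) k →ₐ[k] _).toRingHom = D1 := by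
      rw [← hD1]
      simp only [map_mul, map_pow]
      rfl
    by_cases hpar : a 0 ∈ (k ∙ a0)
    · -- parallel to `a0`
      refine ⟨D1, ?_, ?_⟩
      · obtain ⟨c, hc⟩ := Submodule.mem_span_singleton.1 hpar
        have hc0 : c ≠ 0 := by
          rintro rfl
          exact ha (by rw [← hc, zero_smul])
        have hun : IsUnit (x (a 0)) := by
          rw [← hc, map_smul, h.x0, Algebra.smul_def, mul_one]
          exact (IsUnit.mk0 c hc0).map _
        have hz : rkH (aeval (fun i : Fin n => Ideal.Quotient.mkₐ k (Ideal.span {x (a 0)})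
            (w i.succ * x (a i.succ) ^ 2)) : MvPolynomial (Fin n) k →ₐ[k] _).toRingHom = 0 := by
          refine rkH_eq_zero _ 1 one_ne_zero ?_
          have : Subsingleton (A ⧸ Ideal.span {x (a 0)}) := by
            rw [Ideal.Quotient.subsingleton_iff, Ideal.span_singleton_eq_top]
            exact hun
          exact Subsingleton.elim _ _
        rw [hstep, hdel, hz, mul_zero, add_zero]
      · have hz : (Submodule.Quotient.mk a0 : V ⧸ (k ∙ a 0)) = 0 := by
          obtain ⟨c, hc⟩ := Submodule.mem_span_singleton.1 hpar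
          have hc0 : c ≠ 0 := by
            rintro rfl
            exact ha (by rw [← hc, zero_smul])
          rw [Submodule.Quotient.mk_eq_zero, Submodule.mem_span_singleton]
          exact ⟨c⁻¹, by rw [← hc, smul_smul, inv_mul_cancel₀ hc0, one_smul]⟩
        rw [hrec, beta_loop 0 (Fin.cons (Submodule.Quotient.mk a0 : V ⧸ (k ∙ a 0))
          (fun i : Fin n => Submodule.Quotient.mk (a i.succ))) (by rw [Fin.cons_zero, hz]),
          add_zero]
        exact hD1'
    · obtain ⟨x', hx', hcon⟩ := h.con hpar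
      have h0' : (Submodule.Quotient.mk a0 : V ⧸ (k ∙ a 0)) ≠ 0 := by
        rw [Ne, Submodule.Quotient.mk_eq_zero]
        intro h1
        obtain ⟨c, hc⟩ := Submodule.mem_span_singleton.1 h1
        have hc0 : c ≠ 0 := by
          rintro rfl
          exact h0 (by rw [← hc, zero_smul])
        exact hpar (Submodule.mem_span_singleton.2
          ⟨c⁻¹, by rw [← hc, smul_smul, inv_mul_cancel₀ hc0, one_smul]⟩)
      have hspan'' : Submodule.span k (insert (Submodule.Quotient.mk a0 : V ⧸ (k ∙ a 0))
          (Set.range fun i : Fin n => Submodule.Quotient.mk (a i.succ))) = ⊤ := by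
        have h1 := congrArg (Submodule.map (Submodule.mkQ (k ∙ a 0))) hspan'
        rw [Submodule.map_top, Submodule.range_mkQ, Submodule.map_span, Set.image_insert_eq,
          ← Set.range_comp] at h1
        exact h1
      obtain ⟨D2, hD2, hD2'⟩ := ih (V ⧸ (k ∙ a 0)) _ _ _ _ _ hcon h0' hspan''
      refine ⟨D1 + 2 * D2, ?_, ?_⟩
      · have hc2 : rkH (aeval (fun i : Fin n => Ideal.Quotient.mkₐ k (Ideal.span {x (a 0)})
            (w i.succ * x (a i.succ) ^ 2)) : MvPolynomial (Fin n) k →ₐ[k] _).toRingHom = D2 := by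
          rw [← hD2]
          simp only [map_mul, map_pow, hx']
        rw [hstep, hdel, hc2]
        push_cast
        rfl
      · have h1 := finrank_map_mkQ (k := k) (⊤ : Submodule k V) ha
        rw [top_sup_eq, finrank_top, Submodule.map_top, Submodule.range_mkQ, finrank_top] at h1
        have h2 : 0 < finrank k (V ⧸ (k ∙ a 0)) := by
          rw [Module.finrank_pos_iff_exists_ne_zero]
          exact ⟨_, h0'⟩
        push_cast
        rw [hrec, hD1', hD2', h1]
        obtain ⟨r, hr⟩ := Nat.exists_eq_succ_of_ne_zero h2.ne'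
        rw [hr]
        simp only [Nat.succ_eq_add_one, Nat.add_sub_cancel, pow_succ]
        ring

end Pool.Agent.H94rl
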