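import Mathlib

/-! Reciprocal linear spaces, dual varieties and the beta invariant: the definitions. -/

open Module MvPolynomial

namespace Pool.Agent.H94rl.Geo

/-- Complex projective `n`-space. -/
abbrev PP (n : ℕ) : Type := Projectivization ℂ (Fin (n + 1) → ℂ)

/-- The polynomial `F` vanishes at (the chosen coordinate vectors of) all points of `S`.  For
homogeneous `F` this does not depend on the choice of the coordinate vectors. -/
def VanishesOn {n : ℕ} (F : MvPolynomial (Fin (n + 1)) ℂ) (S : Set (PP n)) : Prop :=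
  ∀ y ∈ S, eval y.rep F = 0

/-- The Zariski closure of `S`: the common zeros of the homogeneous polynomials vanishing
on `S`. -/
def zariskiClosure {n : ℕ} (S : Set (PP n)) : Set (PP n) :=
  {y | ∀ (F : MvPolynomial (Fin (n + 1)) ℂ) (m : ℕ), F.IsHomogeneous m → VanishesOn F S →
    eval y.rep F = 0}

/-- The linear space `L`: the points `(ℓ_0(t) : ... : ℓ_n(t))`. -/
def linSpace {d n : ℕ} (ℓ : Fin (n + 1) → Dual ℂ (Fin (d + 1) → ℂ)) : Set (PP n) :=
  {x | ∃ t : Fin (d + 1) → ℂ, ∀ i, x.rep i = ℓ i t}

/-- The torus: the points all of whose coordinates are nonzero. -/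
def torus (n : ℕ) : Set (PP n) := {x | ∀ i, x.rep i ≠ 0}

/-- The reciprocal linear space `L⁻¹`: the Zariski closure of the set of the points
`y = (x_0⁻¹ : ... : x_n⁻¹)` with `x` in `L` and in the torus. -/
def recip {d n : ℕ} (ℓ : Fin (n + 1) → Dual ℂ (Fin (d + 1) → ℂ)) : Set (PP n) :=
  zariskiClosure {y | ∃ x ∈ linSpace ℓ ∩ torus n, ∃ c : ℂ, ∀ i, y.rep i = c * (x.rep i)⁻¹}

/-- The tangent space of the closed set `X` at `y` (the linear space of which the embedded
projective tangent space is the projectivisation): the vectors killed by the differentials at `y`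
of all homogeneous polynomials vanishing on `X`. -/
def tangentSpace {n : ℕ} (X : Set (PP n)) (y : PP n) : Submodule ℂ (Fin (n + 1) → ℂ) where
  carrier := {z | ∀ (F : MvPolynomial (Fin (n + 1)) ℂ) (m : ℕ), F.IsHomogeneous m →
    VanishesOn F X → ∑ j, eval y.rep (pderiv j F) * z j = 0}
  add_mem' {z z'} h h' F m hF hX := by
    have h1 : ∑ j, eval y.rep (pderiv j F) * (z + z') j =
        (∑ j, eval y.rep (pderiv j F) * z j) + ∑ j, eval y.rep (pderiv j F) * z' j := by
      rw [← Finset.sum_add_distrib]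
      exact Finset.sum_congr rfl fun j _ => by rw [Pi.add_apply, mul_add]
    rw [h1, h F m hF hX, h' F m hF hX, add_zero]
  zero_mem' F m hF hX := by simp
  smul_mem' c z h F m hF hX := by
    have h1 : ∑ j, eval y.rep (pderiv j F) * (c • z) j =
        c * ∑ j, eval y.rep (pderiv j F) * z j := by
      rw [Finset.mul_sum]
      exact Finset.sum_congr rfl fun j _ => by rw [Pi.smul_apply, smul_eq_mul]; ring
    rw [h1, h F m hF hX, mul_zero]

/-- Smooth points of an irreducible closed set `X`: the points of `X` at which the tangent space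
has the smallest dimension. -/
def IsSmoothPt {n : ℕ} (X : Set (PP n)) (y : PP n) : Prop :=
  y ∈ X ∧ ∀ y' ∈ X, finrank ℂ (tangentSpace X y) ≤ finrank ℂ (tangentSpace X y')

/-- The hyperplane `h_0 z_0 + ... + h_n z_n = 0` is tangent to `X` at `y`: it contains the tangent
space. -/
def IsTangent {n : ℕ} (X : Set (PP n)) (y h : PP n) : Prop :=
  ∀ z ∈ tangentSpace X y, ∑ j, h.rep j * z j = 0

/-- The dual variety of `X`: the closure of the set of the hyperplanes tangent to `X` at some
smooth point. -/
def dualVariety {n : ℕ} (X : Set (PP n)) : Set (PP n) :=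
  zariskiClosure {h | ∃ y, IsSmoothPt X y ∧ IsTangent X y h}

/-- `Y` is an irreducible hypersurface of degree `D`: the zero set of an irreducible homogeneous
polynomial of degree `D`. -/
def IsHypersurfaceOfDegree {n : ℕ} (Y : Set (PP n)) (D : ℕ) : Prop :=
  ∃ Δ : MvPolynomial (Fin (n + 1)) ℂ, Irreducible Δ ∧ Δ.IsHomogeneous D ∧
    Y = {h | eval h.rep Δ = 0}

/-- The rank function of the matroid `M(L)`. -/
noncomputable def rk {d n : ℕ} (ℓ : Fin (n + 1) → Dual ℂ (Fin (d + 1) → ℂ))
    (S : Finset (Fin (n + 1))) : ℕ :=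
  finrank ℂ (Submodule.span ℂ (ℓ '' (S : Set (Fin (n + 1)))))

/-- The matroid `M(L)` is connected: it is not the direct sum of its restrictions to two
complementary nonempty sets. -/
def Connected {d n : ℕ} (ℓ : Fin (n + 1) → Dual ℂ (Fin (d + 1) → ℂ)) : Prop :=
  ∀ S : Finset (Fin (n + 1)), S.Nonempty → Sᶜ.Nonempty →
    rk ℓ Finset.univ < rk ℓ S + rk ℓ Sᶜ

/-- The beta invariant of `M(L)`. -/
noncomputable def betaInv {d n : ℕ} (ℓ : Fin (n + 1) → Dual ℂ (Fin (d + 1) → ℂ)) : ℤ :=
  (-1) ^ rk ℓ Finset.univ * ∑ S : Finset (Fin (n + 1)), (-1) ^ S.card * (rk ℓ S : ℤ)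

end Pool.Agent.H94rl.Geo
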