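import Pool.Agent.H94_rl.Conn

/-! Derivations of the universal algebra and biduality. -/

open Module MvPolynomial

namespace Pool.Agent.H94rl

section

variable {k : Type} [Field k] {V : Type} [AddCommGroup V] [Module k V]
variable {ι : Type} [Fintype ι] {a0 : V} {a : ι → V} {A : Type} [CommRing A] [Algebra k A]
  {w : ι → A} {x : V →ₗ[k] A}

/-- Derivations of the universal algebra with prescribed values. -/
theorem IsUniv.exists_deriv (h : IsUniv k a0 a A w x) (Ω : Type) [CommRing Ω] [Algebra k Ω]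
    [Algebra A Ω] [IsScalarTower k A Ω] (ω : ι → Ω) (ξ : V →ₗ[k] Ω) (hξ : ξ a0 = 0)
    (hω : Rel k a0 a ω) : ∃ δ : Derivation k A Ω, (∀ i, δ (w i) = ω i) ∧ ∀ v, δ (x v) = ξ v := by
  let j : A →ₐ[k] Ω := IsScalarTower.toAlgHom k A Ω
  have hj : ∀ y, j y = algebraMap A Ω y := fun y => rfl
  let x' : V →ₗ[k] TrivSqZeroExt Ω Ω :=
    (TrivSqZeroExt.inlAlgHom k Ω Ω).toLinearMap ∘ₗ j.toLinearMap ∘ₗ x +
      (TrivSqZeroExt.inrHom Ω Ω).restrictScalars k ∘ₗ ξ
  have hx' : ∀ v, x' v = TrivSqZeroExt.inl (algebraMap A Ω (x v)) + TrivSqZeroExt.inr (ξ v) :=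
    fun v => rfl
  obtain ⟨F, hF1, hF2⟩ := h.lift (TrivSqZeroExt Ω Ω)
    (fun i => TrivSqZeroExt.inl (algebraMap A Ω (w i)) + TrivSqZeroExt.inr (ω i)) x'
    (by rw [hx', h.x0, hξ]; simp) (by
      intro φ hφ
      have h1 := congrArg (algebraMap A Ω) (h.rel φ hφ)
      have h2 := hω φ hφ
      rw [map_sum, map_zero] at h1
      ext
      · simp only [TrivSqZeroExt.fst_sum, TrivSqZeroExt.fst_smul, TrivSqZeroExt.fst_add,
          TrivSqZeroExt.fst_inl, TrivSqZeroExt.fst_inr, add_zero, TrivSqZeroExt.fst_zero]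
        rw [← h1]
        refine Finset.sum_congr rfl fun i _ => ?_
        rw [Algebra.smul_def, Algebra.smul_def, map_mul, ← IsScalarTower.algebraMap_apply k A Ω]
      · simp only [TrivSqZeroExt.snd_sum, TrivSqZeroExt.snd_smul, TrivSqZeroExt.snd_add,
          TrivSqZeroExt.snd_inl, TrivSqZeroExt.snd_inr, zero_add, TrivSqZeroExt.snd_zero]
        exact h2)
  have hfst : ∀ y, (F y).fst = algebraMap A Ω y := by
    intro y
    have h1 : (TrivSqZeroExt.fstHom k Ω Ω).comp F = j := by
      apply h.ext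
      · intro i; simp [hF1, hj]
      · intro v; simp [hF2, hx', hj]
    exact DFunLike.congr_fun h1 y
  refine ⟨Derivation.mk' ((TrivSqZeroExt.sndHom Ω Ω).restrictScalars k ∘ₗ F.toLinearMap) ?_,
    ?_, ?_⟩
  · intro y z
    change (F (y * z)).snd = y • (F z).snd + z • (F y).snd
    rw [map_mul, TrivSqZeroExt.snd_mul, hfst, hfst, op_smul_eq_smul, smul_eq_mul, smul_eq_mul,
      Algebra.smul_def (R := A), Algebra.smul_def (R := A)]
  · intro i
    change (F (w i)).snd = ω i
    rw [hF1]; simp
  · intro v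
    change (F (x v)).snd = ξ v
    rw [hF2, hx']; simp

/-- chain rule -/
theorem chain {σ : Type} [Fintype σ] {Ω : Type} [CommRing Ω] [Algebra k Ω] [Algebra A Ω]
    [IsScalarTower k A Ω] (δ : Derivation k A Ω) (u : σ → A) (q : MvPolynomial σ k) :
    δ (aeval u q) = ∑ i, algebraMap A Ω (aeval u (pderiv i q)) * δ (u i) := by
  classical
  induction q using MvPolynomial.induction_on with
  | C c => simp
  | add p q hp hq =>
    rw [map_add, map_add, hp, hq, ← Finset.sum_add_distrib]
    exact Finset.sum_congr rfl fun i _ => by rw [map_add, map_add, map_add]; ring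
  | mul_X p j hp =>
    rw [map_mul, aeval_X, δ.leibniz, hp]
    have h1 : ∀ i, algebraMap A Ω (aeval u (pderiv i (p * X j))) * δ (u i) =
        algebraMap A Ω (u j) * (algebraMap A Ω (aeval u (pderiv i p)) * δ (u i)) +
          (if i = j then algebraMap A Ω (aeval u p) * δ (u j) else 0) := by
      intro i
      rw [pderiv_mul, map_add, map_mul, map_mul, aeval_X, map_add, map_mul, map_mul, add_mul]
      congr 1
      · ring
      · by_cases hij : i = j
        · subst hij; simp
        · rw [pderiv_X_of_ne (Ne.symm hij)]; simp [hij]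
    rw [Finset.sum_congr rfl fun i _ => h1 i, Finset.sum_add_distrib, ← Finset.mul_sum]
    simp only [Finset.sum_ite_eq', Finset.mem_univ, if_true]
    rw [Algebra.smul_def, Algebra.smul_def]
    ring

end

/-- a derivation over `P` vanishes on algebraic elements -/
theorem deriv_zero {P A Ω : Type} [CommRing P] [CommRing A] [Field Ω] [Algebra P A] [Algebra P Ω]
    [Algebra A Ω] [IsScalarTower P A Ω] [CharZero P] [NoZeroDivisors P]
    (hPinj : Function.Injective (algebraMap P A)) (hinj : Function.Injective (algebraMap A Ω))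
    (δ : Derivation P A Ω) (y : A)
    (hy : IsAlgebraic P y) : δ y = 0 := by
  classical
  obtain ⟨g0, hg0, hg0'⟩ := hy
  have hex : ∃ m : ℕ, ∃ g : Polynomial P, g ≠ 0 ∧ Polynomial.aeval y g = 0 ∧ g.natDegree = m :=
    ⟨_, g0, hg0, hg0', rfl⟩
  obtain ⟨g, hg, hgy, hgm⟩ := Nat.find_spec hex
  have hmin : ∀ g' : Polynomial P, g'.natDegree < g.natDegree → Polynomial.aeval y g' = 0 →
      g' = 0 := by
    intro g' h1 h2
    by_contra h3
    exact Nat.find_min hex (hgm ▸ h1) ⟨g', h3, h2, rfl⟩
  by_cases hd : g.natDegree = 0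
  · rw [Polynomial.eq_C_of_natDegree_eq_zero hd, Polynomial.aeval_C] at hgy
    exfalso
    apply hg
    rw [Polynomial.eq_C_of_natDegree_eq_zero hd,
      hPinj (hgy.trans (map_zero (algebraMap P A)).symm), map_zero]
  · have h1 : Polynomial.derivative g ≠ 0 := by
      intro h2
      exact hd (Polynomial.derivative_eq_zero.1 h2)
    have h2 : Polynomial.aeval y (Polynomial.derivative g) ≠ 0 := by
      intro h3
      exact h1 (hmin _ (Polynomial.natDegree_derivative_lt hd) h3)
    have h3 := δ.map_aeval g y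
    rw [hgy, map_zero, Algebra.smul_def] at h3
    exact (mul_eq_zero.1 h3.symm).resolve_left fun h4 => h2 (hinj (by rw [h4, map_zero]))


/-- full linear relations -/
def Full (k : Type) [Field k] {V : Type} [AddCommGroup V] [Module k V] {ι : Type} [Fintype ι]
    (b : ι → V) {B : Type} [CommRing B] [Algebra k B] (ww : ι → B) : Prop :=
  ∀ φ : Dual k V, ∑ i, φ (b i) • ww i = 0

section bidual

variable {k : Type} [Field k] {V : Type} [AddCommGroup V] [Module k V] [FiniteDimensional k V]
variable {n : ℕ} {b : Fin (n + 1) → V} {A : Type} [CommRing A] [Algebra k A]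
  {ww : Fin (n + 1) → A} {x : V →ₗ[k] A}

/-- full relations and functionals with values in an algebra -/
theorem Full.apply {B : Type} [CommRing B] [Algebra k B] {ww : Fin (n + 1) → B}
    (h : Full k b ww) (Z : V →ₗ[k] B) : ∑ i, Z (b i) * ww i = 0 := by
  set e := finBasis k V with he
  have h1 : ∀ v, Z v = ∑ j, e.repr v j • Z (e j) := by
    intro v
    conv_lhs => rw [← e.sum_repr v]
    rw [map_sum]; simp only [map_smul]
  have h2 : ∀ i, Z (b i) * ww i = ∑ j, Z (e j) * ((e.coord j) (b i) • ww i) := by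
    intro i
    rw [h1, Finset.sum_mul]
    refine Finset.sum_congr rfl fun j _ => ?_
    rw [Basis.coord_apply, smul_mul_assoc, mul_smul_comm]
  rw [Finset.sum_congr rfl fun i _ => h2 i, Finset.sum_comm]
  refine Finset.sum_eq_zero fun j _ => ?_
  rw [← Finset.mul_sum, h (e.coord j), mul_zero]

omit [FiniteDimensional k V] in
/-- functionals from relations -/
theorem exists_functional (hspan : Submodule.span k (Set.range b) = ⊤) {M : Type}
    [AddCommGroup M] [Module k M] (z : Fin (n + 1) → M)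
    (hz : ∀ c : Fin (n + 1) → k, ∑ i, c i • b i = 0 → ∑ i, c i • z i = 0) :
    ∃ Z : V →ₗ[k] M, ∀ i, Z (b i) = z i := by
  classical
  set T := Fintype.linearCombination k b with hT
  set g := Fintype.linearCombination k z with hg
  have hTs : LinearMap.range T = ⊤ := by rw [hT, Fintype.range_linearCombination, hspan]
  obtain ⟨s, hs⟩ := T.exists_rightInverse_of_surjective hTs
  refine ⟨g ∘ₗ s, fun i => ?_⟩
  have h1 : T (s (b i) - Pi.single i 1) = 0 := by
    have h2 : T (s (b i)) = b i := LinearMap.congr_fun hs (b i)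
    rw [map_sub, h2, hT, Fintype.linearCombination_apply_single, one_smul, sub_self]
  have h3 : g (s (b i) - Pi.single i 1) = 0 := by
    rw [hg, Fintype.linearCombination_apply]
    apply hz
    rw [hT, Fintype.linearCombination_apply] at h1
    exact h1
  rw [map_sub, sub_eq_zero] at h3
  rw [LinearMap.comp_apply, h3, hg, Fintype.linearCombination_apply_single, one_smul]

omit [FiniteDimensional k V] in
theorem IsUniv.exists_deriv_full (h : IsUniv k (b 0) (fun i : Fin n => b i.succ) A
      (fun i : Fin n => ww i.succ) x) (hf : Full k b ww) (hb0 : b 0 ≠ 0)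
    (Ω : Type) [CommRing Ω] [Algebra k Ω]
    [Algebra A Ω] [IsScalarTower k A Ω] (ω : Fin (n + 1) → Ω) (ξ : V →ₗ[k] Ω)
    (hξ : ξ (b 0) = 0) (hω : Full k b ω) :
    ∃ δ : Derivation k A Ω, (∀ i, δ (ww i) = ω i) ∧ ∀ v, δ (x v) = ξ v := by
  obtain ⟨δ, h1, h2⟩ := h.exists_deriv Ω (fun i => ω i.succ) ξ hξ (by
    intro φ hφ
    have h3 := hω φ
    rw [Fin.sum_univ_succ, hφ, zero_smul, zero_add] at h3
    exact h3)
  refine ⟨δ, fun i => ?_, h2⟩
  refine Fin.cases ?_ h1 i
  obtain ⟨ζ, hζ, -⟩ := exists_dual_one (k := k) (Z := ⊥) (v := b 0) (by simpa using hb0)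
  have h3 := hω ζ
  have h4 := congrArg δ (hf ζ)
  rw [Fin.sum_univ_succ, hζ, one_smul] at h3
  rw [Fin.sum_univ_succ, hζ, one_smul, map_add, map_sum, map_zero] at h4
  have h5 : ∀ i : Fin n, δ (ζ (b i.succ) • ww i.succ) = ζ (b i.succ) • ω i.succ := by
    intro i; rw [δ.map_smul, h1]
  rw [Finset.sum_congr rfl fun i _ => h5 i] at h4
  exact add_right_cancel (h4.trans h3.symm)

/-- Biduality: the point is recovered from the gradient of the discriminant. -/
theorem bidual [CharZero k] (h : IsUniv k (b 0) (fun i : Fin n => b i.succ) A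
      (fun i : Fin n => ww i.succ) x) (hf : Full k b ww)
    (hb : ∀ i, b i ≠ 0) (hspan : Submodule.span k (Set.range b) = ⊤)
    (Ω : Type) [Field Ω] [Algebra k Ω] [Algebra A Ω] [IsScalarTower k A Ω]
    (hAΩ : Function.Injective (algebraMap A Ω))
    (hP : Function.Injective
      (aeval (fun i : Fin n => ww i.succ * x (b i.succ) ^ 2) : MvPolynomial (Fin n) k →ₐ[k] A))
    (halg : ∀ y : A, ∃ g : Polynomial (MvPolynomial (Fin n) k), g ≠ 0 ∧
      g.eval₂ (aeval (fun i : Fin n => ww i.succ * x (b i.succ) ^ 2) :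
        MvPolynomial (Fin n) k →ₐ[k] A).toRingHom y = 0)
    (Δ : MvPolynomial (Fin (n + 1)) k) (hΔ : aeval (fun i => ww i * x (b i) ^ 2) Δ = 0)
    (hne : ∃ i, aeval (fun i => ww i * x (b i) ^ 2) (pderiv i Δ) ≠ 0) :
    aeval (fun i => ww i * x (b i) ^ 2) (pderiv 0 Δ) ≠ 0 ∧
    ∀ i, aeval (fun i => ww i * x (b i) ^ 2) (pderiv i Δ) * x (b i) =
      aeval (fun i => ww i * x (b i) ^ 2) (pderiv 0 Δ) := by
  have hxb : ∀ i, x (b i) ≠ 0 := fun i => h.x_ne_zero (hb 0) (hb i)
  set u : Fin (n + 1) → A := fun i => ww i * x (b i) ^ 2 with hu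
  set G : Fin (n + 1) → A := fun i => aeval u (pderiv i Δ) with hG
  set al := algebraMap A Ω with hal
  have hxΩ : ∀ i, al (x (b i)) ≠ 0 := fun i h1 => hxb i (hAΩ (by rw [h1, map_zero]))
  let xΩ : V →ₗ[k] Ω := (IsScalarTower.toAlgHom k A Ω).toLinearMap ∘ₗ x
  have hxΩ' : ∀ v, xΩ v = al (x v) := fun v => rfl
  have hx0 : x (b 0) = 1 := h.x0
  set z : Fin (n + 1) → Ω := fun i => al (G i * x (b i) ^ 2) with hz
  have hδu : ∀ (δ : Derivation k A Ω) i, δ (u i) =
      al (ww i) * (2 * al (x (b i)) * δ (x (b i))) + al (x (b i)) ^ 2 * δ (ww i) := by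
    intro δ i
    rw [hu]
    simp only
    rw [δ.leibniz, δ.leibniz_pow, nsmul_eq_mul, Algebra.smul_def (R := A) (ww i),
      Algebra.smul_def (R := A) (x (b i) ^ 2), Algebra.smul_def (R := A)]
    simp only [map_pow, Nat.add_one_sub_one, pow_one, ← hal]
    push_cast
    ring
  -- the functional
  obtain ⟨Z, hZ⟩ := exists_functional hspan z (by
    intro c hc
    obtain ⟨δ, h1, h2⟩ := h.exists_deriv_full hf (hb 0) Ω (fun i => algebraMap k Ω (c i)) 0 rfl (by
      intro φ
      have h3 := congrArg φ hc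
      rw [map_sum, map_zero] at h3
      simp only [map_smul, smul_eq_mul] at h3
      have h4 := congrArg (algebraMap k Ω) h3
      rw [map_sum, map_zero] at h4
      rw [← h4]
      refine Finset.sum_congr rfl fun i _ => ?_
      rw [Algebra.smul_def, map_mul, mul_comm])
    have h5 := chain δ u Δ
    rw [hΔ, map_zero] at h5
    rw [h5]
    refine Finset.sum_congr rfl fun i _ => ?_
    rw [hδu, h1, h2, hz, Algebra.smul_def]
    simp only [LinearMap.zero_apply, mul_zero, zero_add, map_mul, map_pow, ← hal]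
    rw [hG]
    ring)
  set τ : Fin (n + 1) → Ω := fun i => al (G i * x (b i) * ww i) with hτ
  have hZww : ∑ i, z i * al (ww i) = 0 := by
    have h1 : Full k b (fun i => al (ww i)) := by
      intro φ
      have h2 := congrArg al (hf φ)
      rw [map_sum, map_zero] at h2
      rw [← h2]
      refine Finset.sum_congr rfl fun i _ => ?_
      rw [Algebra.smul_def, Algebra.smul_def, map_mul, IsScalarTower.algebraMap_apply k A Ω]
    have h2 := h1.apply Z
    simp only [hZ] at h2
    exact h2
  have hτ0 : ∀ ξ : V →ₗ[k] Ω, ξ (b 0) = 0 → ∑ i, τ i * ξ (b i) = 0 := by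
    intro ξ hξ
    obtain ⟨δ, h1, h2⟩ := h.exists_deriv_full hf (hb 0) Ω 0 ξ hξ (by
      intro φ; simp)
    have h5 := chain δ u Δ
    rw [hΔ, map_zero] at h5
    have h6 : (0 : Ω) = 2 * ∑ i, τ i * ξ (b i) := by
      rw [h5, Finset.mul_sum]
      refine Finset.sum_congr rfl fun i _ => ?_
      rw [hδu, h1, h2, hτ]
      simp only [Pi.zero_apply, mul_zero, add_zero, map_mul, ← hal]
      rw [hG]
      ring
    have hchar : CharZero Ω := charZero_of_injective_algebraMap (algebraMap k Ω).injective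
    exact (mul_eq_zero.1 h6.symm).resolve_left two_ne_zero
  have hτall : ∀ ξ : V →ₗ[k] Ω, ∑ i, τ i * ξ (b i) = 0 := by
    intro ξ
    have h1 := hτ0 (ξ - (LinearMap.mulLeft k (ξ (b 0))) ∘ₗ xΩ) (by
      rw [LinearMap.sub_apply, LinearMap.comp_apply, hxΩ', hx0, map_one,
        LinearMap.mulLeft_apply, mul_one, sub_self])
    simp only [LinearMap.sub_apply, LinearMap.comp_apply, LinearMap.mulLeft_apply, mul_sub,
      Finset.sum_sub_distrib] at h1
    have h2 : ∑ i, τ i * (ξ (b 0) * xΩ (b i)) = ξ (b 0) * ∑ i, z i * al (ww i) := by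
      rw [Finset.mul_sum]
      refine Finset.sum_congr rfl fun i _ => ?_
      rw [hτ, hz, hxΩ']
      simp only [map_mul, map_pow]
      ring
    rw [h2, hZww, mul_zero, sub_zero] at h1
    exact h1
  -- the derivation
  set ξ : V →ₗ[k] Ω := Z - (LinearMap.mulLeft k (z 0)) ∘ₗ xΩ with hξ
  have hξi : ∀ i, ξ (b i) = z i - z 0 * al (x (b i)) := by
    intro i
    rw [hξ, LinearMap.sub_apply, hZ, LinearMap.comp_apply, LinearMap.mulLeft_apply, hxΩ']
  have hξ0 : ξ (b 0) = 0 := by rw [hξi, hx0, map_one, mul_one, sub_self]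
  obtain ⟨δ, h1, h2⟩ := h.exists_deriv_full hf (hb 0) Ω
    (fun i => -2 * (al (ww i) / al (x (b i))) * ξ (b i)) ξ hξ0 (by
      intro φ
      let φΩ : V →ₗ[k] Ω := (Algebra.linearMap k Ω) ∘ₗ φ
      have h3 := hτall φΩ
      have h4 : ∑ i, φ (b i) • al (ww i) = 0 := by
        have h2 := congrArg al (hf φ)
        rw [map_sum, map_zero] at h2
        rw [← h2]
        refine Finset.sum_congr rfl fun i _ => ?_
        rw [Algebra.smul_def, Algebra.smul_def, map_mul, IsScalarTower.algebraMap_apply k A Ω]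
      have h5 : ∀ i, φ (b i) • (-2 * (al (ww i) / al (x (b i))) * ξ (b i)) =
          -2 * (τ i * φΩ (b i)) + 2 * z 0 * (φ (b i) • al (ww i)) := by
        intro i
        have h6 : φΩ (b i) = algebraMap k Ω (φ (b i)) := rfl
        rw [hξi, Algebra.smul_def, Algebra.smul_def, h6, hτ, hz]
        simp only [map_mul, map_pow]
        field_simp [hxΩ i]
        ring
      rw [Finset.sum_congr rfl fun i _ => h5 i, Finset.sum_add_distrib, ← Finset.mul_sum,
        ← Finset.mul_sum, h3, h4, mul_zero, mul_zero, add_zero])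
  have hδ0 : ∀ i, δ (u i) = 0 := by
    intro i
    rw [hδu, h1, h2]
    field_simp [hxΩ i]
    ring
  set f : MvPolynomial (Fin n) k →ₐ[k] A := aeval (fun i : Fin n => ww i.succ * x (b i.succ) ^ 2)
    with hfdef
  have hδP : ∀ c, δ (f c) = 0 := by
    intro c
    rw [hfdef, chain]
    exact Finset.sum_eq_zero fun i _ => by
      have := hδ0 i.succ
      rw [hu] at this
      rw [this, mul_zero]
  have hξz : ∀ i, ξ (b i) = 0 := by
    intro i
    let _ : Algebra (MvPolynomial (Fin n) k) A := f.toRingHom.toAlgebra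
    let _ : Algebra (MvPolynomial (Fin n) k) Ω := (al.comp f.toRingHom).toAlgebra
    have htow : IsScalarTower (MvPolynomial (Fin n) k) A Ω :=
      IsScalarTower.of_algebraMap_eq fun c => rfl
    let δ' : Derivation (MvPolynomial (Fin n) k) A Ω := Derivation.mk'
      { toFun := δ
        map_add' := fun y y' => map_add δ y y'
        map_smul' := fun c y => by
          rw [Algebra.smul_def, δ.leibniz, RingHom.id_apply]
          have h7 : δ (algebraMap (MvPolynomial (Fin n) k) A c) = 0 := hδP c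
          rw [h7, smul_zero, add_zero, algebraMap_smul] }
      (fun y y' => δ.leibniz y y')
    have h8 := deriv_zero hP hAΩ δ' (x (b i)) (by
      obtain ⟨g, hg, hg'⟩ := halg (x (b i))
      exact ⟨g, hg, hg'⟩)
    rw [← h2]
    exact h8
  have hfin : ∀ i, G i * x (b i) = G 0 := by
    intro i
    have h3 := hξz i
    rw [hξi, sub_eq_zero, hz] at h3
    simp only [hx0, one_pow, mul_one] at h3
    rw [← map_mul] at h3
    have h4 := hAΩ h3
    have : IsDomain A := h.isDomain (hb 0)
    refine mul_right_cancel₀ (hxb i) ?_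
    rw [← h4]
    ring
  refine ⟨?_, hfin⟩
  intro h0
  obtain ⟨i, hi⟩ := hne
  have : IsDomain A := h.isDomain (hb 0)
  have h3 : G i * x (b i) = 0 := by rw [hfin i]; exact h0
  exact hi ((mul_eq_zero.1 h3).resolve_right (hxb i))

end bidual

end Pool.Agent.H94rl
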