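import Pool.Agent.H94_rl.Hom

/-! The discriminant polynomial. -/

open Module MvPolynomial IntermediateField

namespace Pool.Agent.H94rl

section

variable {k : Type} [Field k] {V : Type} [AddCommGroup V] [Module k V] [FiniteDimensional k V]
variable {n : ℕ} {b : Fin (n + 1) → V} {A : Type} [CommRing A] [Algebra k A]
  {ww : Fin (n + 1) → A} {x : V →ₗ[k] A}

omit [FiniteDimensional k V] in
theorem aeval_split (hx0 : x (b 0) = 1) [Algebra (MvPolynomial (Fin n) k) A]
    [IsScalarTower k (MvPolynomial (Fin n) k) A]
    (hX : ∀ i, algebraMap (MvPolynomial (Fin n) k) A (X i) = ww i.succ * x (b i.succ) ^ 2)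
    (q : MvPolynomial (Fin (n + 1)) k) :
    aeval (fun i => ww i * x (b i) ^ 2) q = Polynomial.aeval (ww 0) (finSuccEquiv k n q) := by
  have h1 : (aeval (fun i => ww i * x (b i) ^ 2) : MvPolynomial (Fin (n + 1)) k →ₐ[k] A) =
      ((Polynomial.aeval (ww 0) : Polynomial (MvPolynomial (Fin n) k) →ₐ[MvPolynomial (Fin n) k]
        A).restrictScalars k).comp (finSuccEquiv k n).toAlgHom := by
    ext i
    rw [aeval_X, AlgHom.comp_apply]
    refine Fin.cases ?_ (fun j => ?_) i
    · change _ = Polynomial.aeval (ww 0) (finSuccEquiv k n (X 0))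
      rw [finSuccEquiv_X_zero, Polynomial.aeval_X, hx0, one_pow, mul_one]
    · change _ = Polynomial.aeval (ww 0) (finSuccEquiv k n (X j.succ))
      rw [finSuccEquiv_X_succ, Polynomial.aeval_C, hX]
  exact DFunLike.congr_fun h1 q

theorem exists_disc [CharZero k] (h : IsUniv k (b 0) (fun i : Fin n => b i.succ) A
      (fun i : Fin n => ww i.succ) x) (hf : Full k b ww)
    (hb : ∀ i, b i ≠ 0) (hspan : Submodule.span k (Set.range b) = ⊤) (D : ℕ) (hD : 0 < D)
    (hrk : rkH (aeval (fun i : Fin n => ww i.succ * x (b i.succ) ^ 2) :
      MvPolynomial (Fin n) k →ₐ[k] A).toRingHom = D) :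
    ∃ Δ : MvPolynomial (Fin (n + 1)) k, Irreducible Δ ∧ Δ.IsHomogeneous D ∧
      ∀ q, aeval (fun i => ww i * x (b i) ^ 2) q = 0 ↔ Δ ∣ q := by
  classical
  have hdom : IsDomain A := h.isDomain (hb 0)
  set f : MvPolynomial (Fin n) k →ₐ[k] A :=
    aeval (fun i : Fin n => ww i.succ * x (b i.succ) ^ 2) with hfdef
  have hfinj : Function.Injective f := by
    rw [injective_iff_map_eq_zero]
    intro c hc
    by_contra hc0
    have h1 := rkH_eq_zero f.toRingHom c hc0 hc
    rw [hrk] at h1
    have h2 : D = 0 := by exact_mod_cast h1
    omega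
  let _ : Algebra (MvPolynomial (Fin n) k) A := f.toRingHom.toAlgebra
  have hfaith : FaithfulSMul (MvPolynomial (Fin n) k) A :=
    (faithfulSMul_iff_algebraMap_injective _ _).2 hfinj
  have htow : IsScalarTower k (MvPolynomial (Fin n) k) A :=
    IsScalarTower.of_algebraMap_eq fun c => (f.commutes c).symm
  have hX : ∀ i, algebraMap (MvPolynomial (Fin n) k) A (X i) =
      ww i.succ * x (b i.succ) ^ 2 := by
    intro i
    change f (X i) = _
    rw [hfdef, aeval_X]
  have hfaith2 : FaithfulSMul (MvPolynomial (Fin n) k) (FractionRing A) := by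
    rw [faithfulSMul_iff_algebraMap_injective,
      IsScalarTower.algebraMap_eq (MvPolynomial (Fin n) k) A (FractionRing A)]
    exact (IsFractionRing.injective A (FractionRing A)).comp hfinj
  let _ : Algebra (FractionRing (MvPolynomial (Fin n) k)) (FractionRing A) :=
    FractionRing.liftAlgebra (MvPolynomial (Fin n) k) (FractionRing A)
  have htow2 : IsScalarTower (MvPolynomial (Fin n) k) (FractionRing (MvPolynomial (Fin n) k))
    (FractionRing A) := FractionRing.isScalarTower_liftAlgebra _ _
  have hrank : Module.finrank (FractionRing (MvPolynomial (Fin n) k)) (FractionRing A) = D := by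
    rw [IsFractionRing.finrank_eq (MvPolynomial (Fin n) k)
      (FractionRing (MvPolynomial (Fin n) k)) A (FractionRing A), Module.finrank]
    have h1 : Module.rank (MvPolynomial (Fin n) k) A = D := by
      rw [← hrk, ← rkH_algebraMap]
      rfl
    rw [h1, Cardinal.toNat_natCast]
  have hfd : FiniteDimensional (FractionRing (MvPolynomial (Fin n) k)) (FractionRing A) :=
    FiniteDimensional.of_finrank_pos (by rw [hrank]; exact hD)
  have halgb : ∀ y : A, IsAlgebraic (MvPolynomial (Fin n) k) y := by
    intro y
    have h1 : IsAlgebraic (FractionRing (MvPolynomial (Fin n) k)) (algebraMap A (FractionRing A) y) :=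
      Algebra.IsAlgebraic.isAlgebraic _
    rw [← IsFractionRing.isAlgebraic_iff (MvPolynomial (Fin n) k)] at h1
    exact (isAlgebraic_algebraMap_iff (IsFractionRing.injective A (FractionRing A))).1 h1
  -- integrality
  have hint : IsIntegral (MvPolynomial (Fin n) k) (ww 0) := by
    rw [← isIntegral_algebraMap_iff (IsFractionRing.injective A (FractionRing A))]
    refine isIntegral_of_val _ fun O hO => ?_
    refine val_w0 O (fun c => ?_) ((IsScalarTower.toAlgHom k A (FractionRing A)).toLinearMap ∘ₗ x)
      (b 0) (fun i : Fin n => b i.succ) ?_ _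
      (fun i : Fin n => algebraMap A (FractionRing A) (ww i.succ)) ?_ ?_
    · have h1 := hO (C c)
      rw [IsScalarTower.algebraMap_apply (MvPolynomial (Fin n) k) A (FractionRing A)] at h1
      rw [IsScalarTower.algebraMap_apply k A (FractionRing A),
        IsScalarTower.algebraMap_apply k (MvPolynomial (Fin n) k) A]
      exact h1
    · change algebraMap A (FractionRing A) (x (b 0)) = 1
      rw [h.x0, map_one]
    · intro φ
      have h1 := congrArg (algebraMap A (FractionRing A)) (hf φ)
      rw [Fin.sum_univ_succ, map_add, map_sum, map_zero] at h1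
      rw [← h1]
      congr 1
      · rw [Algebra.smul_def, Algebra.smul_def, map_mul, ← IsScalarTower.algebraMap_apply]
      · refine Finset.sum_congr rfl fun i _ => ?_
        rw [Algebra.smul_def, Algebra.smul_def, map_mul, ← IsScalarTower.algebraMap_apply]
    · intro i
      rw [ValuationSubring.valuation_le_one_iff]
      have h1 := hO (X i)
      rw [IsScalarTower.algebraMap_apply (MvPolynomial (Fin n) k) A (FractionRing A), hX,
        map_mul, map_pow] at h1
      exact h1
  set μ := minpoly (MvPolynomial (Fin n) k) (ww 0) with hμ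
  have hμm : μ.Monic := minpoly.monic hint
  set Δ := (finSuccEquiv k n).symm μ with hΔ
  have hΔμ : finSuccEquiv k n Δ = μ := by rw [hΔ, AlgEquiv.apply_symm_apply]
  have hdvd : ∀ q, aeval (fun i => ww i * x (b i) ^ 2) q = 0 ↔ Δ ∣ q := by
    intro q
    rw [aeval_split h.x0 hX, minpoly.isIntegrallyClosed_dvd_iff hint, ← hμ, ← hΔμ]
    exact map_dvd_iff (finSuccEquiv k n)
  have hprime : Prime Δ := by
    have h1 : Prime μ := minpoly.prime_of_isIntegrallyClosed hint
    rw [← hΔμ] at h1
    exact (MulEquiv.prime_iff (finSuccEquiv k n).toMulEquiv).1 h1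
  have hΔ0 : Δ ≠ 0 := hprime.ne_zero
  have hhom : Δ.IsHomogeneous Δ.totalDegree := homogeneous_of_dvd hΔ0 fun j =>
    (hdvd _).1 (h.hom_components hf (hb 0) Δ ((hdvd Δ).2 dvd_rfl) j)
  have hdeg : Δ.totalDegree = μ.natDegree := by
    have h1 : coeff (Finsupp.cons μ.natDegree 0) Δ = 1 := by
      rw [← finSuccEquiv_coeff_coeff, hΔμ, hμm.coeff_natDegree]
      simp
    have h2 := hhom (d := Finsupp.cons μ.natDegree 0) (by rw [h1]; exact one_ne_zero)
    rw [← h2, Finsupp.weight_apply, Finsupp.sum_fintype _ _ (by simp), Fin.sum_univ_succ]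
    simp
  have hdpos : 0 < μ.natDegree := minpoly.natDegree_pos hint
  have hmain := bidual h hf hb hspan (FractionRing A) (IsFractionRing.injective A _) hfinj
    (fun y => by
      obtain ⟨g, hg, hg'⟩ := halgb y
      exact ⟨g, hg, hg'⟩) Δ ((hdvd Δ).2 dvd_rfl) (by
      by_contra hall
      push Not at hall
      have h1 : ∀ i, pderiv i Δ = 0 := by
        intro i
        by_contra h0
        obtain ⟨c, hc⟩ := (hdvd _).1 (hall i)
        have hc0 : c ≠ 0 := by rintro rfl; rw [mul_zero] at hc; exact h0 hc
        have h2 := totalDegree_mul_of_isDomain hΔ0 hc0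
        rw [← hc, (hhom.pderiv (i := i)).totalDegree h0, hdeg] at h2
        omega
      have h2 := hhom.sum_X_mul_pderiv
      rw [Finset.sum_eq_zero fun i _ => by rw [h1 i, mul_zero]] at h2
      have h3 := smul_eq_zero.1 h2.symm
      rcases h3 with h3 | h3
      · rw [hdeg] at h3; omega
      · exact hΔ0 h3)
  obtain ⟨hG0, hGi⟩ := hmain
  refine ⟨Δ, hprime.irreducible, ?_, hdvd⟩
  have hfinal : μ.natDegree = D := by
    have h1 : minpoly (FractionRing (MvPolynomial (Fin n) k)) (algebraMap A (FractionRing A) (ww 0)) =
        μ.map (algebraMap (MvPolynomial (Fin n) k) (FractionRing (MvPolynomial (Fin n) k))) :=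
      minpoly.isIntegrallyClosed_eq_field_fractions _ _ hint
    have h2 := IntermediateField.adjoin.finrank
      (K := FractionRing (MvPolynomial (Fin n) k)) (x := algebraMap A (FractionRing A) (ww 0))
      (Algebra.IsIntegral.isIntegral _)
    rw [h1, Polynomial.natDegree_map_eq_of_injective
      (IsFractionRing.injective (MvPolynomial (Fin n) k)
        (FractionRing (MvPolynomial (Fin n) k)))] at h2
    have hkL : ∀ c : k, algebraMap A (FractionRing A) (algebraMap k A c) ∈
        IntermediateField.adjoin (FractionRing (MvPolynomial (Fin n) k))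
          {algebraMap A (FractionRing A) (ww 0)} := by
      intro c
      rw [IsScalarTower.algebraMap_apply k (MvPolynomial (Fin n) k) A,
        ← IsScalarTower.algebraMap_apply (MvPolynomial (Fin n) k) A (FractionRing A),
        IsScalarTower.algebraMap_apply (MvPolynomial (Fin n) k)
          (FractionRing (MvPolynomial (Fin n) k)) (FractionRing A)]
      exact IntermediateField.algebraMap_mem _ _
    have hqL : ∀ q : MvPolynomial (Fin (n + 1)) k,
        algebraMap A (FractionRing A) (aeval (fun i => ww i * x (b i) ^ 2) q) ∈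
        IntermediateField.adjoin (FractionRing (MvPolynomial (Fin n) k))
          {algebraMap A (FractionRing A) (ww 0)} := by
      intro q
      rw [aeval_split h.x0 hX, ← Polynomial.aeval_algebraMap_apply,
        ← Polynomial.aeval_map_algebraMap (FractionRing (MvPolynomial (Fin n) k))]
      exact IntermediateField.algebra_adjoin_le_adjoin _ _
        (Polynomial.aeval_mem_adjoin_singleton _ _)
    have hinj := IsFractionRing.injective A (FractionRing A)
    have hGne : ∀ i, algebraMap A (FractionRing A)
        (aeval (fun i => ww i * x (b i) ^ 2) (pderiv i Δ)) ≠ 0 := by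
      intro i h0
      have h3 := hGi i
      rw [hinj (h0.trans (map_zero _).symm), zero_mul] at h3
      exact hG0 h3.symm
    have hxbL : ∀ i, algebraMap A (FractionRing A) (x (b i)) ∈
        IntermediateField.adjoin (FractionRing (MvPolynomial (Fin n) k))
          {algebraMap A (FractionRing A) (ww 0)} := by
      intro i
      have h3 := congrArg (algebraMap A (FractionRing A)) (hGi i)
      rw [map_mul, mul_comm, ← eq_div_iff (hGne i)] at h3
      rw [h3]
      exact div_mem (hqL _) (hqL _)
    have hxL : ∀ v, algebraMap A (FractionRing A) (x v) ∈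
        IntermediateField.adjoin (FractionRing (MvPolynomial (Fin n) k))
          {algebraMap A (FractionRing A) (ww 0)} := by
      intro v
      have hv : v ∈ Submodule.span k (Set.range b) := by rw [hspan]; trivial
      induction hv using Submodule.span_induction with
      | mem y hy => obtain ⟨i, rfl⟩ := hy; exact hxbL i
      | zero => rw [map_zero, map_zero]; exact zero_mem _
      | add y z _ _ hy hz => rw [map_add, map_add]; exact add_mem hy hz
      | smul c y _ hy =>
        rw [map_smul, Algebra.smul_def, map_mul]
        exact mul_mem (hkL c) hy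
    have hwL : ∀ i, algebraMap A (FractionRing A) (ww i) ∈
        IntermediateField.adjoin (FractionRing (MvPolynomial (Fin n) k))
          {algebraMap A (FractionRing A) (ww 0)} := by
      intro i
      have h3 := hqL (X i)
      rw [aeval_X, map_mul, map_pow] at h3
      have h4 : algebraMap A (FractionRing A) (x (b i)) ≠ 0 := fun h5 =>
        h.x_ne_zero (hb 0) (hb i) (hinj (h5.trans (map_zero _).symm))
      have h5 := div_mem h3 (pow_mem (hxbL i) 2)
      rwa [mul_div_cancel_right₀ _ (pow_ne_zero 2 h4)] at h5
    have hAL : ∀ y, algebraMap A (FractionRing A) y ∈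
        IntermediateField.adjoin (FractionRing (MvPolynomial (Fin n) k))
          {algebraMap A (FractionRing A) (ww 0)} := by
      intro y
      have hy : y ∈ Algebra.adjoin k (Set.range (fun i : Fin n => ww i.succ) ∪ Set.range x) := by
        rw [h.gen]; trivial
      induction hy using Algebra.adjoin_induction with
      | mem y hy =>
        rcases hy with ⟨i, rfl⟩ | ⟨v, rfl⟩
        · exact hwL _
        · exact hxL v
      | algebraMap c => exact hkL c
      | add y z _ _ hy hz => rw [map_add]; exact add_mem hy hz
      | mul y z _ _ hy hz => rw [map_mul]; exact mul_mem hy hz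
    have htop : IntermediateField.adjoin (FractionRing (MvPolynomial (Fin n) k))
          {algebraMap A (FractionRing A) (ww 0)} = ⊤ := by
      rw [eq_top_iff]
      rintro z -
      obtain ⟨y, s, -, rfl⟩ := IsFractionRing.div_surjective (A := A) z
      exact div_mem (hAL y) (hAL s)
    rw [htop, IntermediateField.finrank_top', hrank] at h2
    exact h2.symm
  rw [← hfinal, ← hdeg]
  exact hhom

end

end Pool.Agent.H94rl
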