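import Mathlib

/-! Ranks and specialisation at a prime element. -/

open Module IsLocalRing

namespace Pool.Agent.H94rl

/-- rank of a module with a linearly independent family which spans up to torsion -/
theorem rank_eq_of_family {P M : Type} [CommRing P] [IsDomain P] [AddCommGroup M] [Module P M]
    {D : ℕ} (v : Fin D → M) (hv : LinearIndependent P v)
    (hs : ∀ m, ∃ c : P, c ≠ 0 ∧ c • m ∈ Submodule.span P (Set.range v)) :
    Module.rank P M = D := by
  have h1 : Module.rank P (Submodule.span P (Set.range v)) = D := by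
    rw [rank_span hv, Cardinal.mk_range_eq _ hv.injective, Cardinal.mk_fin]
  have h2 : Module.rank P (M ⧸ Submodule.span P (Set.range v)) = 0 := by
    rw [rank_eq_zero_iff]
    intro z
    obtain ⟨m, rfl⟩ := Submodule.mkQ_surjective _ z
    obtain ⟨c, hc, hcm⟩ := hs m
    refine ⟨c, hc, ?_⟩
    rw [← map_smul, Submodule.mkQ_apply, Submodule.Quotient.mk_eq_zero]
    exact hcm
  rw [← rank_quotient_add_rank_of_isDomain (Submodule.span P (Set.range v)), h1, h2, zero_add]

theorem rank_specialise {P P' M M' : Type} [CommRing P] [IsDomain P] [IsNoetherianRing P]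
    [CommRing P'] [IsDomain P'] [AddCommGroup M] [Module P M] [AddCommGroup M'] [Module P' M']
    (σ : P →+* P') (hσ : Function.Surjective σ) (ϖ : P) (hϖ : ϖ ≠ 0)
    (hker : ∀ c, σ c = 0 ↔ ϖ ∣ c) (q : M →+ M') (hq : Function.Surjective q)
    (hqs : ∀ c m, q (c • m) = σ c • q m) (hqk : ∀ m, q m = 0 → ∃ m', m = ϖ • m')
    (hinj : ∀ m : M, ϖ • m = 0 → m = 0)
    (𝔭 : Ideal P) [h𝔭 : 𝔭.IsPrime] (hmem : ∀ c, c ∈ 𝔭 ↔ σ c = 0)
    (R : Type) [CommRing R] [Algebra P R] [IsLocalization.AtPrime R 𝔭]
    (N : Type) [AddCommGroup N] [Module P N] [Module R N] [IsScalarTower P R N]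
    (f : M →ₗ[P] N) [IsLocalizedModule 𝔭.primeCompl f] [Module.Finite R N] :
    Module.rank P M = Module.rank P' M' := by
  classical
  have hle : 𝔭.primeCompl ≤ nonZeroDivisors P := by
    intro c hc
    rw [mem_nonZeroDivisors_iff_ne_zero]
    rintro rfl
    exact hc 𝔭.zero_mem
  have hinjR : Function.Injective (algebraMap P R) := IsLocalization.injective R hle
  have : IsDomain R := IsLocalization.isDomain_of_le_nonZeroDivisors R hle
  have : IsNoetherianRing R := IsLocalization.isNoetherianRing 𝔭.primeCompl R inferInstance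
  have : IsLocalRing R := IsLocalization.AtPrime.isLocalRing R 𝔭
  set t : R := algebraMap P R ϖ with ht
  have ht0 : t ≠ 0 := fun h => hϖ (hinjR (by rw [map_zero]; exact h))
  have hmax : maximalIdeal R = Ideal.span {t} := by
    rw [← IsLocalization.AtPrime.map_eq_maximalIdeal 𝔭 R]
    have h1 : 𝔭 = Ideal.span {ϖ} := by
      ext c
      rw [hmem, hker, Ideal.mem_span_singleton]
    rw [h1, Ideal.map_span, Set.image_singleton]
  have hTFAE := tfae_of_isNoetherianRing_of_isLocalRing_of_isDomain (R := R)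
  have hpr : (maximalIdeal R).IsPrincipal := ⟨⟨t, hmax⟩⟩
  have hPIR : IsPrincipalIdealRing R := (hTFAE.out 4 0).1 hpr
  have hpow : ∀ I : Ideal R, I ≠ ⊥ → ∃ n : ℕ, I = maximalIdeal R ^ n := (hTFAE.out 4 6).1 hpr
  -- `t` is injective on `N`
  have hlocinj : ∀ m m' : M, f m = f m' → ∃ s ∈ 𝔭.primeCompl, s • m = s • m' := by
    intro m m' h
    obtain ⟨s, hs⟩ := IsLocalizedModule.exists_of_eq (S := 𝔭.primeCompl) h
    exact ⟨s, s.2, hs⟩
  have hsurj : ∀ y : N, ∃ m : M, ∃ s ∈ 𝔭.primeCompl, s • y = f m := by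
    intro y
    obtain ⟨⟨m, s⟩, hs⟩ := IsLocalizedModule.surj 𝔭.primeCompl f y
    exact ⟨m, s, s.2, hs⟩
  have hunit : ∀ s ∈ 𝔭.primeCompl, IsUnit (algebraMap P R s) :=
    fun s hs => IsLocalization.map_units R (⟨s, hs⟩ : 𝔭.primeCompl)
  have hNt : ∀ y : N, t • y = 0 → y = 0 := by
    intro y hy
    obtain ⟨m, s, hs, hsm⟩ := hsurj y
    have h1 : f (ϖ • m) = f 0 := by
      rw [map_smul, ← hsm, map_zero, smul_comm, ← algebraMap_smul R ϖ y, ← ht, hy, smul_zero]
    obtain ⟨s', hs', h2⟩ := hlocinj _ _ h1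
    rw [smul_zero, smul_comm] at h2
    have h3 := hinj _ h2
    have h4 : algebraMap P R (s' * s) • y = 0 := by
      rw [algebraMap_smul, mul_smul, hsm, ← map_smul, h3, map_zero]
    exact (hunit _ (mul_mem hs' hs)).smul_left_cancel.1 (by rw [h4, smul_zero])
  have hNpow : ∀ (n : ℕ) (y : N), t ^ n • y = 0 → y = 0 := by
    intro n
    induction n with
    | zero => intro y hy; simpa using hy
    | succ n ih =>
      intro y hy
      rw [pow_succ, mul_smul] at hy
      exact hNt _ (ih _ hy)
  have htf : Module.IsTorsionFree R N := by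
    refine ⟨fun r hr => ?_⟩
    have hr0 : r ≠ 0 := hr.ne_zero
    obtain ⟨n, hn⟩ := hpow (Ideal.span {r}) (fun h => hr0 (Ideal.span_singleton_eq_bot.1 h))
    rw [hmax, Ideal.span_singleton_pow] at hn
    have h1 : t ^ n ∈ Ideal.span {r} := by rw [hn]; exact Ideal.mem_span_singleton_self _
    obtain ⟨c, hc⟩ := Ideal.mem_span_singleton'.1 h1
    intro y y' h
    have h2 : r • (y - y') = 0 := by
      rw [smul_sub, sub_eq_zero]; exact h
    have h3 := hNpow n (y - y') (by rw [← hc, mul_smul, h2, smul_zero])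
    exact sub_eq_zero.1 h3
  have hfree : Module.Free R N := inferInstance
  set D := finrank R N with hD
  set b := Module.finBasis R N with hb
  have h1 : Module.rank P M = D := by
    rw [← IsLocalizedModule.rank_eq 𝔭.primeCompl hle f, ← IsLocalization.rank_eq R 𝔭.primeCompl hle,
      hD, Module.finrank_eq_rank]
  choose m s hs hsm using fun j => hsurj (b j)
  have hm : ∀ j, f (m j) = algebraMap P R (s j) • b j := by
    intro j; rw [← hsm j, algebraMap_smul]
  -- the family `f (m j)` is a basis
  have hcoord : ∀ y : N, ∃ r : Fin D → R, y = ∑ j, r j • f (m j) := by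
    intro y
    refine ⟨fun j => b.repr y j * ↑((hunit _ (hs j)).unit⁻¹), ?_⟩
    conv_lhs => rw [← b.sum_repr y]
    refine Finset.sum_congr rfl fun j _ => ?_
    rw [hm, smul_smul, mul_assoc, IsUnit.val_inv_mul, mul_one]
  have hind : ∀ r : Fin D → R, ∑ j, r j • f (m j) = 0 → ∀ j, r j = 0 := by
    intro r hr j
    have h2 : ∑ j, (r j * algebraMap P R (s j)) • b j = 0 := by
      rw [← hr]
      refine Finset.sum_congr rfl fun j _ => ?_
      rw [hm, smul_smul]
    have h3 := Fintype.linearIndependent_iff.1 b.linearIndependent _ h2 j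
    exact (mul_eq_zero.1 h3).resolve_right (hunit _ (hs j)).ne_zero
  have h2 : Module.rank P' M' = D := by
    refine rank_eq_of_family (fun j => q (m j)) ?_ ?_
    · rw [Fintype.linearIndependent_iff]
      intro g hg j
      choose c hc using fun j => hσ (g j)
      have h3 : q (∑ j, c j • m j) = 0 := by
        rw [map_sum, ← hg]
        exact Finset.sum_congr rfl fun j _ => by rw [hqs, hc]
      obtain ⟨m', hm'⟩ := hqk _ h3
      obtain ⟨r, hr⟩ := hcoord (f m')
      have h4 : ∑ j, (algebraMap P R (c j) - t * r j) • f (m j) = 0 := by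
        simp only [sub_smul, Finset.sum_sub_distrib, mul_smul, ← Finset.smul_sum]
        rw [← hr, sub_eq_zero]
        have h5 := congrArg f hm'
        rw [map_sum, map_smul, ← algebraMap_smul R ϖ] at h5
        rw [← ht] at h5
        rw [← h5]
        exact Finset.sum_congr rfl fun j _ => by rw [map_smul, algebraMap_smul]
      have h5 := hind _ h4 j
      rw [sub_eq_zero] at h5
      have h6 : algebraMap P R (c j) ∈ maximalIdeal R := by
        rw [h5, hmax]
        exact Ideal.mul_mem_right _ _ (Ideal.mem_span_singleton_self t)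
      rw [IsLocalization.AtPrime.to_map_mem_maximal_iff R 𝔭] at h6
      rw [← hc]
      exact (hmem _).1 h6
    · intro z
      obtain ⟨z, rfl⟩ := hq z
      obtain ⟨r, hr⟩ := hcoord (f z)
      obtain ⟨s0, hs0⟩ := IsLocalization.exist_integer_multiples_of_finite 𝔭.primeCompl r
      choose c hc using hs0
      have h3 : f ((s0 : P) • z) = f (∑ j, c j • m j) := by
        rw [map_smul, hr, map_sum, Finset.smul_sum]
        refine Finset.sum_congr rfl fun j _ => ?_
        rw [map_smul, ← algebraMap_smul R (c j), hc, Algebra.smul_def, ← algebraMap_smul R (s0 : P),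
          smul_smul]
      obtain ⟨s', hs', h4⟩ := hlocinj _ _ h3
      refine ⟨σ (s' * s0), ?_, ?_⟩
      · exact fun h => (mul_mem hs' s0.2 : s' * (s0 : P) ∈ 𝔭.primeCompl) ((hmem _).2 h)
      · rw [← hqs, mul_smul, h4, hqs, map_sum]
        refine Submodule.smul_mem _ _ (sum_mem fun j _ => ?_)
        rw [hqs]
        exact Submodule.smul_mem _ _ (Submodule.subset_span ⟨j, rfl⟩)
  rw [h1, h2]

end Pool.Agent.H94rl
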