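import Mathlib

/-! Setting the first variable to zero. -/

open MvPolynomial

namespace Pool.Agent.H94rl

variable (k : Type) [Field k] (n : ℕ)

/-- the homomorphism which kills the first variable -/
noncomputable def sg : MvPolynomial (Fin (n + 1)) k →ₐ[k] MvPolynomial (Fin n) k :=
  aeval (Fin.cases 0 X)

variable {k n}

@[simp] theorem sg_zero : sg k n (X 0) = 0 := by simp [sg]

@[simp] theorem sg_succ (i : Fin n) : sg k n (X i.succ) = X i := by simp [sg]

theorem sg_surj : Function.Surjective (sg k n) := by
  intro f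
  refine ⟨rename Fin.succ f, ?_⟩
  have : (sg k n).comp (rename Fin.succ) = AlgHom.id k _ := by
    ext i; simp
  exact DFunLike.congr_fun this f

theorem sg_ker (c : MvPolynomial (Fin (n + 1)) k) : sg k n c = 0 ↔ X 0 ∣ c := by
  have h1 : ∀ c, sg k n c = Polynomial.eval 0 (finSuccEquiv k n c) := by
    intro c
    have : (sg k n).toRingHom = (Polynomial.evalRingHom (0 : MvPolynomial (Fin n) k)).comp
        (finSuccEquiv k n).toAlgHom.toRingHom := by
      apply MvPolynomial.ringHom_ext
      · intro r; simp [sg, finSuccEquiv_apply]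
      · intro i
        refine Fin.cases ?_ (fun j => ?_) i
        · simp [finSuccEquiv_X_zero]
        · simp [finSuccEquiv_X_succ]
    exact RingHom.congr_fun this c
  rw [h1, ← Polynomial.coeff_zero_eq_eval_zero, ← Polynomial.X_dvd_iff]
  constructor
  · rintro ⟨g, hg⟩
    refine ⟨(finSuccEquiv k n).symm g, (finSuccEquiv k n).injective ?_⟩
    rw [map_mul, finSuccEquiv_X_zero, AlgEquiv.apply_symm_apply, hg]
  · rintro ⟨g, hg⟩
    exact ⟨finSuccEquiv k n g, by rw [hg, map_mul, finSuccEquiv_X_zero]⟩

end Pool.Agent.H94rl
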