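import Pool.Agent.H94_rl.ValMain
import Pool.Agent.H94_rl.Sigma
import Pool.Agent.H94_rl.Rank

/-! Finiteness over the local ring of the first variable. -/

open MvPolynomial Module

namespace Pool.Agent.H94rl

theorem isIntegral_of_val {R Ω : Type} [CommRing R] [Field Ω] [Algebra R Ω] (y : Ω)
    (h : ∀ O : ValuationSubring Ω, (∀ r : R, algebraMap R Ω r ∈ O) → y ∈ O) :
    IsIntegral R y := by
  set s : Set Ω := Set.range (algebraMap R Ω) with hs
  have h1 : y ∈ (⨅ V : {V : ValuationSubring Ω // s ⊆ V.toSubring}, V.1.toSubring) := by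
    rw [Subring.mem_iInf]
    rintro ⟨O, hO⟩
    exact h O fun r => hO ⟨r, rfl⟩
  rw [iInf_valuationSubring_superset] at h1
  have h2 : IsIntegral (Subring.closure s) y := h1
  have h3 : ∀ z ∈ Subring.closure s, z ∈ (algebraMap R Ω).range := by
    intro z hz
    have : Subring.closure s ≤ (algebraMap R Ω).range := by
      rw [Subring.closure_le]; rintro _ ⟨r, rfl⟩; exact ⟨r, rfl⟩
    exact this hz
  let _ : Algebra R (Subring.closure s) :=
    ((algebraMap R Ω).codRestrict (Subring.closure s)
      fun r => Subring.subset_closure ⟨r, rfl⟩).toAlgebra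
  have : IsScalarTower R (Subring.closure s) Ω := IsScalarTower.of_algebraMap_eq fun r => rfl
  have : Algebra.IsIntegral R (Subring.closure s) := by
    refine ⟨fun z => ?_⟩
    obtain ⟨r, hr⟩ := h3 z z.2
    have : z = algebraMap R (Subring.closure s) r := Subtype.ext hr.symm
    rw [this]
    exact isIntegral_algebraMap
  exact isIntegral_trans y h2


theorem finite_of_gen {R B : Type} [CommRing R] [CommRing B] [Algebra R B]
    (G : Set B) (hG : G.Finite) (hint : ∀ g ∈ G, IsIntegral R g)
    (htop : Algebra.adjoin R G = ⊤) : Module.Finite R B := by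
  refine ⟨?_⟩
  have h1 := fg_adjoin_of_finite hG hint
  rw [htop] at h1
  exact h1

section main

variable {k : Type} [Field k] {V : Type} [AddCommGroup V] [Module k V] [FiniteDimensional k V]
variable {n : ℕ}

/-- the prime ideal of the first variable -/
noncomputable abbrev pr (k : Type) [Field k] (n : ℕ) : Ideal (MvPolynomial (Fin (n + 1)) k) :=
  RingHom.ker (sg k n)

instance : (pr k n).IsPrime := RingHom.ker_isPrime _

/-- the local ring -/
abbrev Rl (k : Type) [Field k] (n : ℕ) : Type := Localization (pr k n).primeCompl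

/-- Finiteness over the local ring of the first variable. -/
theorem finite_loc {a0 : V} {a : Fin (n + 1) → V} {A : Type} [CommRing A] [IsDomain A]
    [Algebra k A] {w : Fin (n + 1) → A} {x : V →ₗ[k] A} (h : IsUniv k a0 a A w x)
    (hspan : Submodule.span k (insert a0 (Set.range a)) = ⊤) (h0 : a0 ≠ 0) (ha : a 0 ≠ 0)
    (hw : w 0 ≠ 0) [Algebra (MvPolynomial (Fin (n + 1)) k) A]
    [IsScalarTower k (MvPolynomial (Fin (n + 1)) k) A]
    (hX : ∀ i, algebraMap (MvPolynomial (Fin (n + 1)) k) A (X i) = w i * x (a i) ^ 2) :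
    Module.Finite (Rl k n)
      (Localization (Algebra.algebraMapSubmonoid A (pr k n).primeCompl)) := by
  classical
  set P := MvPolynomial (Fin (n + 1)) k with hP
  set S := (pr k n).primeCompl with hS
  set MA := Algebra.algebraMapSubmonoid A S with hMA
  set B := Localization MA with hB
  by_cases hzero : (0 : A) ∈ MA
  · have : Subsingleton B := (IsLocalization.subsingleton_iff (M := MA)).2 hzero
    infer_instance
  have hMle : MA ≤ nonZeroDivisors A := by
    intro c hc
    rw [mem_nonZeroDivisors_iff_ne_zero]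
    rintro rfl
    exact hzero hc
  have hdom : IsDomain B := IsLocalization.isDomain_of_le_nonZeroDivisors B hMle
  have hAB : Function.Injective (algebraMap A B) := IsLocalization.injective B hMle
  set Ω := FractionRing B with hΩ
  have hBΩ : Function.Injective (algebraMap B Ω) := IsFractionRing.injective B Ω
  set jk : A →ₐ[k] Ω := IsScalarTower.toAlgHom k A Ω with hjk'
  set j : A →+* Ω := algebraMap A Ω with hj
  have hjcomp : ∀ y, j y = algebraMap B Ω (algebraMap A B y) := fun y =>
    IsScalarTower.algebraMap_apply A B Ω y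
  have hjinj : Function.Injective j := by
    have : ⇑j = ⇑(algebraMap B Ω) ∘ ⇑(algebraMap A B) := funext hjcomp
    rw [this]; exact hBΩ.comp hAB
  have hjk : ∀ c : k, j (algebraMap k A c) = algebraMap k Ω c := fun c =>
    (IsScalarTower.algebraMap_apply k A Ω c).symm
  have hjkj : ∀ y, jk y = j y := fun y => rfl
  -- compatibility of the maps from `P`
  have hcomp : ∀ f : P, algebraMap (Rl k n) Ω (algebraMap P (Rl k n) f) = j (algebraMap P A f) := by
    intro f
    rw [hjcomp, ← IsScalarTower.algebraMap_apply P A B,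
      IsScalarTower.algebraMap_apply P (Rl k n) B, ← IsScalarTower.algebraMap_apply (Rl k n) B Ω]
  have haeval : ∀ f : P, aeval (fun i => j (w i) * (jk.toLinearMap ∘ₗ x) (a i) ^ 2) f =
      j (algebraMap P A f) := by
    intro f
    have h1 : (aeval (fun i => j (w i) * (jk.toLinearMap ∘ₗ x) (a i) ^ 2) : P →ₐ[k] Ω) =
        jk.comp (IsScalarTower.toAlgHom k P A) := by
      ext i
      rw [aeval_X]
      change _ = j (algebraMap P A (X i))
      rw [hX, map_mul, map_pow]
      rfl
    rw [h1]; rfl
  obtain ⟨w0, hw0⟩ := h.rel.exists_full (k := k) h0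
  have hval : ∀ O : ValuationSubring Ω, (∀ r : Rl k n, algebraMap (Rl k n) Ω r ∈ O) →
      (∀ i, j (w i) ∈ O) ∧ ∀ v, j (x v) ∈ O := by
    intro O hO
    have hPO : ∀ f : P, j (algebraMap P A f) ∈ O := fun f => by rw [← hcomp]; exact hO _
    refine val_main O ?_ (jk.toLinearMap ∘ₗ x) a0 a hspan ?_ (j w0) (fun i => j (w i)) ?_ 0 ha ?_ ?_ ?_
    · intro c
      have h1 := hPO (C c)
      rw [← MvPolynomial.algebraMap_eq, ← IsScalarTower.algebraMap_apply k P A, hjk] at h1
      exact h1
    · rw [LinearMap.comp_apply, h.x0]; exact map_one j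
    · intro φ
      have h1 := congrArg jk (hw0 φ)
      rw [map_add, map_smul, map_sum, map_zero] at h1
      simp only [map_smul] at h1
      exact h1
    · exact fun h1 => hw (hjinj (by rw [map_zero]; exact h1))
    · rw [O.valuation_le_one_iff]
      have h1 := hPO (X 0)
      rw [← haeval, aeval_X] at h1
      exact h1
    · intro f hf
      rw [haeval]
      have h1 : f ∈ S := fun h2 => hf ((sg_ker f).1 h2)
      have h2 : IsUnit (algebraMap P (Rl k n) f) :=
        IsLocalization.map_units (Rl k n) (⟨f, h1⟩ : S)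
      obtain ⟨u, hu⟩ := h2
      have h3 := hPO f
      have h4 : j (algebraMap P A f) * algebraMap (Rl k n) Ω ↑(u⁻¹) = 1 := by
        rw [← hcomp, ← hu, ← map_mul, Units.mul_inv, map_one]
      have h5 := (O.valuation_le_one_iff _).2 h3
      have h6 := (O.valuation_le_one_iff _).2 (hO ↑(u⁻¹))
      have h7 := congrArg O.valuation h4
      rw [map_mul, map_one] at h7
      refine le_antisymm h5 ?_
      by_contra hlt
      rw [not_le] at hlt
      exact (mul_lt_one_of_lt_of_le hlt h6).ne h7
  have hint : ∀ y : A, (∀ O : ValuationSubring Ω, (∀ r : Rl k n, algebraMap (Rl k n) Ω r ∈ O) →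
      j y ∈ O) → IsIntegral (Rl k n) (algebraMap A B y) := by
    intro y hy
    rw [← isIntegral_algebraMap_iff hBΩ, ← hjcomp]
    exact isIntegral_of_val _ hy
  have hwint : ∀ i, IsIntegral (Rl k n) (algebraMap A B (w i)) :=
    fun i => hint _ fun O hO => (hval O hO).1 i
  have hxint : ∀ v, IsIntegral (Rl k n) (algebraMap A B (x v)) :=
    fun v => hint _ fun O hO => (hval O hO).2 v
  set b := finBasis k V with hb
  set G : Set B := Set.range (fun i => algebraMap A B (w i)) ∪
    Set.range (fun i => algebraMap A B (x (b i))) with hG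
  refine finite_of_gen G ((Set.finite_range _).union (Set.finite_range _))
    ?_ ?_
  · rintro _ (⟨i, rfl⟩ | ⟨i, rfl⟩)
    · exact hwint i
    · exact hxint _
  · rw [eq_top_iff]
    rintro y -
    have hk : ∀ c : k, algebraMap A B (algebraMap k A c) ∈ Algebra.adjoin (Rl k n) G := by
      intro c
      rw [IsScalarTower.algebraMap_apply k P A, ← IsScalarTower.algebraMap_apply P A B,
        IsScalarTower.algebraMap_apply P (Rl k n) B]
      exact Subalgebra.algebraMap_mem _ _
    have hxall : ∀ v, algebraMap A B (x v) ∈ Algebra.adjoin (Rl k n) G := by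
      intro v
      rw [← b.sum_repr v, map_sum, map_sum]
      refine sum_mem fun i _ => ?_
      rw [map_smul, Algebra.smul_def, map_mul]
      exact mul_mem (hk _) (Algebra.subset_adjoin (Or.inr ⟨i, rfl⟩))
    have hA : ∀ y : A, algebraMap A B y ∈ Algebra.adjoin (Rl k n) G := by
      intro y
      have hy : y ∈ Algebra.adjoin k (Set.range w ∪ Set.range x) := by rw [h.gen]; trivial
      induction hy using Algebra.adjoin_induction with
      | mem z hz =>
        rcases hz with ⟨i, rfl⟩ | ⟨v, rfl⟩
        · exact Algebra.subset_adjoin (Or.inl ⟨i, rfl⟩)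
        · exact hxall v
      | algebraMap c => exact hk c
      | add z z' _ _ h1 h2 => rw [map_add]; exact add_mem h1 h2
      | mul z z' _ _ h1 h2 => rw [map_mul]; exact mul_mem h1 h2
    obtain ⟨⟨z, ⟨_, s, hs, rfl⟩⟩, hz⟩ := IsLocalization.surj MA y
    have h1 : IsUnit (algebraMap P (Rl k n) s) :=
      IsLocalization.map_units (Rl k n) (⟨s, hs⟩ : S)
    obtain ⟨u, hu⟩ := h1
    have h2 : algebraMap A B (algebraMap P A s) = algebraMap (Rl k n) B ↑u := by
      rw [hu, ← IsScalarTower.algebraMap_apply P A B, IsScalarTower.algebraMap_apply P (Rl k n) B]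
    have h3 : y = algebraMap A B z * algebraMap (Rl k n) B ↑(u⁻¹) := by
      have hz' : y * algebraMap A B (algebraMap P A s) = algebraMap A B z := hz
      rw [← hz', h2, mul_assoc, ← map_mul, Units.mul_inv, map_one, mul_one]
    rw [h3]
    exact mul_mem (hA z) (Subalgebra.algebraMap_mem _ _)

end main

end Pool.Agent.H94rl
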