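import Pool.Agent.H94_rl.Defs

/-! Geometry of the reciprocal linear space: vanishing of polynomials. -/

open Module MvPolynomial

namespace Pool.Agent.H94rl.Geo

variable {d n : ℕ}

theorem eval_smul {σ : Type} {F : MvPolynomial σ ℂ} {m : ℕ} (hF : F.IsHomogeneous m) (c : ℂ)
    (v : σ → ℂ) : eval (c • v) F = c ^ m * eval v F := by
  rw [eval_eq, eval_eq, Finset.mul_sum]
  refine Finset.sum_congr rfl fun d hd => ?_
  have h1 : ∑ i ∈ d.support, d i = m := by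
    have := hF (mem_support_iff.1 hd)
    rw [← this, Finsupp.weight_apply, Finsupp.sum]; simp
  rw [← h1, ← Finset.prod_pow_eq_pow_sum]
  simp only [Pi.smul_apply, smul_eq_mul, mul_pow, Finset.prod_mul_distrib]
  ring

theorem eval_smul_zero {σ : Type} {F : MvPolynomial σ ℂ} {m : ℕ} (hF : F.IsHomogeneous m) {c : ℂ}
    (hc : c ≠ 0) (v : σ → ℂ) : eval (c • v) F = 0 ↔ eval v F = 0 := by
  rw [eval_smul hF, mul_eq_zero, or_iff_right (pow_ne_zero _ hc)]

theorem rep_mk' {v : Fin (n + 1) → ℂ} (hv : v ≠ 0) :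
    ∃ c : ℂ, c ≠ 0 ∧ (Projectivization.mk ℂ v hv).rep = c • v := by
  obtain ⟨a, ha⟩ := Projectivization.exists_smul_eq_mk_rep ℂ v hv
  exact ⟨a, a.ne_zero, ha.symm⟩

/-- the inverse point -/
noncomputable def iv (ℓ : Fin (n + 1) → Dual ℂ (Fin (d + 1) → ℂ)) (t : Fin (d + 1) → ℂ) :
    Fin (n + 1) → ℂ := fun i => (ℓ i t)⁻¹

variable {ℓ : Fin (n + 1) → Dual ℂ (Fin (d + 1) → ℂ)}

theorem iv_ne_zero {t : Fin (d + 1) → ℂ} (ht : ∀ i, ℓ i t ≠ 0) : iv ℓ t ≠ 0 := by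
  intro h
  exact inv_ne_zero (ht 0) (congrFun h 0)

theorem iv_smul (t : Fin (d + 1) → ℂ) (c : ℂ) : iv ℓ (c • t) = c⁻¹ • iv ℓ t := by
  ext i
  simp only [iv, map_smul, smul_eq_mul, mul_inv, Pi.smul_apply]

/-- the open part -/
def S0 (ℓ : Fin (n + 1) → Dual ℂ (Fin (d + 1) → ℂ)) : Set (PP n) :=
  {y | ∃ x ∈ linSpace ℓ ∩ torus n, ∃ c : ℂ, ∀ i, y.rep i = c * (x.rep i)⁻¹}

theorem recip_eq : recip ℓ = zariskiClosure (S0 ℓ) := rfl

theorem exists_of_mem_S0 {y : PP n} (hy : y ∈ S0 ℓ) :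
    ∃ t, (∀ i, ℓ i t ≠ 0) ∧ ∃ c : ℂ, c ≠ 0 ∧ y.rep = c • iv ℓ t := by
  obtain ⟨x, ⟨⟨t, ht⟩, hx⟩, c, hc⟩ := hy
  refine ⟨t, fun i => by rw [← ht]; exact hx i, c, ?_, ?_⟩
  · rintro rfl
    apply y.rep_nonzero
    ext i
    rw [hc i, zero_mul]; rfl
  · ext i
    rw [hc i, ht i]; rfl

theorem mem_S0_of {y : PP n} {t : Fin (d + 1) → ℂ} (ht : ∀ i, ℓ i t ≠ 0) {c : ℂ}
    (hy : y.rep = c • iv ℓ t) : y ∈ S0 ℓ := by
  have hv : (fun i => ℓ i t) ≠ 0 := fun h => ht 0 (congrFun h 0)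
  obtain ⟨a, ha, har⟩ := rep_mk' hv
  refine ⟨Projectivization.mk ℂ (fun i => ℓ i t) hv, ⟨⟨a • t, fun i => ?_⟩, fun i => ?_⟩,
    c * a, fun i => ?_⟩
  · rw [har, map_smul]; rfl
  · rw [har]; exact mul_ne_zero ha (ht i)
  · rw [har, hy]
    simp only [Pi.smul_apply, smul_eq_mul, iv, mul_inv]
    field_simp

theorem mk_mem_S0 {t : Fin (d + 1) → ℂ} (ht : ∀ i, ℓ i t ≠ 0) :
    Projectivization.mk ℂ (iv ℓ t) (iv_ne_zero ht) ∈ S0 ℓ := by
  obtain ⟨c, -, hc⟩ := rep_mk' (iv_ne_zero ht)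
  exact mem_S0_of ht hc

theorem subset_closure' (S : Set (PP n)) : S ⊆ zariskiClosure S := fun y hy _ _ _ hF => hF y hy

theorem vanish_iff {F : MvPolynomial (Fin (n + 1)) ℂ} {m : ℕ} (hF : F.IsHomogeneous m) :
    VanishesOn F (recip ℓ) ↔ ∀ t, (∀ i, ℓ i t ≠ 0) → eval (iv ℓ t) F = 0 := by
  constructor
  · intro h t ht
    obtain ⟨c, hc0, hc⟩ := rep_mk' (iv_ne_zero ht)
    have h1 := h _ (subset_closure' _ (mk_mem_S0 ht))
    rw [hc, eval_smul_zero hF hc0] at h1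
    exact h1
  · intro h y hy
    refine hy F m hF fun y' hy' => ?_
    obtain ⟨t, ht, c, hc0, hc⟩ := exists_of_mem_S0 hy'
    rw [hc, eval_smul_zero hF hc0]
    exact h t ht

/-- polynomials vanishing on the open part of the cone -/
theorem vanish_any (Q : MvPolynomial (Fin (n + 1)) ℂ)
    (hQ : ∀ t, (∀ i, ℓ i t ≠ 0) → eval (iv ℓ t) Q = 0) {y : PP n} (hy : y ∈ recip ℓ) :
    eval y.rep Q = 0 := by
  classical
  have h1 : ∀ j, ∀ t, (∀ i, ℓ i t ≠ 0) → eval (iv ℓ t) (homogeneousComponent j Q) = 0 := by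
    intro j t ht
    by_cases hj : Q.totalDegree < j
    · rw [homogeneousComponent_eq_zero _ _ hj, map_zero]
    set p : Polynomial ℂ := ∑ i ∈ Finset.range (Q.totalDegree + 1),
      Polynomial.C (eval (iv ℓ t) (homogeneousComponent i Q)) * Polynomial.X ^ i with hp
    have h2 : Polynomial.X * p = 0 := by
      apply Polynomial.funext
      intro c
      rw [Polynomial.eval_mul, Polynomial.eval_X, Polynomial.eval_zero]
      by_cases hc : c = 0
      · rw [hc, zero_mul]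
      have h3 := hQ (c⁻¹ • t) fun i => by
        rw [map_smul]; exact smul_ne_zero (inv_ne_zero hc) (ht i)
      rw [iv_smul, inv_inv] at h3
      conv_lhs at h3 => rw [← sum_homogeneousComponent Q, map_sum]
      rw [Finset.sum_congr rfl fun i _ => eval_smul
        (homogeneousComponent_isHomogeneous i Q) c (iv ℓ t)] at h3
      rw [hp, Polynomial.eval_finsetSum]
      simp only [Polynomial.eval_mul, Polynomial.eval_C, Polynomial.eval_pow, Polynomial.eval_X]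
      rw [Finset.sum_congr rfl fun i _ => mul_comm _ _, h3, mul_zero]
    have h3 : p = 0 := (mul_eq_zero.1 h2).resolve_left Polynomial.X_ne_zero
    have h4 := congrArg (fun q => Polynomial.coeff q j) h3
    simp only [Polynomial.coeff_zero, hp, Polynomial.finsetSum_coeff, Polynomial.coeff_C_mul,
      Polynomial.coeff_X_pow] at h4
    rw [Finset.sum_eq_single j (fun i _ hij => by rw [if_neg (Ne.symm hij), mul_zero])
      (fun h5 => by exfalso; apply h5; rw [Finset.mem_range]; omega), if_pos rfl, mul_one] at h4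
    exact h4
  rw [← sum_homogeneousComponent Q, map_sum]
  refine Finset.sum_eq_zero fun j _ => ?_
  exact (vanish_iff (homogeneousComponent_isHomogeneous j Q)).2 (h1 j) y hy

end Pool.Agent.H94rl.Geo
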