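import Pool.Agent.H94_rl.Geom1
import Pool.Agent.H94_rl.Alg

/-! Tangent spaces of the reciprocal linear space on its open part. -/

open Module MvPolynomial Topology

namespace Pool.Agent.H94rl.Geo

variable {d n : ℕ}

theorem hasDerivAt_eval {σ : Type} [Fintype σ] (F : MvPolynomial σ ℂ) (g : ℂ → σ → ℂ)
    (g' : σ → ℂ) (s : ℂ) (h : ∀ i, HasDerivAt (fun s => g s i) (g' i) s) :
    HasDerivAt (fun s => eval (g s) F) (∑ i, eval (g s) (pderiv i F) * g' i) s := by
  classical
  induction F using MvPolynomial.induction_on with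
  | C c => simpa using hasDerivAt_const s c
  | add p q hp hq =>
    simp only [map_add, add_mul, Finset.sum_add_distrib]
    exact hp.add hq
  | mul_X p j hp =>
    have h1 := hp.mul (h j)
    have h2 : ∑ i, eval (g s) (pderiv i (p * X j)) * g' i =
        (∑ i, eval (g s) (pderiv i p) * g' i) * g s j + eval (g s) p * g' j := by
      have h3 : ∀ i, eval (g s) (pderiv i (p * X j)) * g' i =
          eval (g s) (pderiv i p) * g' i * g s j +
            (if i = j then eval (g s) p * g' j else 0) := by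
        intro i
        rw [pderiv_mul, map_add, map_mul, map_mul, eval_X, add_mul]
        congr 1
        · ring
        · by_cases hij : i = j
          · subst hij; simp
          · rw [pderiv_X_of_ne (Ne.symm hij)]; simp [hij]
      rw [Finset.sum_congr rfl fun i _ => h3 i, Finset.sum_add_distrib, ← Finset.sum_mul]
      simp only [Finset.sum_ite_eq', Finset.mem_univ, if_true]
    rw [h2]
    simp only [map_mul, eval_X]
    exact h1

variable {ℓ : Fin (n + 1) → Dual ℂ (Fin (d + 1) → ℂ)}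

theorem deriv_vanish {F : MvPolynomial (Fin (n + 1)) ℂ}
    (hF : ∀ t, (∀ i, ℓ i t ≠ 0) → eval (iv ℓ t) F = 0) {t : Fin (d + 1) → ℂ}
    (ht : ∀ i, ℓ i t ≠ 0) (v : Fin (d + 1) → ℂ) :
    ∑ j, eval (iv ℓ t) (pderiv j F) * ((ℓ j t)⁻¹ ^ 2 * ℓ j v) = 0 := by
  have hlin : ∀ i (s : ℂ), ℓ i (t + s • v) = ℓ i t + s * ℓ i v := by
    intro i s; rw [map_add, map_smul, smul_eq_mul]
  have h1 := hasDerivAt_eval F (fun s => iv ℓ (t + s • v))
    (fun j => -((ℓ j t)⁻¹ ^ 2 * ℓ j v)) 0 (by
      intro i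
      have h2 : HasDerivAt (fun s : ℂ => ℓ i t + s * ℓ i v) (ℓ i v) 0 := by
        simpa using ((hasDerivAt_id (0 : ℂ)).mul_const (ℓ i v)).const_add (ℓ i t)
      have h3 := h2.inv (by rw [zero_mul, add_zero]; exact ht i)
      rw [zero_mul, add_zero] at h3
      have h4 : -ℓ i v / ℓ i t ^ 2 = -((ℓ i t)⁻¹ ^ 2 * ℓ i v) := by
        rw [inv_pow, div_eq_mul_inv]; ring
      rw [h4] at h3
      refine h3.congr_of_eventuallyEq (Filter.Eventually.of_forall fun s => ?_)
      simp only [iv, hlin, Pi.inv_apply])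
  have h2 : ∀ᶠ s : ℂ in 𝓝 0, ∀ i, ℓ i (t + s • v) ≠ 0 := by
    rw [Filter.eventually_all]
    intro i
    have h3 : ContinuousAt (fun s : ℂ => ℓ i (t + s • v)) 0 := by
      simp only [hlin]
      exact (continuous_const.add (continuous_id.mul continuous_const)).continuousAt
    exact h3.eventually_ne (by simpa using ht i)
  have h3 : HasDerivAt (fun s : ℂ => eval (iv ℓ (t + s • v)) F) 0 0 := by
    refine (hasDerivAt_const (0 : ℂ) (0 : ℂ)).congr_of_eventuallyEq ?_
    filter_upwards [h2] with s hs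
    exact hF _ hs
  have h4 := h1.unique h3
  simp only [zero_smul, add_zero, mul_neg, Finset.sum_neg_distrib, neg_eq_zero] at h4
  exact h4

/-- the differential of the inversion -/
noncomputable def tau (ℓ : Fin (n + 1) → Dual ℂ (Fin (d + 1) → ℂ)) (t : Fin (d + 1) → ℂ) :
    (Fin (d + 1) → ℂ) →ₗ[ℂ] (Fin (n + 1) → ℂ) := LinearMap.pi fun j => ((ℓ j t)⁻¹ ^ 2) • ℓ j

theorem tau_apply (t v : Fin (d + 1) → ℂ) (j : Fin (n + 1)) :
    tau ℓ t v j = (ℓ j t)⁻¹ ^ 2 * ℓ j v := rfl

/-- relations give equations -/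
theorem rel_poly (c : Fin (n + 1) → ℂ) :
    ∃ F : MvPolynomial (Fin (n + 1)) ℂ, F.IsHomogeneous n ∧
      ∀ Y : Fin (n + 1) → ℂ, (∀ i, Y i ≠ 0) → eval Y F = (∏ j, Y j) * ∑ i, c i * (Y i)⁻¹ := by
  classical
  refine ⟨∑ i, C (c i) * ∏ j ∈ Finset.univ.erase i, X j, ?_, ?_⟩
  · refine IsHomogeneous.sum _ _ _ fun i _ => ?_
    have h1 : (∏ j ∈ Finset.univ.erase i, (X j : MvPolynomial (Fin (n + 1)) ℂ)).IsHomogeneous
        (∑ j ∈ Finset.univ.erase i, 1) :=
      IsHomogeneous.prod _ _ _ fun j _ => isHomogeneous_X ℂ j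
    have h2 : ∑ j ∈ Finset.univ.erase i, 1 = n := by simp
    rw [h2] at h1
    have h3 := (isHomogeneous_C (Fin (n + 1)) (c i)).mul h1
    rwa [zero_add] at h3
  · intro Y hY
    rw [map_sum, Finset.mul_sum]
    refine Finset.sum_congr rfl fun i _ => ?_
    rw [map_mul, eval_C, map_prod]
    simp only [eval_X]
    rw [← Finset.mul_prod_erase Finset.univ Y (Finset.mem_univ i)]
    field_simp [hY i]

theorem tangent_eq (hspan : Submodule.span ℂ (Set.range ℓ) = ⊤) {y : PP n}
    {t : Fin (d + 1) → ℂ} (ht : ∀ i, ℓ i t ≠ 0) {c : ℂ} (hc : c ≠ 0) (hy : y.rep = c • iv ℓ t) :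
    tangentSpace (recip ℓ) y = LinearMap.range (tau ℓ t) := by
  classical
  ext z
  constructor
  · intro hz
    have hyi : ∀ i, y.rep i = c * (ℓ i t)⁻¹ := fun i => by rw [hy]; rfl
    have hyn : ∀ i, y.rep i ≠ 0 := fun i => by rw [hyi]; exact mul_ne_zero hc (inv_ne_zero (ht i))
    obtain ⟨Z, hZ⟩ := exists_functional hspan (M := ℂ) (fun i => (ℓ i t) ^ 2 * z i) (by
      intro r hr
      obtain ⟨F, hF, hFe⟩ := rel_poly r
      have hrt : ∀ s, ∑ i, r i * ℓ i s = 0 := by
        intro s
        have := congrArg (fun f : Dual ℂ (Fin (d + 1) → ℂ) => f s) hr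
        simpa [LinearMap.sum_apply] using this
      have h1 : VanishesOn F (recip ℓ) := by
        rw [vanish_iff hF]
        intro s hs
        rw [hFe (iv ℓ s) fun i => inv_ne_zero (hs i)]
        simp only [iv, inv_inv]
        rw [hrt, mul_zero]
      have h2 := hz F n hF h1
      have h3 := hasDerivAt_eval F (fun s => y.rep + s • z) z 0 (by
        intro i
        simpa using ((hasDerivAt_id (0 : ℂ)).mul_const (z i)).const_add (y.rep i))
      simp only [zero_smul, add_zero] at h3
      rw [h2] at h3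
      have hd : ∀ i, HasDerivAt (fun s : ℂ => y.rep i + s * z i) (z i) 0 := by
        intro i
        simpa using ((hasDerivAt_id (0 : ℂ)).mul_const (z i)).const_add (y.rep i)
      have hP := HasDerivAt.fun_finsetProd (u := Finset.univ)
        (f := fun (i : Fin (n + 1)) (s : ℂ) => y.rep i + s * z i)
        (f' := z) (x := 0) fun i _ => hd i
      have hQ : HasDerivAt (fun s : ℂ => ∑ i, r i * (y.rep i + s * z i)⁻¹)
          (∑ i, r i * (-z i / (y.rep i) ^ 2)) 0 := by
        have h4 : ∀ i ∈ (Finset.univ : Finset (Fin (n + 1))),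
            HasDerivAt (fun s : ℂ => r i * (y.rep i + s * z i)⁻¹)
              (r i * (-z i / (y.rep i) ^ 2)) 0 := by
          intro i _
          have h5 := ((hd i).inv (by rw [zero_mul, add_zero]; exact hyn i)).const_mul (r i)
          rw [zero_mul, add_zero] at h5
          exact h5
        exact HasDerivAt.fun_sum h4
      have hPQ := hP.mul hQ
      have hev : ∀ᶠ s : ℂ in 𝓝 0, ∀ i, y.rep i + s * z i ≠ 0 := by
        rw [Filter.eventually_all]
        intro i
        exact (hd i).continuousAt.eventually_ne (by simpa using hyn i)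
      have h6 : HasDerivAt (fun s : ℂ => eval (y.rep + s • z) F) _ 0 :=
        hPQ.congr_of_eventuallyEq (by
          filter_upwards [hev] with s hs
          rw [hFe _ (fun i => by
            rw [Pi.add_apply, Pi.smul_apply, smul_eq_mul]; exact hs i)]
          rfl)
      have h7 := h3.unique h6
      simp only [zero_mul, add_zero] at h7
      have h8 : ∑ i, r i * (y.rep i)⁻¹ = 0 := by
        have h9 := hrt t
        have h10 : ∀ i, r i * (y.rep i)⁻¹ = c⁻¹ * (r i * ℓ i t) := by
          intro i; rw [hyi, mul_inv, inv_inv]; ring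
        rw [Finset.sum_congr rfl fun i _ => h10 i, ← Finset.mul_sum, h9, mul_zero]
      rw [h8, mul_zero, zero_add] at h7
      have h11 := (mul_eq_zero.1 h7.symm).resolve_left
        (Finset.prod_ne_zero_iff.2 fun i _ => hyn i)
      have h12 : ∀ i, r i * (-z i / (y.rep i) ^ 2) =
          -(c⁻¹ ^ 2) * (r i • ((ℓ i t) ^ 2 * z i)) := by
        intro i
        rw [hyi, smul_eq_mul]
        have := ht i
        field_simp
      rw [Finset.sum_congr rfl fun i _ => h12 i, ← Finset.mul_sum] at h11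
      exact (mul_eq_zero.1 h11).resolve_left
        (neg_ne_zero.2 (pow_ne_zero 2 (inv_ne_zero hc))))
    refine ⟨(Module.evalEquiv ℂ (Fin (d + 1) → ℂ)).symm Z, ?_⟩
    ext j
    rw [tau_apply]
    have h1 : ℓ j ((Module.evalEquiv ℂ (Fin (d + 1) → ℂ)).symm Z) = Z (ℓ j) := by
      have h2 : Module.evalEquiv ℂ (Fin (d + 1) → ℂ)
          ((Module.evalEquiv ℂ (Fin (d + 1) → ℂ)).symm Z) = Z := by
        rw [LinearEquiv.apply_symm_apply]
      exact LinearMap.congr_fun h2 (ℓ j)
    rw [h1, hZ]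
    have := ht j
    field_simp
  · rintro ⟨v, rfl⟩ F m hF hX
    rw [vanish_iff hF] at hX
    have h1 := deriv_vanish hX ht v
    have h2 : ∀ j, eval y.rep (pderiv j F) * tau ℓ t v j =
        c ^ (m - 1) * (eval (iv ℓ t) (pderiv j F) * ((ℓ j t)⁻¹ ^ 2 * ℓ j v)) := by
      intro j
      rw [hy, eval_smul hF.pderiv, tau_apply]
      ring
    rw [Finset.sum_congr rfl fun j _ => h2 j, ← Finset.mul_sum, h1, mul_zero]

theorem tau_injective (hspan : Submodule.span ℂ (Set.range ℓ) = ⊤) {t : Fin (d + 1) → ℂ}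
    (ht : ∀ i, ℓ i t ≠ 0) : Function.Injective (tau ℓ t) := by
  rw [injective_iff_map_eq_zero]
  intro v hv
  have h1 : ∀ i, ℓ i v = 0 := by
    intro i
    have h2 := congrFun hv i
    rw [tau_apply, Pi.zero_apply] at h2
    exact (mul_eq_zero.1 h2).resolve_left (pow_ne_zero 2 (inv_ne_zero (ht i)))
  rw [← Module.forall_dual_apply_eq_zero_iff ℂ]
  intro φ
  have hφ : φ ∈ Submodule.span ℂ (Set.range ℓ) := by rw [hspan]; trivial
  induction hφ using Submodule.span_induction with
  | mem y hy => obtain ⟨i, rfl⟩ := hy; exact h1 i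
  | zero => rfl
  | add y z _ _ hy hz => rw [LinearMap.add_apply, hy, hz, add_zero]
  | smul c y _ hy => rw [LinearMap.smul_apply, hy, smul_zero]

theorem finrank_tangent (hspan : Submodule.span ℂ (Set.range ℓ) = ⊤) {y : PP n}
    (hy : y ∈ S0 ℓ) : finrank ℂ (tangentSpace (recip ℓ) y) = d + 1 := by
  obtain ⟨t, ht, c, hc0, hc⟩ := exists_of_mem_S0 hy
  rw [tangent_eq hspan ht hc0 hc, LinearMap.finrank_range_of_inj (tau_injective hspan ht),
    Module.finrank_fin_fun]

end Pool.Agent.H94rl.Geo
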