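import Pool.Agent.H94_rl.Geom2

/-! Semicontinuity of tangent spaces. -/

open Module MvPolynomial

namespace Pool.Agent.H94rl.Geo

variable {d n : ℕ}

/-- orthogonal complement -/
noncomputable def perp (W : Submodule ℂ (Fin (n + 1) → ℂ)) : Submodule ℂ (Fin (n + 1) → ℂ) :=
  W.dualAnnihilator.comap (dotProductEquiv ℂ (Fin (n + 1))).toLinearMap

theorem mem_perp {W : Submodule ℂ (Fin (n + 1) → ℂ)} {z : Fin (n + 1) → ℂ} :
    z ∈ perp W ↔ ∀ w ∈ W, ∑ j, z j * w j = 0 := by
  rw [perp, Submodule.mem_comap, Submodule.mem_dualAnnihilator]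
  rfl

theorem finrank_perp (W : Submodule ℂ (Fin (n + 1) → ℂ)) :
    finrank ℂ W + finrank ℂ (perp W) = n + 1 := by
  have h1 := Subspace.finrank_add_finrank_dualAnnihilator_eq W
  rw [Module.finrank_fin_fun] at h1
  have h2 : finrank ℂ (perp W) = finrank ℂ W.dualAnnihilator := by
    have h3 : perp W = W.dualAnnihilator.map
        ((dotProductEquiv ℂ (Fin (n + 1))).symm).toLinearMap :=
      Submodule.comap_equiv_eq_map_symm _ _
    rw [h3]
    exact LinearEquiv.finrank_map_eq (dotProductEquiv ℂ (Fin (n + 1))).symm W.dualAnnihilator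
  rw [h2, h1]

theorem perp_perp (W : Submodule ℂ (Fin (n + 1) → ℂ)) : perp (perp W) = W := by
  symm
  apply Submodule.eq_of_le_of_finrank_eq
  · intro w hw
    rw [mem_perp]
    intro z hz
    rw [mem_perp] at hz
    rw [← hz w hw]
    exact Finset.sum_congr rfl fun j _ => mul_comm _ _
  · have h1 := finrank_perp W
    have h2 := finrank_perp (perp W)
    omega

/-- homogeneous polynomials vanishing on `X` -/
abbrev JJ (X : Set (PP n)) : Type :=
  {F : MvPolynomial (Fin (n + 1)) ℂ // ∃ m, F.IsHomogeneous m ∧ VanishesOn F X}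

/-- gradient -/
noncomputable def grad (F : MvPolynomial (Fin (n + 1)) ℂ) (Y : Fin (n + 1) → ℂ) :
    Fin (n + 1) → ℂ := fun j => eval Y (pderiv j F)

theorem tangent_perp (X : Set (PP n)) (y : PP n) :
    tangentSpace X y = perp (Submodule.span ℂ (Set.range fun F : JJ X => grad F.1 y.rep)) := by
  ext z
  rw [mem_perp]
  constructor
  · intro hz w hw
    induction hw using Submodule.span_induction with
    | mem w hw =>
      obtain ⟨⟨F, m, hF, hX⟩, rfl⟩ := hw
      rw [← hz F m hF hX]
      exact Finset.sum_congr rfl fun j _ => mul_comm _ _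
    | zero => simp
    | add u v _ _ hu hv =>
      have : ∑ j, z j * (u + v) j = (∑ j, z j * u j) + ∑ j, z j * v j := by
        rw [← Finset.sum_add_distrib]
        exact Finset.sum_congr rfl fun j _ => by rw [Pi.add_apply, mul_add]
      rw [this, hu, hv, add_zero]
    | smul c u _ hu =>
      have : ∑ j, z j * (c • u) j = c * ∑ j, z j * u j := by
        rw [Finset.mul_sum]
        exact Finset.sum_congr rfl fun j _ => by rw [Pi.smul_apply, smul_eq_mul]; ring
      rw [this, hu, mul_zero]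
  · intro hz F m hF hX
    rw [← hz _ (Submodule.subset_span ⟨⟨F, m, hF, hX⟩, rfl⟩)]
    exact Finset.sum_congr rfl fun j _ => mul_comm _ _

variable {ℓ : Fin (n + 1) → Dual ℂ (Fin (d + 1) → ℂ)}

theorem dot_expand (Λ : (Fin (n + 1) → ℂ) →ₗ[ℂ] ℂ) (g : Fin (n + 1) → ℂ) :
    Λ g = ∑ j, g j * Λ (Pi.single j 1) := by
  classical
  conv_lhs => rw [pi_eq_sum_univ' g, map_sum]
  exact Finset.sum_congr rfl fun j _ => by
    rw [map_smul, smul_eq_mul]

/-- The tangent spaces have dimension at least `d + 1`. -/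
theorem le_finrank_tangent (hspan : Submodule.span ℂ (Set.range ℓ) = ⊤) {y : PP n}
    (hy : y ∈ recip ℓ) : d + 1 ≤ finrank ℂ (tangentSpace (recip ℓ) y) := by
  classical
  by_contra hlt
  rw [not_le] at hlt
  set s : Set (Fin (n + 1) → ℂ) := Set.range fun F : JJ (recip ℓ) => grad F.1 y.rep with hs
  have h0 := finrank_perp (Submodule.span ℂ s)
  rw [← tangent_perp] at h0
  set r := finrank ℂ (Submodule.span ℂ s) with hr
  obtain ⟨f, hf1, -, hf3⟩ : ∃ f : Fin r → (Fin (n + 1) → ℂ), (∀ i, f i ∈ s) ∧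
    Submodule.span ℂ (Set.range f) = Submodule.span ℂ s ∧ LinearIndependent ℂ f :=
    Submodule.exists_fun_fin_finrank_span_eq ℂ s
  choose F hF using hf1
  -- dual constants
  have hinj : Function.Injective (Fintype.linearCombination ℂ f) := by
    rw [injective_iff_map_eq_zero]
    intro g hg
    rw [Fintype.linearCombination_apply] at hg
    exact funext (Fintype.linearIndependent_iff.1 hf3 g hg)
  obtain ⟨Λ, hΛ⟩ := (Fintype.linearCombination ℂ f).exists_leftInverse_of_injective
    (LinearMap.ker_eq_bot.2 hinj)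
  have hΛf : ∀ a, Λ (f a) = Pi.single a 1 := by
    intro a
    have h1 := LinearMap.congr_fun hΛ (Pi.single a 1)
    rw [LinearMap.comp_apply, Fintype.linearCombination_apply_single, one_smul] at h1
    exact h1
  set M : Matrix (Fin r) (Fin r) (MvPolynomial (Fin (n + 1)) ℂ) :=
    Matrix.of fun a b => ∑ j, pderiv j (F a).1 * C (Λ (Pi.single j 1) b) with hM
  have hMe : ∀ (Y : Fin (n + 1) → ℂ) a b, (eval Y).mapMatrix M a b = Λ (grad (F a).1 Y) b := by
    intro Y a b
    rw [RingHom.mapMatrix_apply, Matrix.map_apply, hM, Matrix.of_apply, map_sum]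
    rw [show Λ (grad (F a).1 Y) b = ((LinearMap.proj b : (Fin r → ℂ) →ₗ[ℂ] ℂ) ∘ₗ Λ)
      (grad (F a).1 Y) from rfl, dot_expand]
    refine Finset.sum_congr rfl fun j _ => ?_
    rw [map_mul, eval_C]
    rfl
  have h1 : ∀ t, (∀ i, ℓ i t ≠ 0) → eval (iv ℓ t) M.det = 0 := by
    intro t ht
    rw [RingHom.map_det, ← Matrix.exists_vecMul_eq_zero_iff]
    have h2 : ¬ LinearIndependent ℂ fun a => grad (F a).1 (iv ℓ t) := by
      intro hli
      have h3 := finrank_span_eq_card hli
      rw [Fintype.card_fin] at h3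
      have h4 : Submodule.span ℂ (Set.range fun a => grad (F a).1 (iv ℓ t)) ≤
          perp (LinearMap.range (tau ℓ t)) := by
        rw [Submodule.span_le]
        rintro _ ⟨a, rfl⟩
        rw [SetLike.mem_coe, mem_perp]
        rintro _ ⟨v, rfl⟩
        obtain ⟨m, hm, hX⟩ := (F a).2
        exact deriv_vanish ((vanish_iff hm).1 hX) ht v
      have h5 := Submodule.finrank_mono h4
      have h6 := finrank_perp (LinearMap.range (tau ℓ t))
      rw [LinearMap.finrank_range_of_inj (tau_injective hspan ht), Module.finrank_fin_fun] at h6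
      omega
    rw [Fintype.not_linearIndependent_iff] at h2
    obtain ⟨g, hg, i, hi⟩ := h2
    refine ⟨g, fun h => hi (congrFun h i), ?_⟩
    ext b
    have h3 := congrArg (fun z => Λ z b) hg
    simp only [map_sum, map_smul, map_zero, Finset.sum_apply, Pi.smul_apply, smul_eq_mul,
      Pi.zero_apply] at h3
    rw [Matrix.vecMul, dotProduct, Pi.zero_apply, ← h3]
    exact Finset.sum_congr rfl fun a _ => by rw [hMe]
  have h2 := vanish_any _ h1 hy
  rw [RingHom.map_det] at h2
  have h3 : (eval y.rep).mapMatrix M = 1 := by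
    ext a b
    rw [hMe]
    have h4 : grad (F a).1 y.rep = f a := hF a
    rw [h4, hΛf, Matrix.one_apply, Pi.single_apply]
    by_cases hab : a = b
    · rw [if_pos hab, if_pos hab.symm]
    · rw [if_neg hab, if_neg (Ne.symm hab)]
  rw [h3, Matrix.det_one] at h2
  exact one_ne_zero h2

/-- a point of the open part exists -/
theorem exists_open (hb : ∀ i, ℓ i ≠ 0) : ∃ t, ∀ i, ℓ i t ≠ 0 := by
  refine Module.Dual.exists_forall_ne_zero_of_forall_exists ℓ fun i => ?_
  by_contra h
  push Not at h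
  exact hb i (LinearMap.ext h)

theorem smooth_iff (hspan : Submodule.span ℂ (Set.range ℓ) = ⊤) (hb : ∀ i, ℓ i ≠ 0) {y : PP n} :
    IsSmoothPt (recip ℓ) y ↔ y ∈ recip ℓ ∧ finrank ℂ (tangentSpace (recip ℓ) y) = d + 1 := by
  constructor
  · rintro ⟨hy, hmin⟩
    obtain ⟨t, ht⟩ := exists_open hb
    have h1 := hmin _ (subset_closure' _ (mk_mem_S0 ht))
    rw [finrank_tangent hspan (mk_mem_S0 ht)] at h1
    exact ⟨hy, le_antisymm h1 (le_finrank_tangent hspan hy)⟩
  · rintro ⟨hy, hd⟩
    exact ⟨hy, fun y' hy' => by rw [hd]; exact le_finrank_tangent hspan hy'⟩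

end Pool.Agent.H94rl.Geo
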