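import Pool.Agent.H94_rl.Geom3

/-! The dual variety of a reciprocal linear space. -/

open Module MvPolynomial

namespace Pool.Agent.H94rl.Geo

variable {d n : ℕ} {ℓ : Fin (n + 1) → Dual ℂ (Fin (d + 1) → ℂ)}

theorem forms_ne_zero (hspan : Submodule.span ℂ (Set.range ℓ) = ⊤) (hconn : Connected ℓ) :
    ∀ i, ℓ i ≠ 0 := by
  rcases n with - | n
  · intro i hi
    have h1 : ∀ φ : Dual ℂ (Fin (d + 1) → ℂ), φ = 0 := by
      intro φ
      have hφ : φ ∈ Submodule.span ℂ (Set.range ℓ) := by rw [hspan]; trivial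
      have h2 : Set.range ℓ ⊆ {0} := by
        rintro _ ⟨j, rfl⟩
        have : j = i := Fin.ext (by omega)
        rw [this, hi]; rfl
      have h3 := Submodule.span_mono h2 hφ
      rw [Submodule.span_zero_singleton] at h3
      exact h3
    have h2 := LinearMap.congr_fun (h1 (LinearMap.proj 0)) (fun _ => (1 : ℂ))
    exact one_ne_zero h2
  · have h : Conn ℂ ℓ := hconn
    exact h.ne_zero

theorem sum_form (w : Fin (n + 1) → ℂ) : (∑ i, w i • ℓ i = 0) ↔ ∀ v, ∑ i, w i * ℓ i v = 0 := by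
  constructor
  · intro h v
    have := congrArg (fun f : Dual ℂ (Fin (d + 1) → ℂ) => f v) h
    simpa [LinearMap.sum_apply] using this
  · intro h
    apply LinearMap.ext
    intro v
    rw [LinearMap.sum_apply]
    simp only [LinearMap.smul_apply, smul_eq_mul, LinearMap.zero_apply]
    exact h v

/-- conormal vectors satisfy the discriminant -/
theorem conormal_zero {Δ : MvPolynomial (Fin (n + 1)) ℂ}
    (h1 : ∀ (w : Fin (n + 1) → ℂ) (t : Fin (d + 1) → ℂ), ℓ 0 t = 1 → (∑ i, w i • ℓ i = 0) →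
        eval (fun i => w i * (ℓ i t) ^ 2) Δ = 0) {t : Fin (d + 1) → ℂ} (ht : ∀ i, ℓ i t ≠ 0)
    {g : Fin (n + 1) → ℂ} (hg : ∀ v, ∑ j, g j * tau ℓ t v j = 0) : eval g Δ = 0 := by
  have h2 := h1 (fun j => (ℓ 0 t) ^ 2 * (g j * (ℓ j t)⁻¹ ^ 2)) ((ℓ 0 t)⁻¹ • t) (by
    rw [map_smul, smul_eq_mul, inv_mul_cancel₀ (ht 0)]) (by
    rw [sum_form]
    intro v
    have h3 := hg v
    simp only [tau_apply] at h3
    have h4 : ∀ j, (ℓ 0 t) ^ 2 * (g j * (ℓ j t)⁻¹ ^ 2) * ℓ j v =
        (ℓ 0 t) ^ 2 * (g j * ((ℓ j t)⁻¹ ^ 2 * ℓ j v)) := fun j => by ring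
    rw [Finset.sum_congr rfl fun j _ => h4 j, ← Finset.mul_sum, h3, mul_zero])
  have h3 : (fun i => (ℓ 0 t) ^ 2 * (g i * (ℓ i t)⁻¹ ^ 2) * (ℓ i ((ℓ 0 t)⁻¹ • t)) ^ 2) = g := by
    ext j
    rw [map_smul, smul_eq_mul]
    have := ht j
    have := ht 0
    field_simp
  rw [h3] at h2
  exact h2

theorem dual_recip (hspan : Submodule.span ℂ (Set.range ℓ) = ⊤) (hconn : Connected ℓ) :
    ∃ D : ℕ, (D : ℤ) = 2 ^ d * betaInv ℓ ∧ IsHypersurfaceOfDegree (dualVariety (recip ℓ)) D := by
  classical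
  have hb := forms_ne_zero hspan hconn
  obtain ⟨D, Δ, hD, hirr, hhom, hΔ1, hΔ2⟩ := exists_Delta ℓ hspan hb hconn
  refine ⟨D, hD, Δ, hirr, hhom, Set.Subset.antisymm ?_ ?_⟩
  · intro h hh
    refine hh Δ D hhom ?_
    rintro h ⟨y, hy, hyh⟩
    have hmem : h.rep ∈ Submodule.span ℂ
        (Set.range fun F : JJ (recip ℓ) => grad F.1 y.rep) := by
      rw [← perp_perp (Submodule.span ℂ _), ← tangent_perp, mem_perp]
      exact hyh
    rw [Finsupp.mem_span_range_iff_exists_finsupp] at hmem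
    obtain ⟨c, hc⟩ := hmem
    set H : Fin (n + 1) → MvPolynomial (Fin (n + 1)) ℂ :=
      fun j => ∑ F ∈ c.support, C (c F) * pderiv j F.1 with hH
    have hHe : ∀ Y j, eval Y (H j) = ∑ F ∈ c.support, c F * grad F.1 Y j := by
      intro Y j
      rw [hH]
      simp only [map_sum, map_mul, eval_C]
      rfl
    have hQe : ∀ Y, eval Y (bind₁ H Δ) = eval (fun j => eval Y (H j)) Δ := by
      intro Y
      have := eval₂Hom_bind₁ (RingHom.id ℂ) Y H Δ
      exact this
    have h1 := vanish_any (ℓ := ℓ) (bind₁ H Δ) (by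
      intro t ht
      rw [hQe]
      refine conormal_zero hΔ1 ht fun v => ?_
      simp only [hHe]
      rw [Finset.sum_congr rfl fun j _ => Finset.sum_mul _ _ _, Finset.sum_comm]
      refine Finset.sum_eq_zero fun F _ => ?_
      obtain ⟨m, hm, hX⟩ := F.2
      have h2 := deriv_vanish ((vanish_iff hm).1 hX) ht v
      have h3 : ∀ j, c F * grad F.1 (iv ℓ t) j * tau ℓ t v j =
          c F * (eval (iv ℓ t) (pderiv j F.1) * ((ℓ j t)⁻¹ ^ 2 * ℓ j v)) := by
        intro j
        rw [tau_apply, mul_assoc]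
        rfl
      rw [Finset.sum_congr rfl fun j _ => h3 j, ← Finset.mul_sum, h2, mul_zero]) hy.1
    rw [hQe] at h1
    have h2 : (fun j => eval y.rep (H j)) = h.rep := by
      ext j
      rw [hHe, ← hc, Finsupp.sum, Finset.sum_apply]
      rfl
    rw [h2] at h1
    exact h1
  · intro h hh F m hF hS
    obtain ⟨i, hi⟩ : ∃ i, h.rep i ≠ 0 := by
      by_contra hall
      push Not at hall
      exact h.rep_nonzero (funext hall)
    have hdvd : Δ ∣ F * X i := by
      apply hΔ2
      intro w t ht hw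
      rw [map_mul, eval_X]
      by_cases hu : (fun i => w i * (ℓ i t) ^ 2) = 0
      · have := congrFun hu i
        simp only [Pi.zero_apply] at this
        rw [this, mul_zero]
      · obtain ⟨a, ha0, ha⟩ := rep_mk' hu
        obtain ⟨c, hc0, hc⟩ := rep_mk' (iv_ne_zero ht)
        have h1 := hS (Projectivization.mk ℂ _ hu)
          ⟨Projectivization.mk ℂ (iv ℓ t) (iv_ne_zero ht),
            (smooth_iff hspan hb).2 ⟨subset_closure' _ (mk_mem_S0 ht),
              finrank_tangent hspan (mk_mem_S0 ht)⟩, by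
              intro z hz
              rw [tangent_eq hspan ht hc0 hc] at hz
              obtain ⟨v, rfl⟩ := hz
              rw [ha]
              rw [sum_form] at hw
              have h2 : ∀ j, (a • fun i => w i * (ℓ i t) ^ 2) j * tau ℓ t v j =
                  a * (w j * ℓ j v) := by
                intro j
                rw [tau_apply, Pi.smul_apply, smul_eq_mul]
                have := ht j
                field_simp
              rw [Finset.sum_congr rfl fun j _ => h2 j, ← Finset.mul_sum, hw, mul_zero]⟩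
        rw [ha, eval_smul_zero hF ha0] at h1
        rw [h1, zero_mul]
    obtain ⟨G, hG⟩ := hdvd
    have h2 := congrArg (eval h.rep) hG
    have h3 : eval h.rep Δ = 0 := hh
    rw [map_mul, map_mul, eval_X, h3, zero_mul] at h2
    exact (mul_eq_zero.1 h2).resolve_right hi

end Pool.Agent.H94rl.Geo
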