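import Pool.Agent.H94_rl.Deriv

/-! The grading of the universal algebra. -/

open Module MvPolynomial

namespace Pool.Agent.H94rl

/-- homogeneous polynomials at scaled arguments -/
theorem aeval_scaled {k : Type} [Field k] {σ : Type} {B : Type} [CommRing B] [Algebra k B]
    (u : σ → B) (q : MvPolynomial σ k) (j : ℕ) (hq : q.IsHomogeneous j) :
    aeval (fun i => (Polynomial.X * Polynomial.C (u i) : Polynomial B)) q =
      Polynomial.X ^ j * Polynomial.C (aeval u q) := by
  classical
  rw [aeval_def, aeval_def, eval₂_eq, eval₂_eq, map_sum, Finset.mul_sum]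
  refine Finset.sum_congr rfl fun d hd => ?_
  have h1 : ∑ i ∈ d.support, d i = j := by
    have := hq (mem_support_iff.1 hd)
    rw [← this, Finsupp.weight_apply, Finsupp.sum]
    simp
  rw [← h1, map_mul, map_prod, ← Finset.prod_pow_eq_pow_sum]
  rw [Finset.prod_congr rfl fun i _ => mul_pow _ _ _, Finset.prod_mul_distrib]
  have h2 : (algebraMap k (Polynomial B)) (coeff d q) =
      Polynomial.C (algebraMap k B (coeff d q)) := rfl
  rw [h2]
  simp only [map_pow]
  ring

/-- homogeneity from divisibility -/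
theorem homogeneous_of_dvd {k : Type} [Field k] {σ : Type} {Δ : MvPolynomial σ k} (hΔ : Δ ≠ 0)
    (h : ∀ j, Δ ∣ homogeneousComponent j Δ) : Δ.IsHomogeneous Δ.totalDegree := by
  classical
  have h1 : ∀ j, j ≠ Δ.totalDegree → homogeneousComponent j Δ = 0 := by
    intro j hj
    by_contra h0
    rcases lt_or_gt_of_ne hj with hlt | hgt
    · obtain ⟨c, hc⟩ := h j
      have hc0 : c ≠ 0 := by rintro rfl; rw [mul_zero] at hc; exact h0 hc
      have h2 := totalDegree_mul_of_isDomain hΔ hc0
      rw [← hc, (homogeneousComponent_isHomogeneous j Δ).totalDegree h0] at h2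
      omega
    · exact h0 (homogeneousComponent_eq_zero _ _ hgt)
  have h2 := sum_homogeneousComponent Δ
  rw [Finset.sum_eq_single Δ.totalDegree (fun j _ hj => h1 j hj) (fun h3 => by
    exfalso; apply h3; simp)] at h2
  have h3 := homogeneousComponent_isHomogeneous Δ.totalDegree Δ
  rw [h2] at h3
  exact h3

section grading

variable {k : Type} [Field k] {V : Type} [AddCommGroup V] [Module k V]
variable {n : ℕ} {b : Fin (n + 1) → V} {A : Type} [CommRing A] [Algebra k A]
  {ww : Fin (n + 1) → A} {x : V →ₗ[k] A}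

theorem IsUniv.hom_components (h : IsUniv k (b 0) (fun i : Fin n => b i.succ) A
      (fun i : Fin n => ww i.succ) x) (hf : Full k b ww) (hb0 : b 0 ≠ 0)
    (q : MvPolynomial (Fin (n + 1)) k) (hq : aeval (fun i => ww i * x (b i) ^ 2) q = 0) (j : ℕ) :
    aeval (fun i => ww i * x (b i) ^ 2) (homogeneousComponent j q) = 0 := by
  classical
  set u : Fin (n + 1) → A := fun i => ww i * x (b i) ^ 2 with hu
  let Cl : A →ₗ[k] Polynomial A := (Polynomial.CAlgHom (R := k) (A := A)).toLinearMap
  have hCl : ∀ y, Cl y = Polynomial.C y := fun y => rfl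
  obtain ⟨Θ, hΘ1, hΘ2⟩ := h.lift (Polynomial A) (fun i => Polynomial.X * Polynomial.C (ww i.succ))
    (Cl ∘ₗ x) (by rw [LinearMap.comp_apply, hCl, h.x0, map_one]) (by
      intro φ hφ
      have h1 := congrArg Cl (h.rel φ hφ)
      rw [map_sum, map_zero] at h1
      have h2 : ∀ i : Fin n, φ (b i.succ) • (Polynomial.X * Polynomial.C (ww i.succ)) =
          Polynomial.X * Cl (φ (b i.succ) • ww i.succ) := by
        intro i; rw [map_smul, hCl, mul_smul_comm]
      rw [Finset.sum_congr rfl fun i _ => h2 i, ← Finset.mul_sum, h1, mul_zero])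
  have hΘx : ∀ v, Θ (x v) = Polynomial.C (x v) := fun v => hΘ2 v
  have hΘw : ∀ i, Θ (ww i) = Polynomial.X * Polynomial.C (ww i) := by
    intro i
    refine Fin.cases ?_ hΘ1 i
    obtain ⟨ζ, hζ, -⟩ := exists_dual_one (k := k) (Z := ⊥) (v := b 0) (by simpa using hb0)
    have h4 := hf ζ
    rw [Fin.sum_univ_succ, hζ, one_smul] at h4
    have h5 := congrArg Θ h4
    have h6 := congrArg (fun y => Polynomial.X * Cl y) h4
    simp only [map_add, map_sum, map_zero, mul_zero, map_smul] at h5 h6
    rw [mul_add, Finset.mul_sum] at h6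
    have h7 : ∀ i : Fin n, ζ (b i.succ) • Θ (ww i.succ) =
        Polynomial.X * ζ (b i.succ) • Cl (ww i.succ) := by
      intro i; rw [hΘ1, hCl, mul_smul_comm]
    rw [Finset.sum_congr rfl fun i _ => h7 i] at h5
    exact add_right_cancel (h5.trans h6.symm)
  have hΘu : ∀ i, Θ (u i) = Polynomial.X * Polynomial.C (u i) := by
    intro i
    rw [hu]
    simp only [map_mul, map_pow, hΘw, hΘx]
    ring
  have h1 : ∀ p : MvPolynomial (Fin (n + 1)) k, Θ (aeval u p) =
      aeval (fun i => (Polynomial.X * Polynomial.C (u i) : Polynomial A)) p := by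
    intro p
    have : Θ.comp (aeval u : MvPolynomial (Fin (n + 1)) k →ₐ[k] A) =
        aeval (fun i => (Polynomial.X * Polynomial.C (u i) : Polynomial A)) := by
      ext i
      rw [AlgHom.comp_apply, aeval_X, aeval_X, hΘu]
    exact DFunLike.congr_fun this p
  by_cases hj : q.totalDegree < j
  · rw [homogeneousComponent_eq_zero _ _ hj, map_zero]
  have h2 := h1 q
  rw [hq, map_zero] at h2
  conv_rhs at h2 => rw [← sum_homogeneousComponent q, map_sum]
  rw [Finset.sum_congr rfl fun i _ => aeval_scaled u (homogeneousComponent i q) i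
    (homogeneousComponent_isHomogeneous i q)] at h2
  have h3 := congrArg (fun y => Polynomial.coeff y j) h2
  simp only [Polynomial.coeff_zero, Polynomial.finsetSum_coeff] at h3
  rw [Finset.sum_eq_single j (fun i _ hij => by
    rw [mul_comm, Polynomial.coeff_C_mul, Polynomial.coeff_X_pow, if_neg (Ne.symm hij), mul_zero])
    (fun h4 => by exfalso; apply h4; rw [Finset.mem_range]; omega)] at h3
  rw [mul_comm, Polynomial.coeff_C_mul, Polynomial.coeff_X_pow, if_pos rfl, mul_one] at h3
  exact h3.symm

end grading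

end Pool.Agent.H94rl
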