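import Pool.Agent.H94_rl.Val

/-! There is only one layer. -/

open Module MvPolynomial

namespace Pool.Agent.H94rl

variable {k : Type} [Field k] {Ω : Type} [Field Ω] [Algebra k Ω]
variable {V : Type} [AddCommGroup V] [Module k V] {ι : Type} [Fintype ι]

/-- The vectors `a i`, `i ∈ T`, have valuation one. -/
theorem no_layer (O : ValuationSubring Ω) (hk : ∀ c : k, algebraMap k Ω c ∈ O) (x : V →ₗ[k] Ω)
    (a0 : V) (a : ι → V) (hx0 : x a0 = 1) (w0 : Ω) (w : ι → Ω)
    (hrel : ∀ φ : Dual k V, φ a0 • w0 + ∑ i, φ (a i) • w i = 0)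
    (hp : ∀ i, O.valuation (w i * x (a i) ^ 2) ≤ 1)
    (T : Set ι) (hT : ∀ i, i ∉ T → O.valuation (w i * x (a i) ^ 2) < 1)
    (hgood : ∀ f : MvPolynomial T k, f ≠ 0 →
      O.valuation (aeval (fun i : T => w i * x (a i) ^ 2) f) = 1)
    (i1 : ι) (hi1 : i1 ∈ T) : O.valuation (x (a i1)) = 1 := by
  classical
  by_contra hγ
  set v := O.valuation with hv
  set d := x (a i1) with hd
  set γ := v d with hγd
  have hpi : ∀ i ∈ T, v (w i * x (a i) ^ 2) = 1 := by
    intro i hi
    have := hgood (X ⟨i, hi⟩) (X_ne_zero _)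
    rwa [aeval_X] at this
  have hγ0 : γ ≠ 0 := by
    intro h
    have h1 := hpi i1 hi1
    rw [map_mul, map_pow, ← hd, ← hγd, h, zero_pow two_ne_zero, mul_zero] at h1
    exact zero_ne_one h1
  have hd0 : d ≠ 0 := fun h => hγ0 (by rw [hγd, h, map_zero])
  -- large valuations
  have hbig : ∀ i, γ < v (x (a i)) → v (w i * d ^ 2) < 1 := by
    intro i hi
    rw [map_mul, map_pow, ← hγd]
    have h1 := hp i
    rw [map_mul, map_pow] at h1
    by_cases hw : v (w i) = 0
    · rw [hw, zero_mul]; exact zero_lt_one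
    · refine lt_of_lt_of_le ?_ h1
      have h2 : γ ^ 2 < v (x (a i)) ^ 2 := pow_lt_pow_left₀ hi (zero_le) two_ne_zero
      exact mul_lt_mul_of_pos_left h2 (zero_lt_iff.2 hw)
  have heq : ∀ i, v (x (a i)) = γ → v (w i * d ^ 2) = v (w i * x (a i) ^ 2) := by
    intro i hi
    rw [map_mul, map_pow, map_mul, map_pow, hi]
  set Z := Vlt O hk x hγ0 with hZ
  have hmemZ : ∀ u, u ∈ Z ↔ v (x u) < γ := fun u => Iff.rfl
  -- the coefficient of `a0`
  have hw0 : ∀ φ : Dual k V, (∀ z ∈ Z, φ z = 0) → v (φ a0 • (w0 * d ^ 2)) < 1 := by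
    intro φ hφ
    rcases lt_or_gt_of_ne hγ with h | h
    · have hle : a0 ∉ Vle O hk x γ := by
        intro h1
        have h2 : v (x a0) ≤ γ := h1
        rw [hx0, map_one] at h2
        exact absurd h2 (not_le.2 h)
      obtain ⟨ψ, hψ1, hψ0⟩ := exists_dual_one (k := k) hle
      have h1 := hrel ψ
      rw [hψ1, one_smul] at h1
      have h2 : w0 * d ^ 2 = - ∑ i, ψ (a i) • (w i * d ^ 2) := by
        rw [eq_neg_of_add_eq_zero_left h1, neg_mul, Finset.sum_mul]
        congr 1
        exact Finset.sum_congr rfl fun i _ => by rw [smul_mul_assoc]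
      refine (val_smul_le O hk _ _).trans_lt ?_
      rw [h2, Valuation.map_neg]
      refine Valuation.map_sum_lt _ one_ne_zero fun i _ => ?_
      by_cases h3 : v (x (a i)) ≤ γ
      · rw [hψ0 _ h3, zero_smul, map_zero]; exact zero_lt_one
      · exact (val_smul_le O hk _ _).trans_lt (hbig i (not_le.1 h3))
    · have : a0 ∈ Z := by
        rw [hmemZ, hx0, map_one]; exact h
      rw [hφ _ this, zero_smul, map_zero]; exact zero_lt_one
  set J := {i : ι // i ∈ T ∧ v (x (a i)) = γ} with hJ
  let _ : Algebra k (IsLocalRing.ResidueField O) := (resHom O hk).toAlgebra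
  have hsm : ∀ (c : k) (z : IsLocalRing.ResidueField O), c • z = rr O (algebraMap k Ω c) * z := by
    intro c z
    rw [← resHom_apply O hk]
    rfl
  have hrs : ∀ (c : k) {z : Ω}, z ∈ O → rr O (c • z) = c • rr O z := by
    intro c z hz
    rw [hsm, Algebra.smul_def, rr_mul O (hk c) hz]
  have hdiv : ∀ u ∈ Vle O hk x γ, x u / d ∈ O := by
    intro u hu
    rw [← O.valuation_le_one_iff, map_div₀]
    exact (div_le_one₀ (zero_lt_iff.2 hγ0)).2 hu
  set Λ0 : Vle O hk x γ →ₗ[k] IsLocalRing.ResidueField O :=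
    { toFun := fun u => rr O (x u / d)
      map_add' := fun u u' => by
        rw [Submodule.coe_add, map_add, add_div, rr_add O (hdiv u u.2) (hdiv u' u'.2)]
      map_smul' := fun c u => by
        rw [Submodule.coe_smul, map_smul, smul_div_assoc, hrs c (hdiv u u.2), RingHom.id_apply] }
    with hΛ0
  obtain ⟨Λ, hΛ⟩ := LinearMap.exists_extend Λ0
  have hΛa : ∀ u, v (x u) ≤ γ → Λ u = rr O (x u / d) := by
    intro u hu
    exact LinearMap.congr_fun hΛ ⟨u, hu⟩
  refine not_algInd (k := k) (κ := IsLocalRing.ResidueField O) (J := J) (fun j => a j) Z Λ ?_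
    (fun j => rr O (w j * d ^ 2)) ?_ ⟨i1, hi1, rfl⟩ ?_ ?_
  · intro z hz
    rw [hΛa z ((hmemZ z).1 hz).le]
    apply rr_eq_zero'
    rw [← hv, map_div₀]
    exact (div_lt_one₀ (zero_lt_iff.2 hγ0)).2 hz
  · intro φ hφ
    have h1 : φ a0 • (w0 * d ^ 2) + ∑ i, φ (a i) • (w i * d ^ 2) = 0 := by
      have := congrArg (· * d ^ 2) (hrel φ)
      simp only [add_mul, Finset.sum_mul, zero_mul, smul_mul_assoc] at this
      exact this
    have hterm : ∀ i, φ (a i) • (w i * d ^ 2) ∈ O := by
      intro i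
      rw [← O.valuation_le_one_iff]
      rcases lt_trichotomy (v (x (a i))) γ with h | h | h
      · rw [hφ _ h, zero_smul, map_zero]; exact zero_le
      · exact (val_smul_le O hk _ _).trans ((heq i h).trans_le (hp i))
      · exact ((val_smul_le O hk _ _).trans_lt (hbig i h)).le
    have h2 := congrArg (rr O) h1
    rw [rr_add O ((O.valuation_le_one_iff _).1 (hw0 φ hφ).le) (sum_mem fun i _ => hterm i),
      rr_eq_zero' O (hw0 φ hφ), zero_add, rr_sum O _ fun i _ => hterm i, rr_zero] at h2
    rw [← h2, ← Finset.sum_filter_add_sum_filter_not Finset.univ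
      (fun i => i ∈ T ∧ v (x (a i)) = γ)]
    have h3 : ∑ i ∈ Finset.univ.filter (fun i => ¬ (i ∈ T ∧ v (x (a i)) = γ)),
        rr O (φ (a i) • (w i * d ^ 2)) = 0 := by
      refine Finset.sum_eq_zero fun i hi => ?_
      rw [Finset.mem_filter] at hi
      rcases lt_trichotomy (v (x (a i))) γ with h | h | h
      · rw [hφ _ h, zero_smul, rr_zero]
      · have h4 : i ∉ T := fun h5 => hi.2 ⟨h5, h⟩
        apply rr_eq_zero'
        exact (val_smul_le O hk _ _).trans_lt ((heq i h).trans_lt (hT i h4))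
      · apply rr_eq_zero'
        exact (val_smul_le O hk _ _).trans_lt (hbig i h)
    rw [h3, add_zero, ← Finset.sum_subtype_eq_sum_filter]
    simp only [Finset.subtype_univ]
    refine Finset.sum_congr rfl fun j _ => ?_
    rw [hrs]
    rw [← O.valuation_le_one_iff]
    exact (heq j j.2.2).trans_le (hp j)
  · rw [hΛa _ le_rfl, ← hd, div_self hd0, rr_one]
  · have hz : ∀ j : J, rr O (w j * d ^ 2) * Λ (a j) ^ 2 = rr O (w j * x (a j) ^ 2) := by
      intro j
      have h1 : w j * d ^ 2 ∈ O := by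
        rw [← O.valuation_le_one_iff]
        exact (heq j j.2.2).trans_le (hp j)
      have h2 : x (a j) / d ∈ O := hdiv _ j.2.2.le
      have h3 : rr O (x (a j) / d) ^ 2 = rr O (x (a j) / d * (x (a j) / d)) := by
        rw [sq, rr_mul O h2 h2]
      rw [hΛa _ j.2.2.le, h3, ← rr_mul O h1 (mul_mem h2 h2)]
      congr 1
      field_simp
    simp only [hz]
    rw [algebraicIndependent_iff]
    intro f hf
    by_contra hf0
    have hpO : ∀ j : J, w j * x (a j) ^ 2 ∈ O := fun j => (O.valuation_le_one_iff _).1 (hp j)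
    set E : MvPolynomial J k →+* O := eval₂Hom ((algebraMap k Ω).codRestrict O.toSubring hk)
      (fun j => ⟨w j * x (a j) ^ 2, hpO j⟩) with hE
    have hE1 : ∀ g, ((E g : O) : Ω) = aeval (fun j : J => w j * x (a j) ^ 2) g := by
      intro g
      have : (O.subtype.comp E) = (aeval (fun j : J => w j * x (a j) ^ 2) :
          MvPolynomial J k →ₐ[k] Ω).toRingHom := by
        apply MvPolynomial.ringHom_ext
        · intro c; simp [hE]
        · intro j; simp [hE]
      exact RingHom.congr_fun this g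
    have hE2 : ∀ g, IsLocalRing.residue O (E g) =
        aeval (fun j : J => rr O (w j * x (a j) ^ 2)) g := by
      intro g
      have : ((IsLocalRing.residue O).comp E) = (aeval (fun j : J => rr O (w j * x (a j) ^ 2)) :
          MvPolynomial J k →ₐ[k] IsLocalRing.ResidueField O).toRingHom := by
        apply MvPolynomial.ringHom_ext
        · intro c; simp [hE]; rfl
        · intro j; simp [hE, rr_of_mem O (hpO j)]
      exact RingHom.congr_fun this g
    rw [← hE2, IsLocalRing.residue_eq_zero_iff, O.valuation_lt_one_iff, hE1] at hf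
    have h3 := hgood (rename (fun j : J => (⟨j, j.2.1⟩ : T)) f) (by
      rw [Ne, ← map_zero (rename (R := k) (fun j : J => (⟨j, j.2.1⟩ : T)))]
      intro h
      refine hf0 (rename_injective _ ?_ h)
      intro j j' h
      exact Subtype.ext (congrArg (fun z : T => (z : ι)) h))
    rw [aeval_rename] at h3
    exact hf.ne h3

end Pool.Agent.H94rl
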