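import Pool.Agent.H94_rl.Model

/-! The algebraic dependence of the elements `ω j * Λ (b j) ^ 2`. -/

open Module MvPolynomial

namespace Pool.Agent.H94rl

variable {k : Type} [Field k]

/-- spanning case -/
theorem not_algInd_aux {U : Type} [AddCommGroup U] [Module k U] {κ : Type} [Field κ]
    [Algebra k κ] {J : Type} [Fintype J] (b : J → U) (hspan : Submodule.span k (Set.range b) = ⊤)
    (Λ : U →ₗ[k] κ) (ω : J → κ) (hω : ∀ φ : Dual k U, ∑ j, φ (b j) • ω j = 0) (j1 : J)
    (h1 : Λ (b j1) = 1) : ¬ AlgebraicIndependent k (fun j => ω j * Λ (b j) ^ 2) := by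
  classical
  intro hind
  have : FiniteDimensional k U := by
    refine ⟨?_⟩
    rw [← hspan]
    exact Submodule.fg_span (Set.finite_range b)
  have h0 : b j1 ≠ 0 := by
    intro h; rw [h, map_zero] at h1; exact zero_ne_one h1
  set a : {j // j ≠ j1} → U := fun i => b i with ha
  have hsum : ∀ (f : J → κ), ∑ j, f j = f j1 + ∑ i : {j // j ≠ j1}, f i := by
    intro f
    rw [Fintype.sum_eq_add_sum_subtype_ne f j1]
  have hrel : Rel k (b j1) a (fun i : {j // j ≠ j1} => ω i) := by
    intro φ hφ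
    have h2 := hω φ
    rw [hsum, hφ, zero_smul, zero_add] at h2
    exact h2
  obtain ⟨ζ, hζ, -⟩ := exists_dual_one (k := k) (Z := ⊥) (v := b j1) (by simpa using h0)
  obtain ⟨F, hF1, hF2⟩ := model_lift k (b j1) a hζ κ _ Λ h1 hrel
  obtain ⟨w0, hw0⟩ := (mw_rel k (b j1) a).exists_full (k := k) h0
  have hFw0 : F w0 = ω j1 := by
    have h2 := congrArg F (hw0 ζ)
    rw [map_add, map_smul, map_sum, map_zero, hζ, one_smul] at h2
    simp only [map_smul, hF1] at h2
    have h3 := hω ζ
    rw [hsum, hζ, one_smul] at h3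
    exact add_right_cancel (h2.trans h3.symm)
  set G : J → MvPolynomial (Idx k (b j1) a) k := fun j =>
    if h : j = j1 then w0 else mw k (b j1) a ⟨j, h⟩ * mx k (b j1) a ζ (b j) ^ 2 with hG
  have hFG : (F ∘ G) = fun j => ω j * Λ (b j) ^ 2 := by
    funext j
    by_cases h : j = j1
    · subst h
      simp [hG, hFw0, h1]
    · simp [hG, h, hF1, hF2]
  rw [← hFG] at hind
  have h3 := hind.of_comp F
  have h4 := h3.lift_cardinalMk_le_trdeg
  rw [MvPolynomial.trdeg_of_isDomain] at h4
  simp only [Cardinal.mk_fintype, Cardinal.lift_natCast, Nat.cast_le, Cardinal.lift_id] at h4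
  rw [card_idx k (b j1) a] at h4
  · rw [Fintype.card_subtype_compl, Fintype.card_subtype_eq] at h4
    have : 0 < Fintype.card J := Fintype.card_pos_iff.2 ⟨j1⟩
    omega
  · rw [eq_top_iff, ← hspan]
    apply Submodule.span_mono
    rintro _ ⟨j, rfl⟩
    by_cases h : j = j1
    · subst h; exact Or.inl rfl
    · exact Or.inr ⟨⟨j, h⟩, rfl⟩

theorem not_algInd {V : Type} [AddCommGroup V] [Module k V] {κ : Type} [Field κ]
    [Algebra k κ] {J : Type} [Fintype J] (b : J → V) (Z : Submodule k V)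
    (Λ : V →ₗ[k] κ) (hΛ : ∀ z ∈ Z, Λ z = 0) (ω : J → κ)
    (hω : ∀ φ : Dual k V, (∀ z ∈ Z, φ z = 0) → ∑ j, φ (b j) • ω j = 0) (j1 : J)
    (h1 : Λ (b j1) = 1) : ¬ AlgebraicIndependent k (fun j => ω j * Λ (b j) ^ 2) := by
  set U := Submodule.span k (Set.range (fun j => (Submodule.Quotient.mk (b j) : V ⧸ Z))) with hU
  set b' : J → U := fun j => ⟨Submodule.Quotient.mk (b j), Submodule.subset_span ⟨j, rfl⟩⟩
    with hb'
  have hspan : Submodule.span k (Set.range b') = ⊤ := by
    rw [eq_top_iff]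
    rintro ⟨z, hz⟩ -
    have h2 : z ∈ (Submodule.span k (Set.range b')).map U.subtype := by
      rw [Submodule.map_span, ← Set.range_comp]
      exact hz
    obtain ⟨y, hy, rfl⟩ := h2
    exact hy
  set Λ' : U →ₗ[k] κ := (Submodule.liftQ Z Λ hΛ) ∘ₗ U.subtype with hΛ'
  have h2 : ∀ j, Λ' (b' j) = Λ (b j) := fun j => rfl
  have := not_algInd_aux (k := k) b' hspan Λ' ω (by
    intro φ
    obtain ⟨g, hg⟩ := LinearMap.exists_extend φ
    have h3 := hω (g ∘ₗ Submodule.mkQ Z) (by
      intro z hz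
      rw [LinearMap.comp_apply, Submodule.mkQ_apply, (Submodule.Quotient.mk_eq_zero Z).2 hz,
        map_zero])
    rw [← h3]
    refine Finset.sum_congr rfl fun j _ => ?_
    congr 1
    exact (LinearMap.congr_fun hg (b' j)).symm) j1 (by rw [h2]; exact h1)
  simpa only [h2] using this

end Pool.Agent.H94rl
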