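import Pool.Agent.H94_rl.Model

/-! Deletion and contraction of the universal algebras. -/

open Module

namespace Pool.Agent.H94rl

variable {k : Type} [Field k] {V : Type} [AddCommGroup V] [Module k V]

theorem IsUniv.del {n : ℕ} {a0 : V} {a : Fin (n + 1) → V} {A : Type} [CommRing A] [Algebra k A]
    {w : Fin (n + 1) → A} {x : V →ₗ[k] A} (h : IsUniv k a0 a A w x) :
    IsUniv k a0 (fun i : Fin n => a i.succ) (A ⧸ Ideal.span {w 0})
      (fun i => Ideal.Quotient.mkₐ k (Ideal.span {w 0}) (w i.succ))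
      ((Ideal.Quotient.mkₐ k (Ideal.span {w 0})).toLinearMap ∘ₗ x) := by
  set q := Ideal.Quotient.mkₐ k (Ideal.span {w 0}) with hq
  have hq0 : q (w 0) = 0 := by
    rw [hq, Ideal.Quotient.mkₐ_eq_mk, Ideal.Quotient.eq_zero_iff_mem]
    exact Ideal.mem_span_singleton_self _
  refine ⟨?_, ?_, ?_, ?_⟩
  · simp [h.x0]
  · intro φ hφ
    have h1 := congrArg q (h.rel φ hφ)
    rw [map_sum, Fin.sum_univ_succ, map_zero] at h1
    simp only [map_smul, hq0, smul_zero, zero_add] at h1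
    exact h1
  · intro B _ _ w' x' hx hw
    obtain ⟨F, hF1, hF2⟩ := h.lift B (Fin.cons 0 w') x' hx (by
      intro φ hφ
      rw [Fin.sum_univ_succ]
      simp only [Fin.cons_zero, smul_zero, zero_add, Fin.cons_succ]
      exact hw φ hφ)
    refine ⟨Ideal.Quotient.liftₐ (Ideal.span {w 0}) F ?_, ?_, ?_⟩
    · intro y hy
      obtain ⟨c, rfl⟩ := Ideal.mem_span_singleton.1 hy
      rw [map_mul, hF1, Fin.cons_zero, zero_mul]
    · intro i
      change F (w i.succ) = w' i
      rw [hF1, Fin.cons_succ]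
    · intro v
      change F (x v) = x' v
      rw [hF2]
  · rw [eq_top_iff]
    have h1 : (⊤ : Subalgebra k (A ⧸ Ideal.span {w 0})) = (⊤ : Subalgebra k A).map q := by
      rw [Algebra.map_top, eq_comm, AlgHom.range_eq_top]
      exact Ideal.Quotient.mkₐ_surjective _ _
    rw [h1, ← h.gen, AlgHom.map_adjoin, Algebra.adjoin_le_iff]
    rintro _ ⟨_, ⟨i, rfl⟩ | ⟨v, rfl⟩, rfl⟩
    · refine Fin.cases ?_ (fun j => ?_) i
      · rw [hq0]; exact Subalgebra.zero_mem _
      · exact Algebra.subset_adjoin (Or.inl ⟨j, rfl⟩)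
    · exact Algebra.subset_adjoin (Or.inr ⟨v, rfl⟩)

theorem IsUniv.con {n : ℕ} {a0 : V} {a : Fin (n + 1) → V} {A : Type} [CommRing A] [Algebra k A]
    {w : Fin (n + 1) → A} {x : V →ₗ[k] A} (h : IsUniv k a0 a A w x)
    (hpar : a 0 ∉ (k ∙ a0)) :
    ∃ x' : (V ⧸ (k ∙ a 0)) →ₗ[k] (A ⧸ Ideal.span {x (a 0)}),
      (∀ v, x' (Submodule.Quotient.mk v) = Ideal.Quotient.mkₐ k (Ideal.span {x (a 0)}) (x v)) ∧
      IsUniv k (Submodule.Quotient.mk a0 : V ⧸ (k ∙ a 0))
      (fun i : Fin n => (Submodule.Quotient.mk (a i.succ) : V ⧸ (k ∙ a 0)))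
      (A ⧸ Ideal.span {x (a 0)})
      (fun i => Ideal.Quotient.mkₐ k (Ideal.span {x (a 0)}) (w i.succ)) x' := by
  set q := Ideal.Quotient.mkₐ k (Ideal.span {x (a 0)}) with hq
  have hq0 : q (x (a 0)) = 0 := by
    rw [hq, Ideal.Quotient.mkₐ_eq_mk, Ideal.Quotient.eq_zero_iff_mem]
    exact Ideal.mem_span_singleton_self _
  obtain ⟨ψ, hψ1, hψ0⟩ := exists_dual_one (k := k) hpar
  have hψ0' : ψ a0 = 0 := hψ0 _ (Submodule.mem_span_singleton_self a0)
  refine ⟨Submodule.liftQ (k ∙ a 0) (q.toLinearMap ∘ₗ x) ?_, ?_, ?_, ?_, ?_, ?_⟩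
  · rw [Submodule.span_singleton_le_iff_mem, LinearMap.mem_ker, LinearMap.comp_apply]
    exact hq0
  · intro v
    rfl
  · rw [Submodule.liftQ_apply]
    simp [h.x0]
  · intro φ hφ
    have h1 := congrArg q (h.rel (φ ∘ₗ Submodule.mkQ (k ∙ a 0)) (by simpa using hφ))
    rw [map_sum, Fin.sum_univ_succ, map_zero] at h1
    have h2 : (Submodule.Quotient.mk (a 0) : V ⧸ (k ∙ a 0)) = 0 := by
      rw [Submodule.Quotient.mk_eq_zero]; exact Submodule.mem_span_singleton_self _
    simpa [h2] using h1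
  · intro B _ _ w' x' hx hw
    obtain ⟨F, hF1, hF2⟩ := h.lift B (Fin.cons (-∑ i : Fin n, ψ (a i.succ) • w' i) w')
      (x' ∘ₗ Submodule.mkQ (k ∙ a 0)) hx (by
      intro φ hφ
      rw [Fin.sum_univ_succ]
      simp only [Fin.cons_zero, Fin.cons_succ]
      have h1 : (k ∙ a 0) ≤ LinearMap.ker (φ - φ (a 0) • ψ) := by
        rw [Submodule.span_singleton_le_iff_mem, LinearMap.mem_ker]
        simp [hψ1]
      have h2 := hw (Submodule.liftQ (k ∙ a 0) (φ - φ (a 0) • ψ) h1) (by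
        rw [Submodule.liftQ_apply]
        simp [hφ, hψ0'])
      simp only [Submodule.liftQ_apply, LinearMap.sub_apply,
        LinearMap.smul_apply, sub_smul, Finset.sum_sub_distrib, smul_eq_mul, mul_smul,
        ← Finset.smul_sum] at h2
      rw [smul_neg, neg_add_eq_sub]
      exact h2)
    refine ⟨Ideal.Quotient.liftₐ (Ideal.span {x (a 0)}) F ?_, ?_, ?_⟩
    · intro y hy
      obtain ⟨c, rfl⟩ := Ideal.mem_span_singleton.1 hy
      rw [map_mul, hF2]
      have h2 : (Submodule.mkQ (k ∙ a 0)) (a 0) = 0 := by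
        rw [Submodule.mkQ_apply, Submodule.Quotient.mk_eq_zero]
        exact Submodule.mem_span_singleton_self _
      rw [LinearMap.comp_apply, h2, map_zero, zero_mul]
    · intro i
      change F (w i.succ) = w' i
      rw [hF1, Fin.cons_succ]
    · intro v
      obtain ⟨v, rfl⟩ := Submodule.mkQ_surjective (k ∙ a 0) v
      change F (x v) = x' (Submodule.mkQ (k ∙ a 0) v)
      rw [hF2]
      rfl
  · rw [eq_top_iff]
    have h1 : (⊤ : Subalgebra k (A ⧸ Ideal.span {x (a 0)})) = (⊤ : Subalgebra k A).map q := by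
      rw [Algebra.map_top, eq_comm, AlgHom.range_eq_top]
      exact Ideal.Quotient.mkₐ_surjective _ _
    rw [h1, ← h.gen, AlgHom.map_adjoin, Algebra.adjoin_le_iff]
    have hmem : ∀ i : Fin n, q (w i.succ) ∈ Algebra.adjoin k
        (Set.range (fun i : Fin n => q (w i.succ)) ∪ Set.range ⇑(Submodule.liftQ (k ∙ a 0)
          (q.toLinearMap ∘ₗ x) (by
            rw [Submodule.span_singleton_le_iff_mem, LinearMap.mem_ker, LinearMap.comp_apply]
            exact hq0))) := fun i => Algebra.subset_adjoin (Or.inl ⟨i, rfl⟩)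
    rintro _ ⟨_, ⟨i, rfl⟩ | ⟨v, rfl⟩, rfl⟩
    · refine Fin.cases ?_ (fun j => hmem j) i
      have h2 := congrArg q (h.rel ψ hψ0')
      rw [map_sum, Fin.sum_univ_succ, map_zero, hψ1, one_smul] at h2
      rw [eq_neg_of_add_eq_zero_left h2]
      refine neg_mem (sum_mem fun j _ => ?_)
      rw [map_smul]
      exact Subalgebra.smul_mem _ (hmem j) _
    · refine Algebra.subset_adjoin (Or.inr ⟨Submodule.mkQ _ v, ?_⟩)
      rw [Submodule.mkQ_apply, Submodule.liftQ_apply]
      rfl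

end Pool.Agent.H94rl
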