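import Mathlib

/-! The generic point of the conormal variety: universal pairs `(w, x)`. -/

open MvPolynomial Module

namespace Pool.Agent.H94rl

variable (k : Type) [Field k] {V : Type} [AddCommGroup V] [Module k V]
variable {ι : Type} [Fintype ι]

/-- `w` is a linear relation of the vectors `a i` modulo `a0`. -/
def Rel (a0 : V) (a : ι → V) {B : Type} [CommRing B] [Algebra k B] (w : ι → B) : Prop :=
  ∀ φ : Dual k V, φ a0 = 0 → ∑ i, φ (a i) • w i = 0

/-- `(w, x)` is the universal pair: `x` is a linear form with `x a0 = 1` and `w` a relation of the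
`a i` modulo `a0`. -/
structure IsUniv (a0 : V) (a : ι → V) (A : Type) [CommRing A] [Algebra k A] (w : ι → A)
    (x : V →ₗ[k] A) : Prop where
  x0 : x a0 = 1
  rel : Rel k a0 a w
  lift : ∀ (B : Type) [CommRing B] [Algebra k B] (w' : ι → B) (x' : V →ₗ[k] B), x' a0 = 1 →
    Rel k a0 a w' → ∃ F : A →ₐ[k] B, (∀ i, F (w i) = w' i) ∧ ∀ v, F (x v) = x' v
  gen : Algebra.adjoin k (Set.range w ∪ Set.range x) = ⊤

/-- the sum map modulo `a0` -/
noncomputable def sumMap (a0 : V) (a : ι → V) : (ι → k) →ₗ[k] (V ⧸ (k ∙ a0)) :=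
  (Submodule.mkQ (k ∙ a0)).comp (Fintype.linearCombination k a)

/-- relations with coefficients in `k` -/
noncomputable def relK (a0 : V) (a : ι → V) : Submodule k (ι → k) := LinearMap.ker (sumMap k a0 a)

/-- index type of the variables -/
abbrev Idx (a0 : V) (a : ι → V) : Type :=
  Fin (finrank k (relK k a0 a)) ⊕ Fin (finrank k (V ⧸ (k ∙ a0)))


section explicit

variable (a0 : V) (a : ι → V)

variable [FiniteDimensional k V]

noncomputable def mw (i : ι) : MvPolynomial (Idx k a0 a) k :=
  ∑ j, C ((finBasis k (relK k a0 a) j : ι → k) i) * X (Sum.inl j)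

noncomputable def mx (ζ : Dual k V) : V →ₗ[k] MvPolynomial (Idx k a0 a) k where
  toFun v := C (ζ v) + ∑ j, C ((finBasis k (V ⧸ (k ∙ a0))).repr (Submodule.Quotient.mk v) j) *
    X (Sum.inr j)
  map_add' u v := by
    simp only [map_add, Submodule.Quotient.mk_add, Finsupp.add_apply, add_mul,
      Finset.sum_add_distrib]
    ring
  map_smul' c v := by
    simp only [map_smul, Submodule.Quotient.mk_smul, Finsupp.smul_apply, smul_eq_mul, map_mul,
      RingHom.id_apply, smul_add, Finset.smul_sum, MvPolynomial.smul_eq_C_mul]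
    congr 1
    exact Finset.sum_congr rfl fun j _ => by ring

omit [FiniteDimensional k V] in
theorem sumMap_single [DecidableEq ι] (i : ι) :
    sumMap k a0 a (Pi.single i (1 : k)) = Submodule.Quotient.mk (a i) := by
  simp [sumMap, Fintype.linearCombination_apply, Pi.single_apply, ite_smul]

theorem mw_rel : Rel k a0 a (mw k a0 a) := by
  intro φ hφ
  have h1 : ∀ c : relK k a0 a, ∑ i, φ (a i) * (c : ι → k) i = 0 := by
    rintro ⟨c, hc⟩
    have h2 : Fintype.linearCombination k a c ∈ (k ∙ a0) := by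
      have h3 : (Submodule.mkQ (k ∙ a0)) (Fintype.linearCombination k a c) = 0 := hc
      rwa [Submodule.mkQ_apply, Submodule.Quotient.mk_eq_zero] at h3
    obtain ⟨s, hs⟩ := Submodule.mem_span_singleton.1 h2
    have h4 := congrArg φ hs
    rw [map_smul, hφ, smul_zero, Fintype.linearCombination_apply, map_sum] at h4
    simp only [map_smul, smul_eq_mul] at h4
    rw [h4]
    exact Finset.sum_congr rfl fun i _ => mul_comm _ _
  unfold mw
  simp only [Finset.smul_sum, MvPolynomial.smul_eq_C_mul]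
  rw [Finset.sum_comm]
  refine Finset.sum_eq_zero fun j _ => ?_
  have h5 := h1 (finBasis k (relK k a0 a) j)
  have h6 : ∑ i, C (σ := Idx k a0 a) (φ (a i)) *
      (C ((finBasis k (relK k a0 a) j : ι → k) i) * X (Sum.inl j)) =
      C (∑ i, φ (a i) * (finBasis k (relK k a0 a) j : ι → k) i) * X (Sum.inl j) := by
    rw [map_sum, Finset.sum_mul]
    exact Finset.sum_congr rfl fun i _ => by rw [map_mul]; ring
  rw [h6, h5, map_zero, zero_mul]

omit [Fintype ι] [FiniteDimensional k V] in
theorem exists_proj [Fintype ι] : ∃ π : (ι → k) →ₗ[k] relK k a0 a, ∀ c : relK k a0 a, π c = c := by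
  obtain ⟨π, hπ⟩ := (relK k a0 a).subtype.exists_leftInverse_of_injective
    (Submodule.ker_subtype _)
  exact ⟨π, fun c => LinearMap.congr_fun hπ c⟩

/-- A relation with coefficients in an algebra is a combination of relations over `k`. -/
theorem rel_expand [DecidableEq ι] {B : Type} [CommRing B] [Algebra k B] {w : ι → B}
    (hw : Rel k a0 a w)
    (π : (ι → k) →ₗ[k] relK k a0 a) (hπ : ∀ c : relK k a0 a, π c = c) (i : ι) :
    ∑ l, (π (Pi.single l 1) : ι → k) i • w l = w i := by
  set ψ : Dual k (ι → k) := LinearMap.proj i - (LinearMap.proj i).comp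
    ((relK k a0 a).subtype.comp π) with hψ
  have h1 : ψ ∈ (LinearMap.ker (sumMap k a0 a)).dualAnnihilator := by
    rw [Submodule.mem_dualAnnihilator]
    intro c hc
    have h2 := hπ ⟨c, hc⟩
    have h3 : π c = ⟨c, hc⟩ := h2
    simp [hψ, h3]
  rw [← LinearMap.range_dualMap_eq_dualAnnihilator_ker] at h1
  obtain ⟨φ', hφ'⟩ := h1
  have h4 := hw (φ'.comp (Submodule.mkQ (k ∙ a0))) (by
    have : (Submodule.mkQ (k ∙ a0)) a0 = 0 := by
      rw [Submodule.mkQ_apply, Submodule.Quotient.mk_eq_zero]
      exact Submodule.mem_span_singleton_self a0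
    rw [LinearMap.comp_apply, this, map_zero])
  have h5 : ∀ l, (φ'.comp (Submodule.mkQ (k ∙ a0))) (a l) =
      (Pi.single l (1 : k) : ι → k) i - (π (Pi.single l 1) : ι → k) i := by
    intro l
    have h6 : φ' (sumMap k a0 a (Pi.single l (1 : k))) = ψ (Pi.single l 1) := by
      rw [← hφ']; rfl
    rw [sumMap_single] at h6
    rw [LinearMap.comp_apply, Submodule.mkQ_apply, h6, hψ]
    simp
  simp only [h5, sub_smul, Finset.sum_sub_distrib] at h4
  rw [sub_eq_zero] at h4
  rw [← h4]
  simp [Pi.single_apply, ite_smul]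

theorem model_lift {ζ : Dual k V} (hζ : ζ a0 = 1) (B : Type) [CommRing B] [Algebra k B]
    (w' : ι → B) (x' : V →ₗ[k] B) (hx : x' a0 = 1) (hw : Rel k a0 a w') :
    ∃ F : MvPolynomial (Idx k a0 a) k →ₐ[k] B,
      (∀ i, F (mw k a0 a i) = w' i) ∧ ∀ v, F (mx k a0 a ζ v) = x' v := by
  classical
  obtain ⟨π, hπ⟩ := exists_proj k a0 a
  have hsurj := Submodule.mkQ_surjective (k ∙ a0)
  choose s hs using hsurj
  set bW := finBasis k (V ⧸ (k ∙ a0)) with hbW
  set bN := finBasis k (relK k a0 a) with hbN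
  refine ⟨aeval (Sum.elim (fun j => ∑ l, (bN.repr (π (Pi.single l 1)) j) • w' l)
    (fun j => x' (s (bW j)) - algebraMap k B (ζ (s (bW j))))), ?_, ?_⟩
  · intro i
    rw [← rel_expand k a0 a hw π hπ i]
    unfold mw
    rw [map_sum]
    simp only [map_mul, aeval_C, aeval_X, Sum.elim_inl, Finset.mul_sum, ← hbN]
    rw [Finset.sum_comm]
    refine Finset.sum_congr rfl fun l _ => ?_
    have h1 : (π (Pi.single l 1) : ι → k) i =
        ∑ j, bN.repr (π (Pi.single l 1)) j * (bN j : ι → k) i := by
      have h2 := congrArg (fun y : relK k a0 a => (y : ι → k) i)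
        (bN.sum_repr (π (Pi.single l 1)))
      simp only [Submodule.coe_sum, Finset.sum_apply, Submodule.coe_smul, Pi.smul_apply,
        smul_eq_mul] at h2
      exact h2.symm
    rw [h1, Finset.sum_smul]
    refine Finset.sum_congr rfl fun j _ => ?_
    rw [← Algebra.smul_def, smul_smul, mul_comm]
  · intro v
    change aeval _ (C (ζ v) + ∑ j, C (bW.repr (Submodule.Quotient.mk v) j) *
      X (Sum.inr j)) = x' v
    rw [map_add, map_sum]
    simp only [map_mul, aeval_C, aeval_X, Sum.elim_inr]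
    set v' : V := ∑ j, bW.repr (Submodule.Quotient.mk v) j • s (bW j) with hv'
    have h1 : v - v' ∈ (k ∙ a0) := by
      rw [← Submodule.Quotient.mk_eq_zero, Submodule.Quotient.mk_sub, sub_eq_zero, hv']
      have h2 : (Submodule.Quotient.mk (∑ j, bW.repr (Submodule.Quotient.mk v) j • s (bW j)) :
          V ⧸ (k ∙ a0)) = (Submodule.mkQ (k ∙ a0)) (∑ j, bW.repr (Submodule.Quotient.mk v) j •
            s (bW j)) := rfl
      rw [h2, map_sum]
      simp only [map_smul, hs]
      rw [bW.sum_repr]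
    obtain ⟨c, hc⟩ := Submodule.mem_span_singleton.1 h1
    have h3 : x' v = algebraMap k B c + x' v' := by
      have := congrArg x' hc
      rw [map_smul, map_sub, hx, Algebra.smul_def, mul_one] at this
      rw [this]; ring
    have h4 : ζ v = c + ζ v' := by
      have := congrArg ζ hc
      rw [map_smul, map_sub, hζ, smul_eq_mul, mul_one] at this
      rw [this]; ring
    have h5 : ∑ j, algebraMap k B (bW.repr (Submodule.Quotient.mk v) j) *
        (x' (s (bW j)) - algebraMap k B (ζ (s (bW j)))) = x' v' - algebraMap k B (ζ v') := by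
      rw [hv', map_sum, map_sum, map_sum, ← Finset.sum_sub_distrib]
      refine Finset.sum_congr rfl fun j _ => ?_
      rw [map_smul, map_smul, mul_sub, Algebra.smul_def, smul_eq_mul, map_mul]
    rw [h5, h3, h4, map_add]
    ring

theorem model_gen (ζ : Dual k V) :
    Algebra.adjoin k (Set.range (mw k a0 a) ∪ Set.range (mx k a0 a ζ)) = ⊤ := by
  classical
  rw [eq_top_iff, ← MvPolynomial.adjoin_range_X, Algebra.adjoin_le_iff]
  obtain ⟨π, hπ⟩ := exists_proj k a0 a
  have hsurj := Submodule.mkQ_surjective (k ∙ a0)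
  choose s hs using hsurj
  set bW := finBasis k (V ⧸ (k ∙ a0)) with hbW
  set bN := finBasis k (relK k a0 a) with hbN
  set S := Algebra.adjoin k (Set.range (mw k a0 a) ∪ Set.range (mx k a0 a ζ)) with hS
  rintro _ ⟨j | j, rfl⟩
  · have h1 : (X (Sum.inl j) : MvPolynomial (Idx k a0 a) k) =
        ∑ l, C (bN.repr (π (Pi.single l 1)) j) * mw k a0 a l := by
      unfold mw
      simp only [Finset.mul_sum, ← hbN]
      rw [Finset.sum_comm]
      have h2 : ∀ m, ∑ l, C (σ := Idx k a0 a) (bN.repr (π (Pi.single l 1)) j) *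
          (C ((bN m : ι → k) l) * X (Sum.inl m)) = C (if m = j then 1 else 0) *
            X (Sum.inl m) := by
        intro m
        have h3 : (∑ l, bN.repr (π (Pi.single l 1)) j * (bN m : ι → k) l) =
            if m = j then 1 else 0 := by
          have h4 : π (bN m : ι → k) = bN m := hπ _
          have h5 : (bN m : ι → k) = ∑ l, (bN m : ι → k) l • Pi.single l (1 : k) := by
            ext i; simp [Finset.sum_apply, Pi.single_apply]
          have h6 : π (bN m : ι → k) = ∑ l, (bN m : ι → k) l • π (Pi.single l (1 : k)) := by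
            conv_lhs => rw [h5]
            rw [map_sum]; simp only [map_smul]
          have h7 := congrArg (fun y => bN.repr y j) (h6.symm.trans h4)
          simp only [map_sum, map_smul, Finsupp.coe_finset_sum, Finset.sum_apply,
            Finsupp.coe_smul, Pi.smul_apply, smul_eq_mul, Basis.repr_self,
            Finsupp.single_apply] at h7
          rw [← h7]
          exact Finset.sum_congr rfl fun l _ => mul_comm _ _
        rw [← h3, map_sum, Finset.sum_mul]
        exact Finset.sum_congr rfl fun l _ => by rw [map_mul]; ring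
      rw [Finset.sum_congr rfl fun m _ => h2 m]
      simp [apply_ite, ite_mul]
    rw [h1]
    refine sum_mem fun l _ => mul_mem ?_ (Algebra.subset_adjoin (Or.inl ⟨l, rfl⟩))
    rw [← MvPolynomial.algebraMap_eq]
    exact S.algebraMap_mem _
  · have h1 : (X (Sum.inr j) : MvPolynomial (Idx k a0 a) k) =
        mx k a0 a ζ (s (bW j)) - C (ζ (s (bW j))) := by
      change _ = (C (ζ (s (bW j))) + ∑ m, C (bW.repr (Submodule.Quotient.mk (s (bW j))) m) *
        X (Sum.inr m)) - C (ζ (s (bW j)))
      have h2 : (Submodule.Quotient.mk (s (bW j)) : V ⧸ (k ∙ a0)) = bW j := hs _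
      rw [h2]
      simp [Finsupp.single_apply]
    rw [h1]
    refine sub_mem (Algebra.subset_adjoin (Or.inr ⟨_, rfl⟩)) ?_
    rw [← MvPolynomial.algebraMap_eq]
    exact S.algebraMap_mem _

theorem model_isUniv {ζ : Dual k V} (hζ : ζ a0 = 1) :
    IsUniv k a0 a (MvPolynomial (Idx k a0 a) k) (mw k a0 a) (mx k a0 a ζ) where
  x0 := by
    change C (ζ a0) + ∑ j, C ((finBasis k (V ⧸ (k ∙ a0))).repr (Submodule.Quotient.mk a0) j) *
      X (Sum.inr j) = 1
    have h1 : (Submodule.Quotient.mk a0 : V ⧸ (k ∙ a0)) = 0 := by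
      rw [Submodule.Quotient.mk_eq_zero]; exact Submodule.mem_span_singleton_self a0
    rw [h1, hζ]
    simp
  rel := mw_rel k a0 a
  lift := fun B _ _ w' x' hx hw => model_lift k a0 a hζ B w' x' hx hw
  gen := model_gen k a0 a ζ

/-- number of the variables -/
theorem card_idx (hspan : Submodule.span k (insert a0 (Set.range a)) = ⊤) :
    Fintype.card (Idx k a0 a) = Fintype.card ι := by
  rw [Fintype.card_sum, Fintype.card_fin, Fintype.card_fin]
  have h1 : LinearMap.range (sumMap k a0 a) = ⊤ := by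
    rw [eq_top_iff]
    rintro z -
    obtain ⟨v, rfl⟩ := Submodule.mkQ_surjective (k ∙ a0) z
    have hv : v ∈ Submodule.span k (insert a0 (Set.range a)) := by rw [hspan]; trivial
    obtain ⟨c, z, hz, rfl⟩ := Submodule.mem_span_insert.1 hv
    rw [← Fintype.range_linearCombination] at hz
    obtain ⟨y, rfl⟩ := hz
    refine ⟨y, ?_⟩
    rw [map_add, map_smul]
    have : (Submodule.mkQ (k ∙ a0)) a0 = 0 := by
      rw [Submodule.mkQ_apply, Submodule.Quotient.mk_eq_zero]
      exact Submodule.mem_span_singleton_self a0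
    rw [this, smul_zero, zero_add]
    rfl
  have h2 := LinearMap.finrank_range_add_finrank_ker (sumMap k a0 a)
  rw [h1, finrank_top, Module.finrank_fintype_fun_eq_card] at h2
  rw [add_comm]
  exact h2

end explicit

/-- Homs out of a universal algebra are determined by `w` and `x`. -/
theorem IsUniv.ext {a0 : V} {a : ι → V} {A : Type} [CommRing A] [Algebra k A] {w : ι → A}
    {x : V →ₗ[k] A} (h : IsUniv k a0 a A w x) {B : Type} [CommRing B] [Algebra k B]
    {F G : A →ₐ[k] B} (h1 : ∀ i, F (w i) = G (w i)) (h2 : ∀ v, F (x v) = G (x v)) : F = G := by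
  apply AlgHom.ext_of_adjoin_eq_top h.gen
  rintro _ (⟨i, rfl⟩ | ⟨v, rfl⟩)
  · exact h1 i
  · exact h2 v

variable {k}

omit [Fintype ι] in
/-- functionals vanishing on a subspace and equal to one at a point outside -/
theorem exists_dual_one {Z : Submodule k V} {v : V} (h : v ∉ Z) :
    ∃ φ : Dual k V, φ v = 1 ∧ ∀ z ∈ Z, φ z = 0 := by
  obtain ⟨f, hf, hZ⟩ := Submodule.exists_le_ker_of_notMem h
  refine ⟨(f v)⁻¹ • f, ?_, fun z hz => ?_⟩
  · rw [LinearMap.smul_apply, smul_eq_mul, inv_mul_cancel₀ hf]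
  · have : f z = 0 := hZ hz
    rw [LinearMap.smul_apply, this, smul_zero]

/-- universal algebras are domains -/
theorem IsUniv.exists_equiv [FiniteDimensional k V] {a0 : V} {a : ι → V} (h0 : a0 ≠ 0) {A : Type}
    [CommRing A] [Algebra k A] {w : ι → A} {x : V →ₗ[k] A} (h : IsUniv k a0 a A w x) :
    ∃ ζ : Dual k V, ζ a0 = 1 ∧ ∃ E : A ≃ₐ[k] MvPolynomial (Idx k a0 a) k,
      (∀ i, E (w i) = mw k a0 a i) ∧ ∀ v, E (x v) = mx k a0 a ζ v := by
  obtain ⟨ζ, hζ, -⟩ := exists_dual_one (k := k) (Z := ⊥) (v := a0) (by simpa using h0)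
  have hM := model_isUniv k a0 a hζ
  obtain ⟨F, hF1, hF2⟩ := h.lift _ _ _ hM.x0 hM.rel
  obtain ⟨G, hG1, hG2⟩ := hM.lift _ _ _ h.x0 h.rel
  refine ⟨ζ, hζ, AlgEquiv.ofAlgHom F G ?_ ?_, hF1, hF2⟩
  · apply hM.ext k
    · intro i; simp [hF1, hG1]
    · intro v; simp [hF2, hG2]
  · apply h.ext k
    · intro i; simp [hF1, hG1]
    · intro v; simp [hF2, hG2]

theorem IsUniv.isDomain [FiniteDimensional k V] {a0 : V} {a : ι → V} (h0 : a0 ≠ 0) {A : Type}
    [CommRing A] [Algebra k A] {w : ι → A} {x : V →ₗ[k] A} (h : IsUniv k a0 a A w x) :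
    IsDomain A := by
  obtain ⟨ζ, -, E, -, -⟩ := h.exists_equiv h0
  exact E.toMulEquiv.isDomain (MvPolynomial (Idx k a0 a) k)

/-- the missing coefficient of a relation -/
theorem Rel.exists_full {a0 : V} {a : ι → V} (h0 : a0 ≠ 0) {B : Type} [CommRing B] [Algebra k B]
    {w : ι → B} (h : Rel k a0 a w) :
    ∃ w0 : B, ∀ φ : Dual k V, φ a0 • w0 + ∑ i, φ (a i) • w i = 0 := by
  obtain ⟨ζ, hζ, -⟩ := exists_dual_one (k := k) (Z := ⊥) (v := a0) (by simpa using h0)
  refine ⟨-∑ i, ζ (a i) • w i, fun φ => ?_⟩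
  have h1 := h (φ - φ a0 • ζ) (by simp [hζ])
  simp only [LinearMap.sub_apply, LinearMap.smul_apply, sub_smul, Finset.sum_sub_distrib,
    smul_eq_mul, mul_smul, ← Finset.smul_sum] at h1
  rw [smul_neg, neg_add_eq_sub, h1]

end Pool.Agent.H94rl
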