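import Pool.Agent.H94_rl.Fin
import Pool.Agent.H94_rl.Minor

/-! The deletion contraction formula for the generic rank. -/

open MvPolynomial Module

namespace Pool.Agent.H94rl

/-- rank of a ring over another one -/
noncomputable def rkH {P A : Type} [CommRing P] [CommRing A] (f : P →+* A) : Cardinal :=
  @Module.rank P A _ _ (Module.compHom A f)

theorem rkH_eq {P A M : Type} [CommRing P] [CommRing A] (f : P →+* A) [AddCommGroup M]
    [Module P M] (e : A ≃+ M) (h : ∀ c a, e (f c * a) = c • e a) : rkH f = Module.rank P M := by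
  let _ : Module P A := Module.compHom A f
  exact rank_eq_of_equiv_equiv id e Function.bijective_id h

theorem rkH_algebraMap {P A : Type} [CommRing P] [CommRing A] [Algebra P A] :
    rkH (algebraMap P A) = Module.rank P A :=
  rkH_eq _ (AddEquiv.refl A) fun c a => (Algebra.smul_def c a).symm

theorem rkH_comp {P A B : Type} [CommRing P] [CommRing A] [CommRing B] (f : P →+* A)
    (e : A ≃+* B) : rkH (e.toRingHom.comp f) = rkH f := by
  let _ : Module P B := Module.compHom B (e.toRingHom.comp f)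
  refine (rkH_eq f e.toAddEquiv fun c a => ?_).symm
  change e (f c * a) = _
  rw [map_mul]
  rfl

theorem rkH_eq_zero {P A : Type} [CommRing P] [CommRing A] (f : P →+* A) (c : P) (hc : c ≠ 0)
    (h : f c = 0) : rkH f = 0 := by
  let _ : Module P A := Module.compHom A f
  refine (rank_eq_zero_iff (R := P) (M := A)).2 fun a => ⟨c, hc, ?_⟩
  change f c * a = 0
  rw [h, zero_mul]

/-- additivity -/
theorem rkH_mul {P A : Type} [CommRing P] [IsDomain P] [CommRing A] [IsDomain A] (f : P →+* A)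
    (g h : A) (hg : g ≠ 0) :
    rkH ((Ideal.Quotient.mk (Ideal.span {g * h})).comp f) =
      rkH ((Ideal.Quotient.mk (Ideal.span {g})).comp f) +
        rkH ((Ideal.Quotient.mk (Ideal.span {h})).comp f) := by
  let _ : Algebra P A := f.toAlgebra
  set I := Ideal.span {g * h} with hI
  have e1 : ∀ J : Ideal A, rkH ((Ideal.Quotient.mk J).comp f) = Module.rank P (A ⧸ J) := by
    intro J
    refine rkH_eq _ (AddEquiv.refl (A ⧸ J)) fun c a => ?_
    change (Ideal.Quotient.mk J (f c)) * a = c • a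
    rw [Algebra.smul_def]
    rfl
  rw [e1, e1, e1]
  have hle : I ≤ Ideal.span {g} := by
    rw [hI, Ideal.span_singleton_le_span_singleton]
    exact dvd_mul_right g h
  let ψ : (A ⧸ I) →ₗ[P] (A ⧸ Ideal.span {g}) := (Ideal.Quotient.factorₐ P hle).toLinearMap
  have hψ : ∀ y, ψ (Ideal.Quotient.mk I y) = Ideal.Quotient.mk _ y := fun y => rfl
  have hψs : LinearMap.range ψ = ⊤ := by
    rw [LinearMap.range_eq_top]
    intro y
    obtain ⟨y, rfl⟩ := Ideal.Quotient.mk_surjective y
    exact ⟨Ideal.Quotient.mk I y, hψ y⟩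
  have h1 := LinearMap.rank_range_add_rank_ker ψ
  rw [hψs, rank_top] at h1
  rw [← h1]
  congr 1
  -- the kernel
  let θ : A →ₗ[P] (A ⧸ I) := (Ideal.Quotient.mkₐ P I).toLinearMap ∘ₗ LinearMap.mulLeft P g
  have hθ : ∀ y, θ y = Ideal.Quotient.mk I (g * y) := fun y => rfl
  have hrange : LinearMap.range θ = LinearMap.ker ψ := by
    ext y
    obtain ⟨y, rfl⟩ := Ideal.Quotient.mk_surjective y
    rw [LinearMap.mem_ker, hψ, Ideal.Quotient.eq_zero_iff_mem, Ideal.mem_span_singleton]
    constructor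
    · rintro ⟨z, hz⟩
      rw [hθ, Ideal.Quotient.eq, hI, Ideal.mem_span_singleton] at hz
      obtain ⟨c, hc⟩ := hz
      exact ⟨z - h * c, by linear_combination (-1 : A) * hc⟩
    · rintro ⟨z, rfl⟩
      exact ⟨z, rfl⟩
  have hker : LinearMap.ker θ = (Ideal.span {h}).restrictScalars P := by
    ext y
    rw [LinearMap.mem_ker, hθ, Ideal.Quotient.eq_zero_iff_mem, hI, Ideal.mem_span_singleton,
      Submodule.restrictScalars_mem, Ideal.mem_span_singleton]
    exact mul_dvd_mul_iff_left hg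
  have e2 := θ.quotKerEquivRange
  rw [hrange] at e2
  rw [← e2.rank_eq, hker]
  exact (rank_eq_of_equiv_equiv id (AddEquiv.refl _) Function.bijective_id (fun c y => rfl)).symm


section main

variable {k : Type} [Field k] {V : Type} [AddCommGroup V] [Module k V]
variable {n : ℕ}

theorem IsUniv.x_ne_zero {ι : Type} [Fintype ι] {a0 : V} {a : ι → V} {A : Type} [CommRing A]
    [Algebra k A] {w : ι → A} {x : V →ₗ[k] A} (h : IsUniv k a0 a A w x) (h0 : a0 ≠ 0) {v : V}
    (hv : v ≠ 0) : x v ≠ 0 := by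
  have h1 : ∃ t : Dual k V, t a0 = 1 ∧ t v ≠ 0 := by
    by_cases hp : v ∈ (k ∙ a0)
    · obtain ⟨c, rfl⟩ := Submodule.mem_span_singleton.1 hp
      obtain ⟨t, ht, -⟩ := exists_dual_one (k := k) (Z := ⊥) (v := a0) (by simpa using h0)
      refine ⟨t, ht, ?_⟩
      rw [map_smul, ht, smul_eq_mul, mul_one]
      rintro rfl
      exact hv (zero_smul _ _)
    · obtain ⟨t, ht, -⟩ := exists_dual_one (k := k) (Z := ⊥) (v := a0) (by simpa using h0)
      obtain ⟨s, hs1, hs0⟩ := exists_dual_one (k := k) hp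
      refine ⟨t + (1 - t v) • s, ?_, ?_⟩
      · rw [LinearMap.add_apply, LinearMap.smul_apply, ht,
          hs0 _ (Submodule.mem_span_singleton_self a0), smul_zero, add_zero]
      · rw [LinearMap.add_apply, LinearMap.smul_apply, hs1, smul_eq_mul, mul_one]
        simp
  obtain ⟨t, ht0, htv⟩ := h1
  obtain ⟨F, -, hF⟩ := h.lift k (fun _ => 0) t ht0 (fun φ _ => by simp)
  intro h2
  apply htv
  rw [← hF, h2, map_zero]

theorem IsUniv.w_ne_zero {a0 : V} {a : Fin (n + 1) → V} {A : Type} [CommRing A]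
    [Algebra k A] {w : Fin (n + 1) → A} {x : V →ₗ[k] A} (h : IsUniv k a0 a A w x) (h0 : a0 ≠ 0)
    (hcl : a 0 ∈ Submodule.span k (insert a0 (Set.range fun i : Fin n => a i.succ))) :
    w 0 ≠ 0 := by
  obtain ⟨c, z, hz, hc⟩ := Submodule.mem_span_insert.1 hcl
  rw [← Fintype.range_linearCombination] at hz
  obtain ⟨y, rfl⟩ := hz
  obtain ⟨t, ht, -⟩ := exists_dual_one (k := k) (Z := ⊥) (v := a0) (by simpa using h0)
  obtain ⟨F, hF, -⟩ := h.lift k (Fin.cons (-1) y) t ht (fun φ hφ => by
    rw [Fin.sum_univ_succ]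
    simp only [Fin.cons_zero, Fin.cons_succ]
    have h1 := congrArg φ hc
    rw [map_add, map_smul, hφ, smul_zero, zero_add, Fintype.linearCombination_apply, map_sum] at h1
    simp only [map_smul, smul_eq_mul] at h1
    simp only [smul_eq_mul]
    rw [h1, mul_neg, mul_one, neg_add_eq_zero]
    exact Finset.sum_congr rfl fun i _ => mul_comm _ _)
  intro h2
  have := hF 0
  rw [h2, map_zero, Fin.cons_zero] at this
  exact one_ne_zero (neg_eq_zero.1 this.symm)

theorem IsUniv.w_eq_zero {a0 : V} {a : Fin (n + 1) → V} {A : Type} [CommRing A]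
    [Algebra k A] {w : Fin (n + 1) → A} {x : V →ₗ[k] A} (h : IsUniv k a0 a A w x)
    (hcl : a 0 ∉ Submodule.span k (insert a0 (Set.range fun i : Fin n => a i.succ))) :
    w 0 = 0 := by
  obtain ⟨φ, h1, h0⟩ := exists_dual_one (k := k) hcl
  have h2 := h.rel φ (h0 _ (Submodule.subset_span (Or.inl rfl)))
  rw [Fin.sum_univ_succ, h1, one_smul] at h2
  have h3 : ∀ i : Fin n, φ (a i.succ) = 0 := fun i =>
    h0 _ (Submodule.subset_span (Or.inr ⟨i, rfl⟩))
  simpa [h3] using h2

/-- **Deletion and contraction for the generic rank.** -/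
theorem step [FiniteDimensional k V] {a0 : V} {a : Fin (n + 1) → V} {A : Type} [CommRing A]
    [Algebra k A] {w : Fin (n + 1) → A} {x : V →ₗ[k] A} (h : IsUniv k a0 a A w x)
    (hspan : Submodule.span k (insert a0 (Set.range a)) = ⊤) (h0 : a0 ≠ 0) (ha : a 0 ≠ 0)
    (hw : w 0 ≠ 0) :
    rkH (aeval (fun i => w i * x (a i) ^ 2) : MvPolynomial (Fin (n + 1)) k →ₐ[k] A).toRingHom =
      rkH (aeval (fun i : Fin n => Ideal.Quotient.mkₐ k (Ideal.span {w 0})
        (w i.succ * x (a i.succ) ^ 2)) : MvPolynomial (Fin n) k →ₐ[k] _).toRingHom +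
      2 * rkH (aeval (fun i : Fin n => Ideal.Quotient.mkₐ k (Ideal.span {x (a 0)})
        (w i.succ * x (a i.succ) ^ 2)) : MvPolynomial (Fin n) k →ₐ[k] _).toRingHom := by
  have hdom : IsDomain A := h.isDomain h0
  have hx : x (a 0) ≠ 0 := h.x_ne_zero h0 ha
  set f : MvPolynomial (Fin (n + 1)) k →ₐ[k] A := aeval (fun i => w i * x (a i) ^ 2) with hf
  set f' : MvPolynomial (Fin n) k →ₐ[k] A := aeval (fun i => w i.succ * x (a i.succ) ^ 2) with hf'
  have e1 : ∀ J : Ideal A, (aeval (fun i : Fin n => Ideal.Quotient.mkₐ k J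
      (w i.succ * x (a i.succ) ^ 2)) : MvPolynomial (Fin n) k →ₐ[k] _).toRingHom =
      (Ideal.Quotient.mk J).comp f'.toRingHom := by
    intro J
    have : (aeval (fun i : Fin n => Ideal.Quotient.mkₐ k J
      (w i.succ * x (a i.succ) ^ 2)) : MvPolynomial (Fin n) k →ₐ[k] _) =
      (Ideal.Quotient.mkₐ k J).comp f' := by
      ext i
      rw [aeval_X, AlgHom.comp_apply, hf', aeval_X]
    rw [this]
    rfl
  rw [e1, e1]
  have e2 : rkH ((Ideal.Quotient.mk (Ideal.span {w 0 * x (a 0) ^ 2})).comp f'.toRingHom) =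
      rkH ((Ideal.Quotient.mk (Ideal.span {w 0})).comp f'.toRingHom) +
        2 * rkH ((Ideal.Quotient.mk (Ideal.span {x (a 0)})).comp f'.toRingHom) := by
    rw [rkH_mul f'.toRingHom _ _ hw, sq, rkH_mul f'.toRingHom _ _ hx, two_mul]
  rw [← e2]
  -- specialisation
  let _ : Algebra (MvPolynomial (Fin (n + 1)) k) A := f.toRingHom.toAlgebra
  have htow : IsScalarTower k (MvPolynomial (Fin (n + 1)) k) A :=
    IsScalarTower.of_algebraMap_eq fun c => (f.commutes c).symm
  have hX : ∀ i, algebraMap (MvPolynomial (Fin (n + 1)) k) A (X i) = w i * x (a i) ^ 2 := by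
    intro i
    change f (X i) = _
    rw [hf, aeval_X]
  have hfin := finite_loc h hspan h0 ha hw hX
  set p0 : A := w 0 * x (a 0) ^ 2 with hp0
  let _ : Module (MvPolynomial (Fin n) k) (A ⧸ Ideal.span {p0}) :=
    Module.compHom _ ((Ideal.Quotient.mk (Ideal.span {p0})).comp f'.toRingHom)
  have hcomp : ∀ c, Ideal.Quotient.mk (Ideal.span {p0}) (f c) =
      Ideal.Quotient.mk (Ideal.span {p0}) (f' (sg k n c)) := by
    intro c
    have : (Ideal.Quotient.mkₐ k (Ideal.span {p0})).comp f =
        ((Ideal.Quotient.mkₐ k (Ideal.span {p0})).comp f').comp (sg k n) := by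
      ext i
      refine Fin.cases ?_ (fun j => ?_) i
      · simp only [AlgHom.comp_apply, sg_zero, map_zero]
        rw [hf, aeval_X, ← hp0, Ideal.Quotient.mkₐ_eq_mk, Ideal.Quotient.eq_zero_iff_mem]
        exact Ideal.mem_span_singleton_self _
      · simp only [AlgHom.comp_apply, sg_succ]
        rw [hf, aeval_X, hf', aeval_X]
    exact DFunLike.congr_fun this c
  have key := rank_specialise (P := MvPolynomial (Fin (n + 1)) k) (P' := MvPolynomial (Fin n) k)
    (M := A) (M' := A ⧸ Ideal.span {p0}) (sg k n).toRingHom sg_surj (X 0) (X_ne_zero _)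
    (fun c => sg_ker c) (Ideal.Quotient.mk (Ideal.span {p0})).toAddMonoidHom
    Ideal.Quotient.mk_surjective (fun c m => by
      change Ideal.Quotient.mk (Ideal.span {p0}) (f c * m) =
        Ideal.Quotient.mk (Ideal.span {p0}) (f' (sg k n c)) * Ideal.Quotient.mk (Ideal.span {p0}) m
      rw [map_mul, hcomp]) (fun m hm => by
      have h1 : Ideal.Quotient.mk (Ideal.span {p0}) m = 0 := hm
      rw [Ideal.Quotient.eq_zero_iff_mem, Ideal.mem_span_singleton] at h1
      obtain ⟨c, rfl⟩ := h1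
      refine ⟨c, ?_⟩
      rw [Algebra.smul_def, hX]) (fun m hm => by
      rw [Algebra.smul_def, hX] at hm
      exact (mul_eq_zero.1 hm).resolve_left (mul_ne_zero hw (pow_ne_zero _ hx)))
    (pr k n) (fun c => Iff.rfl) (Rl k n)
    (Localization (Algebra.algebraMapSubmonoid A (pr k n).primeCompl))
    (IsScalarTower.toAlgHom (MvPolynomial (Fin (n + 1)) k) A
      (Localization (Algebra.algebraMapSubmonoid A (pr k n).primeCompl))).toLinearMap
  have e3 : rkH f.toRingHom = Module.rank (MvPolynomial (Fin (n + 1)) k) A :=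
    rkH_eq _ (AddEquiv.refl A) fun c a => rfl
  rw [e3, key]
  rfl

end main

end Pool.Agent.H94rl
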