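import Pool.Agent.H94_rl.LemD

/-! Valuations of the field of the universal pair. -/

open Module MvPolynomial

namespace Pool.Agent.H94rl

variable {k : Type} [Field k] {Ω : Type} [Field Ω] [Algebra k Ω]

section res

variable (O : ValuationSubring Ω)

open Classical in
/-- the residue of an element of the valuation ring, zero elsewhere -/
noncomputable def rr (y : Ω) : IsLocalRing.ResidueField O :=
  if h : y ∈ O then IsLocalRing.residue O ⟨y, h⟩ else 0

theorem rr_of_mem {y : Ω} (h : y ∈ O) : rr O y = IsLocalRing.residue O ⟨y, h⟩ := by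
  rw [rr, dif_pos h]

theorem rr_add {y z : Ω} (hy : y ∈ O) (hz : z ∈ O) : rr O (y + z) = rr O y + rr O z := by
  rw [rr_of_mem O hy, rr_of_mem O hz, rr_of_mem O (add_mem hy hz), ← map_add]
  rfl

theorem rr_mul {y z : Ω} (hy : y ∈ O) (hz : z ∈ O) : rr O (y * z) = rr O y * rr O z := by
  rw [rr_of_mem O hy, rr_of_mem O hz, rr_of_mem O (mul_mem hy hz), ← map_mul]
  rfl

theorem rr_zero : rr O 0 = 0 := by
  rw [rr_of_mem O O.zero_mem, IsLocalRing.residue_eq_zero_iff]
  exact Ideal.zero_mem _

theorem rr_one : rr O 1 = 1 := by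
  rw [rr_of_mem O O.one_mem]
  exact map_one _

theorem rr_eq_zero {y : Ω} (hy : y ∈ O) : rr O y = 0 ↔ O.valuation y < 1 := by
  rw [rr_of_mem O hy, IsLocalRing.residue_eq_zero_iff, O.valuation_lt_one_iff ⟨y, hy⟩]

theorem rr_eq_zero' {y : Ω} (hy : O.valuation y < 1) : rr O y = 0 :=
  (rr_eq_zero O ((O.valuation_le_one_iff y).1 hy.le)).2 hy

theorem rr_sum {ι : Type} (s : Finset ι) {f : ι → Ω} (hf : ∀ i ∈ s, f i ∈ O) :
    rr O (∑ i ∈ s, f i) = ∑ i ∈ s, rr O (f i) := by
  classical
  induction s using Finset.induction_on with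
  | empty => simp [rr_zero]
  | insert a s ha ih =>
    rw [Finset.sum_insert ha, Finset.sum_insert ha, rr_add O (hf a (Finset.mem_insert_self a s))
      (sum_mem fun i hi => hf i (Finset.mem_insert_of_mem hi)),
      ih fun i hi => hf i (Finset.mem_insert_of_mem hi)]

variable (hk : ∀ c : k, algebraMap k Ω c ∈ O)
include hk

theorem val_alg {c : k} (hc : c ≠ 0) : O.valuation (algebraMap k Ω c) = 1 := by
  have h1 := (O.valuation_le_one_iff _).2 (hk c)
  have h2 := (O.valuation_le_one_iff _).2 (hk c⁻¹)
  have h3 : O.valuation (algebraMap k Ω c) * O.valuation (algebraMap k Ω c⁻¹) = 1 := by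
    rw [← map_mul, ← map_mul, mul_inv_cancel₀ hc, map_one, map_one]
  refine le_antisymm h1 ?_
  by_contra h
  rw [not_le] at h
  have h4 : O.valuation (algebraMap k Ω c) * O.valuation (algebraMap k Ω c⁻¹) < 1 :=
    mul_lt_one_of_lt_of_le h h2
  exact h4.ne h3

theorem val_smul {c : k} (hc : c ≠ 0) (y : Ω) : O.valuation (c • y) = O.valuation y := by
  rw [Algebra.smul_def, map_mul, val_alg O hk hc, one_mul]

theorem val_smul_le (c : k) (y : Ω) : O.valuation (c • y) ≤ O.valuation y := by
  by_cases hc : c = 0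
  · rw [hc, zero_smul, map_zero]; exact zero_le
  · exact (val_smul O hk hc y).le

/-- the algebra structure on the residue field -/
noncomputable def resHom : k →+* IsLocalRing.ResidueField O :=
  (IsLocalRing.residue O).comp ((algebraMap k Ω).codRestrict O.toSubring hk)

theorem resHom_apply (c : k) : resHom O hk c = rr O (algebraMap k Ω c) := by
  rw [rr_of_mem O (hk c)]; rfl

variable {V : Type} [AddCommGroup V] [Module k V] (x : V →ₗ[k] Ω)

/-- vectors at which `x` has valuation less than `γ` -/
def Vlt {γ : O.ValueGroup} (hγ : γ ≠ 0) : Submodule k V where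
  carrier := {v | O.valuation (x v) < γ}
  add_mem' {u v} hu hv := by
    have := O.valuation.map_add (x u) (x v)
    rw [Set.mem_ofPred_eq, map_add]
    exact this.trans_lt (max_lt hu hv)
  zero_mem' := by
    rw [Set.mem_ofPred_eq, map_zero, map_zero]
    exact zero_lt_iff.2 hγ
  smul_mem' c v hv := by
    rw [Set.mem_ofPred_eq, map_smul]
    exact (val_smul_le O hk c _).trans_lt hv

/-- vectors at which `x` has valuation at most `γ` -/
def Vle (γ : O.ValueGroup) : Submodule k V where
  carrier := {v | O.valuation (x v) ≤ γ}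
  add_mem' {u v} hu hv := by
    have := O.valuation.map_add (x u) (x v)
    rw [Set.mem_ofPred_eq, map_add]
    exact this.trans (max_le hu hv)
  zero_mem' := by
    rw [Set.mem_ofPred_eq, map_zero, map_zero]
    exact zero_le
  smul_mem' c v hv := by
    rw [Set.mem_ofPred_eq, map_smul]
    exact (val_smul_le O hk c _).trans hv

end res

end Pool.Agent.H94rl
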