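import Pool.Agent.H94_rl.Layer

/-! Integrality at the valuation of the variable `e`. -/

open Module MvPolynomial

namespace Pool.Agent.H94rl

variable {k : Type} [Field k] {Ω : Type} [Field Ω] [Algebra k Ω]
variable {V : Type} [AddCommGroup V] [Module k V] {ι : Type} [Fintype ι]

theorem not_dvd_rename (e : ι) (T : Set ι) (he : e ∉ T) (f : MvPolynomial T k) (hf : f ≠ 0) :
    ¬ X e ∣ rename (fun i : T => (i : ι)) f := by
  classical
  rintro ⟨g, hg⟩
  set σ : MvPolynomial ι k →ₐ[k] MvPolynomial ι k := aeval (fun i => if i = e then 0 else X i)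
    with hσ
  have h1 : σ (rename (fun i : T => (i : ι)) f) = rename (fun i : T => (i : ι)) f := by
    rw [hσ, aeval_rename, rename_eq_aeval]
    congr 2
    funext i
    have : (i : ι) ≠ e := fun h => he (h ▸ i.2)
    simp [this]
  have h2 : σ (rename (fun i : T => (i : ι)) f) = 0 := by
    rw [hg, map_mul]
    simp [hσ]
  rw [h2] at h1
  refine hf (rename_injective _ Subtype.val_injective ?_)
  rw [map_zero]
  exact h1.symm

/-- Integrality of the universal pair at the valuation of the variable `e`. -/
theorem val_main (O : ValuationSubring Ω) (hk : ∀ c : k, algebraMap k Ω c ∈ O) (x : V →ₗ[k] Ω)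
    (a0 : V) (a : ι → V) (hspan : Submodule.span k (insert a0 (Set.range a)) = ⊤)
    (hx0 : x a0 = 1) (w0 : Ω) (w : ι → Ω)
    (hrel : ∀ φ : Dual k V, φ a0 • w0 + ∑ i, φ (a i) • w i = 0)
    (e : ι) (hae : a e ≠ 0) (hwe : w e ≠ 0)
    (hpe : O.valuation (w e * x (a e) ^ 2) ≤ 1)
    (hgood : ∀ f : MvPolynomial ι k, ¬ X e ∣ f →
      O.valuation (aeval (fun i => w i * x (a i) ^ 2) f) = 1) :
    (∀ i, w i ∈ O) ∧ ∀ v, x v ∈ O := by
  classical
  have hpi : ∀ i, i ≠ e → O.valuation (w i * x (a i) ^ 2) = 1 := by
    intro i hi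
    have h1 := hgood (X i) (by
      rintro ⟨g, hg⟩
      have h2 := congrArg (aeval (fun j => if j = e then (0 : k) else 1)) hg
      rw [map_mul, aeval_X, aeval_X] at h2
      simp [hi] at h2)
    rwa [aeval_X] at h1
  have hple : ∀ i, O.valuation (w i * x (a i) ^ 2) ≤ 1 := by
    intro i
    by_cases h : i = e
    · rw [h]; exact hpe
    · exact (hpi i h).le
  set T : Set ι := {i | O.valuation (w i * x (a i) ^ 2) = 1} with hTdef
  have hTe : ∀ i, i ∉ T → i = e := fun i hi => by
    by_contra h; exact hi (hpi i h)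
  have hlayer : ∀ i ∈ T, O.valuation (x (a i)) = 1 := by
    intro i hi
    refine no_layer O hk x a0 a hx0 w0 w hrel hple T
      (fun i hi => lt_of_le_of_ne (hple i) hi) ?_ i hi
    intro f hf
    have hren : aeval (fun i : T => w i * x (a i) ^ 2) f =
        aeval (fun i => w i * x (a i) ^ 2) (rename (fun i : T => (i : ι)) f) := by
      rw [aeval_rename]; rfl
    rw [hren]
    by_cases heT : e ∈ T
    · have h1 : rename (fun i : T => (i : ι)) f ≠ 0 := by
        intro h
        exact hf (rename_injective _ Subtype.val_injective (by rw [h, map_zero]))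
      have h2 : FiniteMultiplicity (X e) (rename (fun i : T => (i : ι)) f) := by
        refine FiniteMultiplicity.of_not_isUnit ?_ h1
        intro h
        have := h.map (aeval (fun _ => (0 : k)) : MvPolynomial ι k →ₐ[k] k)
        rw [aeval_X] at this
        exact not_isUnit_zero this
      obtain ⟨g, hg, hg2⟩ := h2.exists_eq_pow_mul_and_not_dvd
      rw [hg, map_mul, map_pow, aeval_X, map_mul, map_pow, hgood g hg2]
      have h3 : O.valuation (w e * x (a e) ^ 2) = 1 := heT
      rw [h3, one_pow, one_mul]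
    · exact hgood _ (not_dvd_rename e T heT f hf)
  have hxe : ∀ i, O.valuation (x (a i)) ≤ 1 := by
    intro i
    by_cases hi : i ∈ T
    · exact (hlayer i hi).le
    · have hie := hTe i hi
      rw [hie]
      rw [hie] at hi
      by_contra h
      rw [not_le] at h
      have hγ0 : O.valuation (x (a e)) ≠ 0 := (zero_lt_one.trans h).ne'
      obtain ⟨φ, hφ1, hφ0⟩ := exists_dual_one (k := k) (Z := Vlt O hk x hγ0) (v := a e)
        (fun h2 => by
          have h3 : O.valuation (x (a e)) < O.valuation (x (a e)) := h2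
          exact lt_irrefl _ h3)
      have h1 := hrel φ
      have h2 : φ a0 = 0 := hφ0 _ (by
        change O.valuation (x a0) < _
        rw [hx0, map_one]; exact h)
      rw [h2, zero_smul, zero_add, Finset.sum_eq_single e, hφ1, one_smul] at h1
      · exact hwe h1
      · intro j _ hj
        have : φ (a j) = 0 := hφ0 _ (by
          change O.valuation (x (a j)) < _
          rw [hlayer j (by_contra fun h5 => hj (hTe j h5))]; exact h)
        rw [this, zero_smul]
      · intro h3; exact absurd (Finset.mem_univ e) h3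
  have hxv : ∀ v, x v ∈ O := by
    intro v
    rw [← O.valuation_le_one_iff]
    have h1 : Submodule.span k (insert a0 (Set.range a)) ≤ Vle O hk x 1 := by
      rw [Submodule.span_le]
      rintro z (rfl | ⟨i, rfl⟩)
      · change O.valuation (x z) ≤ 1
        rw [hx0, map_one]
      · exact hxe i
    rw [hspan] at h1
    exact h1 (Submodule.mem_top (x := v))
  have hwT : ∀ i ∈ T, w i ∈ O := by
    intro i hi
    rw [← O.valuation_le_one_iff]
    have h1 : O.valuation (w i * x (a i) ^ 2) = 1 := hi
    rw [map_mul, map_pow, hlayer i hi, one_pow, mul_one] at h1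
    exact h1.le
  refine ⟨fun i => ?_, hxv⟩
  by_cases hi : i ∈ T
  · exact hwT i hi
  · have hie := hTe i hi
    rw [hie]
    rw [hie] at hi
    by_cases hpar : a e ∈ (k ∙ a0)
    · obtain ⟨c, hc⟩ := Submodule.mem_span_singleton.1 hpar
      have hc0 : c ≠ 0 := by
        rintro rfl
        exact hae (by rw [← hc, zero_smul])
      rw [← O.valuation_le_one_iff]
      have h1 := hpe
      rw [← hc, map_smul, hx0, map_mul, map_pow, val_smul O hk hc0, map_one, one_pow,
        mul_one] at h1
      exact h1
    · obtain ⟨φ, hφ1, hφ0⟩ := exists_dual_one (k := k) hpar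
      have h1 := hrel φ
      rw [hφ0 _ (Submodule.mem_span_singleton_self a0), zero_smul, zero_add,
        ← Finset.add_sum_erase _ _ (Finset.mem_univ e), hφ1, one_smul] at h1
      rw [eq_neg_of_add_eq_zero_left h1]
      refine neg_mem (sum_mem fun j hj => ?_)
      rw [Algebra.smul_def]
      exact mul_mem (hk _) (hwT j (by_contra fun h5 => (Finset.ne_of_mem_erase hj) (hTe j h5)))

/-- Integrality of the missing coefficient. -/
theorem val_w0 (O : ValuationSubring Ω) (hk : ∀ c : k, algebraMap k Ω c ∈ O) (x : V →ₗ[k] Ω)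
    (a0 : V) (a : ι → V) (hx0 : x a0 = 1) (w0 : Ω) (w : ι → Ω)
    (hrel : ∀ φ : Dual k V, φ a0 • w0 + ∑ i, φ (a i) • w i = 0)
    (hp : ∀ i, O.valuation (w i * x (a i) ^ 2) ≤ 1) : w0 ∈ O := by
  obtain ⟨φ, hφ1, hφ0⟩ := exists_dual_one (k := k) (Z := Vlt O hk x one_ne_zero) (v := a0)
    (fun h => by
      have h2 : O.valuation (x a0) < 1 := h
      rw [hx0, map_one] at h2
      exact lt_irrefl _ h2)
  have h1 := hrel φ
  rw [hφ1, one_smul] at h1
  rw [eq_neg_of_add_eq_zero_left h1]
  refine neg_mem (sum_mem fun i _ => ?_)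
  by_cases h : O.valuation (x (a i)) < 1
  · rw [hφ0 _ h, zero_smul]; exact O.zero_mem
  · rw [not_lt] at h
    rw [Algebra.smul_def]
    refine mul_mem (hk _) ?_
    rw [← O.valuation_le_one_iff]
    have h2 := hp i
    rw [map_mul, map_pow] at h2
    refine le_trans ?_ h2
    exact le_mul_of_one_le_right zero_le (one_le_pow₀ h)

end Pool.Agent.H94rl
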